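import Mathlib
import Pool.Agent.CMX.Targets
import Pool.Agent.AWP.Targets

set_option autoImplicit false

/-!
# Multiplication by a CM field: definitions

Let `K` be a CM field with maximal real subfield `F`, and let `h` be a monic polynomial of degree `N`
over the integers of `F`, all of whose conjugates have only real roots. If `K' = K(θ)`, where `θ` is
a root of `h`, is a CM field, then the abelian varieties of CM type `(K', Φ)` have multiplication by
`K`, and `φ ↦ #{ψ ∈ Φ | ψ above φ}` is their signature.
-/

namespace Pool.Agent.MBK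

open NumberField Finset Module Polynomial
open Pool.Agent.CMT (QBar IsCMType TateWeight Divisorial TateByDivisors cc)
open Pool.Agent.CMTP (NotInduced)
open Pool.Agent.AWP (poly)
open scoped BigOperators

/-- the monic polynomial `X ^ N + c_0 X ^ (N - 1) + ... + c_(N - 1)`, where `c_k` is the algebraic
integer with the coordinates `x (k, i)` -/
noncomputable def hpoly {F ι : Type} [Field F] [Fintype ι] (b : Basis ι ℤ (𝓞 F)) {N : ℕ}
    (x : Fin N × ι → ℤ) : (𝓞 F)[X] :=
  poly (fun k => ∑ i, x (k, i) • b i)

/-- `z` is a root of the conjugate of `h` under the embedding `σ` -/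
def IsRt {F A : Type} [Field F] [Field A] (h : (𝓞 F)[X]) (σ : F →+* A) (z : A) : Prop :=
  h.eval₂ (σ.comp (algebraMap (𝓞 F) F)) z = 0

/-- all complex roots of all conjugates of `h` are real -/
def TotReal {F : Type} [Field F] (h : (𝓞 F)[X]) : Prop :=
  ∀ (σ : F →+* ℂ) (z : ℂ), IsRt h σ z → z.im = 0

/-- the coordinate vectors in the box of size `H` of the monic polynomials of degree `N` all of whose
conjugates have only real roots -/
def Box {F ι : Type} [Field F] [Fintype ι] (b : Basis ι ℤ (𝓞 F)) (N H : ℕ) :
    Set (Fin N × ι → ℤ) :=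
  {x | (∀ i, |x i| ≤ H) ∧ TotReal (hpoly b x)}

/-- the signature of the type `Φ` of `K'` over `K`: the number of its members above `φ` -/
noncomputable def sig {K K' : Type} [Field K] [Field K'] [Algebra K K']
    (Φ : Finset (K' →+* QBar)) (φ : K →+* QBar) : ℕ :=
  {ψ : K' →+* QBar | ψ ∈ Φ ∧ ψ.comp (algebraMap K K') = φ}.ncard

/-- the signature is full: the functions `φ ↦ sig (τ φ)`, where `τ` is an automorphism of the field
of algebraic numbers, satisfy no nonzero odd linear relation -/
def FullSig (K : Type) {K' : Type} [Field K] [NumberField K] [IsCMField K] [Field K']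
    [Algebra K K'] (Φ : Finset (K' →+* QBar)) : Prop :=
  ∀ v : (K →+* QBar) → ℤ, (∀ φ, v (cc φ) = - v φ) →
    (∀ τ : QBar ≃+* QBar, ∑ φ, v φ * (sig Φ ((τ : QBar →+* QBar).comp φ) : ℤ) = 0) → v = 0

/-- the type `Φ` of `K'` is not induced from `K`: above some embedding of `K` there are members of
`Φ` and embeddings which are not in `Φ` -/
def NotFrom (K : Type) {K' : Type} [Field K] [Field K'] [Algebra K K']
    (Φ : Finset (K' →+* QBar)) : Prop :=
  ∃ ψ ψ' : K' →+* QBar, ψ.comp (algebraMap K K') = ψ'.comp (algebraMap K K') ∧ ψ ∈ Φ ∧ ψ' ∉ Φ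

/-- Weil weights over `K`: Tate weights which contain all embeddings of `K'` above the same
embedding of `K` equally often; the classes belong to products of top exterior powers over `K` of
the first cohomology -/
def KWeight (K : Type) {K' : Type} [Field K] [Field K'] [Algebra K K']
    (Φ : Finset (K' →+* QBar)) {n : ℕ} (i : ℕ) (Δ : Finset ((K' →+* QBar) × Fin n)) : Prop :=
  TateWeight Φ i Δ ∧ ∀ ψ ψ' : K' →+* QBar, ψ.comp (algebraMap K K') = ψ'.comp (algebraMap K K') →
    {j | (ψ, j) ∈ Δ}.ncard = {j | (ψ', j) ∈ Δ}.ncard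

/-- every Tate weight on every power is the disjoint union of Tate weights of codimension one and a
Weil weight over `K` -/
def TateByWeil (K : Type) {K' : Type} [Field K] [Field K'] [Algebra K K']
    (Φ : Finset (K' →+* QBar)) : Prop :=
  ∀ (n i : ℕ) (Δ : Finset ((K' →+* QBar) × Fin n)), TateWeight Φ i Δ →
    ∃ (i' : ℕ) (Δ₁ Δ₂ : Finset ((K' →+* QBar) × Fin n)), Disjoint Δ₁ Δ₂ ∧
      (∀ q, q ∈ Δ ↔ q ∈ Δ₁ ∨ q ∈ Δ₂) ∧ Divisorial Φ Δ₁ ∧ KWeight K Φ i' Δ₂

/-- The polynomial `h` of degree `N` over the integers of the maximal real subfield `F` of `K` is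
good: every field `K' = K(θ)`, where `θ` is a root of `h`, is a CM field of degree `N` over `K`; for
every CM type of `K'` which is not induced from `K` the Tate weights are unions of divisorial ones
and Weil weights over `K`; a CM type belongs to a simple abelian variety and has only divisorial Tate
weights if and only if it is not induced from `K` and its signature is full; and the number of the
other CM types is small. -/
def Good (F K : Type) [Field F] [NumberField F] [Field K] [NumberField K] [IsCMField K]
    [Algebra F K] (N : ℕ) (h : (𝓞 F)[X]) : Prop :=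
  ∀ (K' : Type) [Field K'] [NumberField K'] [Algebra K K'] (θ : K'),
    IsRt h ((algebraMap K K').comp (algebraMap F K)) θ → IntermediateField.adjoin K {θ} = ⊤ →
    finrank K K' = N ∧ ∃ _ : IsCMField K',
      (∀ Φ : Finset (K' →+* QBar), IsCMType K' Φ →
        (NotFrom K Φ → TateByWeil K Φ) ∧
        ((NotInduced Φ ∧ TateByDivisors Φ) ↔ (NotFrom K Φ ∧ FullSig K Φ))) ∧
      Nat.card {Φ : Finset (K' →+* QBar) // IsCMType K' Φ} = 2 ^ (finrank ℚ F * N) ∧
      Nat.card {Φ : Finset (K' →+* QBar) // IsCMType K' Φ ∧
          ¬ (NotInduced Φ ∧ TateByDivisors Φ)} ≤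
        finrank ℚ F * N.choose (N / 2) * 2 ^ ((finrank ℚ F - 1) * N) + 2 ^ finrank ℚ F

end Pool.Agent.MBK
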