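import Mathlib
import Pool.Agent.MBK.Defs

set_option autoImplicit false

/-!
# Multiplication by a CM field: targets
-/

namespace Pool.Agent.MBK

open NumberField Finset Module Polynomial
open Pool.Agent.CMT (QBar IsCMType TateWeight Divisorial TateByDivisors cc)
open Pool.Agent.CMTP (NotInduced)
open Pool.Agent.AWP (poly)
open scoped BigOperators

/-! ## Auxiliary definitions -/

/-- a product of distinct linear factors -/
def SplitD {R : Type} [CommRing R] (f : R[X]) : Prop := ∃ s : Finset R, f = ∏ a ∈ s, (X - C a)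

/-- an irreducible quadratic polynomial times a product of distinct linear factors -/
def QuadSplit {R : Type} [CommRing R] (f : R[X]) : Prop :=
  ∃ (q : R[X]) (s : Finset R), q.Monic ∧ q.natDegree = 2 ∧ Irreducible q ∧
    f = q * ∏ a ∈ s, (X - C a)

/-- a linear factor times an irreducible polynomial prime to it -/
def LinIrr {R : Type} [CommRing R] (f : R[X]) : Prop :=
  ∃ (a : R) (q : R[X]), q.Monic ∧ Irreducible q ∧ q.eval a ≠ 0 ∧ f = (X - C a) * q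

/-- the three patterns of the reductions `Y σ` modulo `p` of the conjugates of a polynomial -/
def Pat {J : Type} {N p : ℕ} (m : Fin 3) (σ₀ : J) (Y : J → Fin N → ZMod p) : Prop :=
  (m = 0 → QuadSplit (poly (Y σ₀)) ∧ ∀ σ, σ ≠ σ₀ → SplitD (poly (Y σ))) ∧
  (m = 1 → LinIrr (poly (Y σ₀))) ∧ (m = 2 → Irreducible (poly (Y σ₀)))

/-- the reductions of the conjugates of the polynomial with the coefficients `c k` -/
def redc {F L : Type} [Field F] [Field L] {N p : ℕ} (ρ : 𝓞 L →+* ZMod p) (c : Fin N → 𝓞 F) :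
    (F →+* L) → Fin N → ZMod p :=
  fun σ k => ρ (RingOfIntegers.mapRingHom σ (c k))

/-- the conjugates of the polynomial `h` have `N` distinct roots, and any two roots of one of them
can be interchanged by an automorphism which fixes all conjugates of `K` and all other roots of all
conjugates of `h` -/
def RootSwaps (F K : Type) [Field F] [Field K] (N : ℕ) (h : (𝓞 F)[X]) : Prop :=
  (∀ σ : F →+* QBar, {β : QBar | IsRt h σ β}.ncard = N) ∧
  ∀ (σ₀ : F →+* QBar) (β₁ β₂ : QBar), IsRt h σ₀ β₁ → IsRt h σ₀ β₂ → β₁ ≠ β₂ →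
    ∃ τ : QBar ≃+* QBar, (∀ (φ : K →+* QBar) (x : K), τ (φ x) = φ x) ∧ τ β₁ = β₂ ∧ τ β₂ = β₁ ∧
      ∀ (σ : F →+* QBar) (β : QBar), IsRt h σ β → (σ = σ₀ → β ≠ β₁ ∧ β ≠ β₂) → τ β = β

/-- two embeddings of `K'` above the same embedding of `K` can be interchanged by an automorphism
which fixes all embeddings except these two and their complex conjugates -/
def HasSwaps (K K' : Type) [Field K] [Field K'] [NumberField K'] [IsCMField K'] [Algebra K K'] :
    Prop :=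
  ∀ ψ₁ ψ₂ : K' →+* QBar, ψ₁ ≠ ψ₂ → ψ₁.comp (algebraMap K K') = ψ₂.comp (algebraMap K K') →
    ∃ τ : QBar ≃+* QBar, (τ : QBar →+* QBar).comp ψ₁ = ψ₂ ∧ (τ : QBar →+* QBar).comp ψ₂ = ψ₁ ∧
      ∀ ψ : K' →+* QBar, ψ ≠ ψ₁ → ψ ≠ ψ₂ → ψ ≠ cc ψ₁ → ψ ≠ cc ψ₂ →
        (τ : QBar →+* QBar).comp ψ = ψ

/-- complex conjugation commutes with the restriction of embeddings to `K` -/
def CCompat (K K' : Type) [Field K] [NumberField K] [IsCMField K] [Field K'] [NumberField K']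
    [IsCMField K'] [Algebra K K'] : Prop :=
  ∀ ψ : K' →+* QBar, (cc ψ).comp (algebraMap K K') = cc (ψ.comp (algebraMap K K'))

/-- the translates of the type separate the embeddings -/
def Separating {K' : Type} [Field K'] (Φ : Finset (K' →+* QBar)) : Prop :=
  ∀ ψ ψ' : K' →+* QBar, (∀ τ : QBar ≃+* QBar,
    ((τ : QBar →+* QBar).comp ψ ∈ Φ ↔ (τ : QBar →+* QBar).comp ψ' ∈ Φ)) → ψ = ψ'

/-! ## Targets -/

/-- FRBR: a Frobenius automorphism above a homomorphism from the integers of `L` to `ZMod p`,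
together with a reduction map for the roots of finitely many polynomials. -/
def T_FRBR : Prop := ∀ (L : Type) [Field L] [NumberField L] (j : L →+* QBar) (p : ℕ)
  [Fact p.Prime] (ρ : 𝓞 L →+* ZMod p) (T : Finset (𝓞 L)[X]), (∀ f ∈ T, f.Monic) →
  ∃ (τ : QBar ≃+* QBar) (k : Type) (_ : Field k) (e : ZMod p →+* k) (red : QBar → k),
    (∀ a a' : 𝓞 L, j a' = τ (j a) → ρ a' = ρ a) ∧
    ∀ f ∈ T, (f.map ρ).Separable →
      {β : QBar | f.eval₂ (j.comp (algebraMap (𝓞 L) L)) β = 0}.ncard = f.natDegree ∧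
      Set.InjOn red {β : QBar | f.eval₂ (j.comp (algebraMap (𝓞 L) L)) β = 0} ∧
      ∀ β : QBar, f.eval₂ (j.comp (algebraMap (𝓞 L) L)) β = 0 →
        (f.map ρ).eval₂ e (red β) = 0 ∧ red (τ β) = red β ^ p

/-- SEPA: the polynomials of the patterns are separable. -/
def T_SEPA : Prop := ∀ (p : ℕ) [Fact p.Prime] (f : (ZMod p)[X]),
  (SplitD f ∨ QuadSplit f ∨ LinIrr f ∨ Irreducible f) → f.Separable

/-- ACT: the action of the Frobenius automorphism on the roots. -/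
def T_ACT : Prop := ∀ (p : ℕ) [Fact p.Prime] (k : Type) [Field k] (e : ZMod p →+* k)
  (f : (ZMod p)[X]) (R : Set QBar) (red : QBar → k) (τ : QBar ≃+* QBar), f.Monic →
  R.ncard = f.natDegree → R.Finite → Set.InjOn red R → (∀ β ∈ R, τ β ∈ R) →
  (∀ β ∈ R, f.eval₂ e (red β) = 0 ∧ red (τ β) = red β ^ p) →
  (SplitD f → ∀ β ∈ R, τ β = β) ∧
  (QuadSplit f → ∃ β₁ ∈ R, ∃ β₂ ∈ R, β₁ ≠ β₂ ∧ τ β₁ = β₂ ∧ τ β₂ = β₁ ∧
    ∀ β ∈ R, β ≠ β₁ → β ≠ β₂ → τ β = β) ∧
  (LinIrr f → ∃ β₀ ∈ R, τ β₀ = β₀ ∧ ∀ β ∈ R, ∀ β' ∈ R, β ≠ β₀ → β' ≠ β₀ →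
    ∃ n : ℕ, τ^[n] β = β') ∧
  (Irreducible f → ∀ β ∈ R, ∀ β' ∈ R, ∃ n : ℕ, τ^[n] β = β')

/-- DENS: the factorisation patterns have positive density. -/
def T_DENS : Prop := ∀ N : ℕ, 2 ≤ N → ∃ δ : ℝ, 0 < δ ∧ δ ≤ 1 ∧ ∃ p₀ : ℕ, ∀ p : ℕ, p.Prime →
  p₀ ≤ p →
  δ * (p : ℝ) ^ N ≤ (({y : Fin N → ZMod p | SplitD (poly y)}.ncard : ℕ) : ℝ) ∧
  δ * (p : ℝ) ^ N ≤ (({y : Fin N → ZMod p | QuadSplit (poly y)}.ncard : ℕ) : ℝ) ∧
  δ * (p : ℝ) ^ N ≤ (({y : Fin N → ZMod p | LinIrr (poly y)}.ncard : ℕ) : ℝ) ∧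
  δ * (p : ℝ) ^ N ≤ (({y : Fin N → ZMod p | Irreducible (poly y)}.ncard : ℕ) : ℝ)

/-- DENSJ: the same for tuples of polynomials. -/
def T_DENSJ : Prop := ∀ (J : Type) [Finite J] (m : Fin 3) (σ₀ : J) (N : ℕ), 2 ≤ N →
  ∃ δ : ℝ, 0 < δ ∧ δ ≤ 1 ∧ ∃ p₀ : ℕ, ∀ p : ℕ, p.Prime → p₀ ≤ p →
  (({Y : J → Fin N → ZMod p | ¬ Pat m σ₀ Y}.ncard : ℕ) : ℝ) ≤
    (1 - δ) * (p : ℝ) ^ (N * Nat.card J)

/-- RED: almost all polynomials have a reduction in the given sets of positive density. -/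
def T_RED : Prop := ∀ (F L ι : Type) [Field F] [NumberField F] [Field L] [NumberField L]
  [Fintype ι] (b : Basis ι ℤ (𝓞 F)), Nat.card (F →+* L) = Fintype.card ι →
  ∀ (N : ℕ) (δ : ℝ), 0 < δ → δ ≤ 1 →
  ∀ (p₀ : ℕ) (G : (p : ℕ) → Set ((F →+* L) → Fin N → ZMod p)),
  (∀ p : ℕ, p.Prime → p₀ ≤ p → (((G p)ᶜ.ncard : ℕ) : ℝ) ≤
    (1 - δ) * (p : ℝ) ^ (N * Fintype.card ι)) →
  ∀ ε : ℝ, 0 < ε → ∃ H₀ : ℕ, ∀ H : ℕ, H₀ ≤ H →
    (({x : Fin N × ι → ℤ | (∀ i, |x i| ≤ H) ∧ ∀ p : ℕ, p.Prime → p₀ ≤ p →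
      ∀ ρ : 𝓞 L →+* ZMod p, redc ρ (fun k => ∑ i, x (k, i) • b i) ∉ G p}.ncard : ℕ) : ℝ) ≤
      ε * (2 * H + 1 : ℝ) ^ (N * Fintype.card ι)

/-- GRP: the three patterns at all embeddings give all interchanges of two roots. -/
def T_GRP : Prop := ∀ (F K L : Type) [Field F] [NumberField F] [Field K] [NumberField K]
  [Algebra F K] [Field L] [NumberField L] (j : L →+* QBar),
  (∀ (φ : K →+* QBar) (x : K), ∃ y, j y = φ x) → ∀ N : ℕ, 2 ≤ N → ∃ p₀ : ℕ,
  ∀ c : Fin N → 𝓞 F,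
  (∀ (m : Fin 3) (σ₀ : F →+* L), ∃ p : ℕ, p.Prime ∧ p₀ ≤ p ∧ ∃ ρ : 𝓞 L →+* ZMod p,
    Pat m σ₀ (redc ρ c)) →
  RootSwaps F K N (poly c)

/-- ALM: almost all polynomials have all interchanges of two roots. -/
def T_ALM : Prop := ∀ (F K ι : Type) [Field F] [NumberField F] [Field K] [NumberField K]
  [Algebra F K] [Fintype ι] (b : Basis ι ℤ (𝓞 F)) (N : ℕ), 2 ≤ N → ∀ ε : ℝ, 0 < ε →
  ∃ H₀ : ℕ, ∀ H : ℕ, H₀ ≤ H →
    (({x : Fin N × ι → ℤ | (∀ i, |x i| ≤ H) ∧ ¬ RootSwaps F K N (hpoly b x)}.ncard : ℕ) : ℝ) ≤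
      ε * (2 * H + 1 : ℝ) ^ (N * Fintype.card ι)

/-- REAL: a positive proportion of the polynomials is totally real. -/
def T_REAL : Prop := ∀ (F ι : Type) [Field F] [NumberField F] [IsTotallyReal F] [Fintype ι]
  (b : Basis ι ℤ (𝓞 F)) (N : ℕ), 2 ≤ N → ∃ c : ℝ, 0 < c ∧ ∃ H₀ : ℕ, ∀ H : ℕ, H₀ ≤ H →
    c * (2 * H + 1 : ℝ) ^ (N * Fintype.card ι) ≤ (((Box b N H).ncard : ℕ) : ℝ)

/-- CMF: the field `K(θ)` is a CM field, and its complex conjugation. -/
def T_CMF : Prop := ∀ (F K K' : Type) [Field F] [NumberField F] [IsTotallyReal F] [Field K]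
  [NumberField K] [IsCMField K] [Algebra F K] [Field K'] [NumberField K'] [Algebra K K'],
  finrank F K = 2 → ∀ h : (𝓞 F)[X], h.Monic → TotReal h → ∀ θ : K',
  IsRt h ((algebraMap K K').comp (algebraMap F K)) θ → IntermediateField.adjoin K {θ} = ⊤ →
  ∃ _ : IsCMField K', (∀ ψ : K' →+* QBar, cc ψ θ = ψ θ) ∧ CCompat K K'

/-- DEG: the degree of `K(θ)`. -/
def T_DEG : Prop := ∀ (F K K' : Type) [Field F] [NumberField F] [Field K] [NumberField K]
  [Algebra F K] [Field K'] [NumberField K'] [Algebra K K'] (N : ℕ) (h : (𝓞 F)[X]), h.Monic →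
  h.natDegree = N → RootSwaps F K N h → ∀ θ : K',
  IsRt h ((algebraMap K K').comp (algebraMap F K)) θ → IntermediateField.adjoin K {θ} = ⊤ →
  finrank K K' = N

/-- HSW: interchanges of two embeddings. -/
def T_HSW : Prop := ∀ (F K K' : Type) [Field F] [NumberField F] [Field K] [NumberField K]
  [IsCMField K] [Algebra F K] [Field K'] [NumberField K'] [IsCMField K'] [Algebra K K'],
  finrank F K = 2 → CCompat K K' → ∀ (N : ℕ) (h : (𝓞 F)[X]), RootSwaps F K N h → ∀ θ : K',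
  IsRt h ((algebraMap K K').comp (algebraMap F K)) θ → IntermediateField.adjoin K {θ} = ⊤ →
  (∀ ψ : K' →+* QBar, cc ψ θ = ψ θ) → HasSwaps K K'

/-- CONST: the excess of an embedding over its complex conjugate in a Tate weight depends only on
the restriction to `K`. -/
def T_CONST : Prop := ∀ (K K' : Type) [Field K] [NumberField K] [IsCMField K] [Field K']
  [NumberField K'] [IsCMField K'] [Algebra K K'], CCompat K K' → HasSwaps K K' →
  ∀ Φ : Finset (K' →+* QBar), IsCMType K' Φ → NotFrom K Φ →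
  ∀ (n i : ℕ) (Δ : Finset ((K' →+* QBar) × Fin n)), TateWeight Φ i Δ →
  ∀ ψ ψ' : K' →+* QBar, ψ.comp (algebraMap K K') = ψ'.comp (algebraMap K K') →
    (({j | (ψ, j) ∈ Δ}.ncard : ℕ) : ℤ) - ({j | (cc ψ, j) ∈ Δ}.ncard : ℕ) =
      (({j | (ψ', j) ∈ Δ}.ncard : ℕ) : ℤ) - ({j | (cc ψ', j) ∈ Δ}.ncard : ℕ)

/-- WEIL: the structure of the Tate weights of a type which is not induced from `K`. -/
def T_WEIL : Prop := ∀ (K K' : Type) [Field K] [NumberField K] [IsCMField K] [Field K']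
  [NumberField K'] [IsCMField K'] [Algebra K K'], CCompat K K' → HasSwaps K K' →
  ∀ Φ : Finset (K' →+* QBar), IsCMType K' Φ → NotFrom K Φ → TateByWeil K Φ

/-- FULL: a full signature gives only divisorial Tate weights and separates the embeddings. -/
def T_FULL : Prop := ∀ (K K' : Type) [Field K] [NumberField K] [IsCMField K] [Field K']
  [NumberField K'] [IsCMField K'] [Algebra K K'], CCompat K K' → HasSwaps K K' →
  ∀ Φ : Finset (K' →+* QBar), IsCMType K' Φ → NotFrom K Φ → FullSig K Φ →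
  Separating Φ ∧ TateByDivisors Φ

/-- CONV: the converse. -/
def T_CONV : Prop := ∀ (K K' : Type) [Field K] [NumberField K] [IsCMField K] [Field K']
  [NumberField K'] [IsCMField K'] [Algebra K K'], CCompat K K' →
  ∀ Φ : Finset (K' →+* QBar), IsCMType K' Φ → Separating Φ → TateByDivisors Φ → FullSig K Φ

/-- IND: a type is not induced from a proper subfield if and only if its translates separate the
embeddings; and then it is not induced from `K` if `K` is smaller than `K'`. -/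
def T_IND : Prop := (∀ (K' : Type) [Field K'] [NumberField K'] (Φ : Finset (K' →+* QBar)),
    NotInduced Φ ↔ Separating Φ) ∧
  ∀ (K K' : Type) [Field K] [NumberField K] [Field K'] [NumberField K'] [Algebra K K']
    (Φ : Finset (K' →+* QBar)), 2 ≤ finrank K K' → Separating Φ → NotFrom K Φ

/-- CNT: counting CM types with degenerate signature. -/
def T_CNT : Prop := ∀ (K K' : Type) [Field K] [NumberField K] [IsCMField K] [Field K']
  [NumberField K'] [IsCMField K'] [Algebra K K'] (N g : ℕ), CCompat K K' →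
  finrank ℚ K = 2 * g → finrank K K' = N →
  Nat.card {Φ : Finset (K' →+* QBar) // IsCMType K' Φ} = 2 ^ (g * N) ∧
  Nat.card {Φ : Finset (K' →+* QBar) // IsCMType K' Φ ∧ ¬ FullSig K Φ} ≤
    g * N.choose (N / 2) * 2 ^ ((g - 1) * N) ∧
  Nat.card {Φ : Finset (K' →+* QBar) // IsCMType K' Φ ∧ ¬ NotFrom K Φ} ≤ 2 ^ g

/-- MAIN: the theorem. -/
def T_MAIN : Prop := ∀ (F K ι : Type) [Field F] [NumberField F] [IsTotallyReal F] [Field K]
  [NumberField K] [IsCMField K] [Algebra F K] [Fintype ι] (b : Basis ι ℤ (𝓞 F)),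
  finrank F K = 2 → ∀ N : ℕ, 2 ≤ N → ∀ ε : ℝ, 0 < ε → ∃ H₀ : ℕ, ∀ H : ℕ, H₀ ≤ H →
    (Box b N H).Finite ∧ 0 < (Box b N H).ncard ∧
    (({x ∈ Box b N H | ¬ Good F K N (hpoly b x)}.ncard : ℕ) : ℝ) ≤
      ε * ((Box b N H).ncard : ℕ)

end Pool.Agent.MBK
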