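import Mathlib
import Pool.Agent.MBK.Targets
import Pool.Agent.AWP.FROB

set_option autoImplicit false

/-!
# Multiplication by a CM field: separability of the patterns, and the action of Frobenius
-/

namespace Pool.Agent.MBK.ACT_

open Polynomial
open Pool.Agent.CMT (QBar)

/-- the Frobenius orbit of a root of an irreducible polynomial contains all roots -/
theorem orb {p : ℕ} [Fact p.Prime] {k : Type} [Field k] (e : ZMod p →+* k) (q : (ZMod p)[X])
    (hq : Irreducible q) (x y : k) (hx : q.eval₂ e x = 0) (hy : q.eval₂ e y = 0) :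
    ∃ n : ℕ, x ^ (p ^ n) = y := by
  have hfu : Fact (Irreducible q) := ⟨hq⟩
  let φ : AdjoinRoot q →+* k := AdjoinRoot.lift e x hx
  have hφ : φ (AdjoinRoot.root q) = x := AdjoinRoot.lift_root hx
  have : FiniteDimensional (ZMod p) (AdjoinRoot q) := (AdjoinRoot.powerBasis hq.ne_zero).finite
  have : Finite (AdjoinRoot q) := Module.finite_of_finite (ZMod p)
  have hfe : φ.comp (algebraMap (ZMod p) (AdjoinRoot q)) = e := RingHom.ext_zmod _ _
  have hmin := AdjoinRoot.minpoly_root hq.ne_zero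
  have hsp := Normal.splits (inferInstance : Normal (ZMod p) (AdjoinRoot q)) (AdjoinRoot.root q)
  have hne : minpoly (ZMod p) (AdjoinRoot.root q) ≠ 0 :=
    minpoly.ne_zero (Algebra.IsIntegral.isIntegral _)
  have hy2 : ((minpoly (ZMod p) (AdjoinRoot.root q)).map
      (algebraMap (ZMod p) (AdjoinRoot q))).map φ |>.IsRoot y := by
    rw [IsRoot.def, Polynomial.map_map, hfe, eval_map, hmin, eval₂_mul, hy, zero_mul]
  obtain ⟨z, hz⟩ := hsp.mem_range_of_isRoot (map_ne_zero hne) hy2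
  have hz2 : (minpoly (ZMod p) (AdjoinRoot.root q)).aeval z = 0 := by
    rw [IsRoot.def, ← hz, eval_map, eval₂_hom] at hy2
    rw [← eval_map_algebraMap]
    exact (map_eq_zero_iff φ φ.injective).1 hy2
  obtain ⟨σ, hσ⟩ := minpoly.exists_algEquiv_of_root' (K := ZMod p) (L := AdjoinRoot q)
    (x := z) (y := AdjoinRoot.root q) (Algebra.IsAlgebraic.isAlgebraic _) hz2
  obtain ⟨n, hn⟩ := (FiniteField.bijective_frobeniusAlgEquivOfAlgebraic_pow (ZMod p)
    (AdjoinRoot q)).2 σ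
  refine ⟨n, ?_⟩
  rw [← hz, ← hσ, ← hφ, ← map_pow]
  congr 1
  rw [← hn]
  simp only [AlgEquiv.coe_pow]
  rw [FiniteField.coe_frobeniusAlgEquivOfAlgebraic_iterate, ZMod.card]

theorem sepd {p : ℕ} [Fact p.Prime] (s : Finset (ZMod p)) :
    (∏ a ∈ s, (X - C a) : (ZMod p)[X]).Separable :=
  separable_prod_X_sub_C_iff'.2 fun _ _ _ _ h => h

theorem cop {p : ℕ} [Fact p.Prime] (q : (ZMod p)[X]) (a : ZMod p)
    (h : q.eval a ≠ 0) : IsCoprime q (X - C a) :=
  (((irreducible_X_sub_C a).coprime_iff_not_dvd).2 fun h1 => h (dvd_iff_isRoot.1 h1)).symm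

theorem noroot {p : ℕ} [Fact p.Prime] (q : (ZMod p)[X]) (hq : Irreducible q)
    (h2 : q.natDegree = 2) (a : ZMod p) : q.eval a ≠ 0 := by
  intro h
  have h4 := degree_eq_one_of_irreducible_of_root hq (x := a) h
  have h5 : q.natDegree = 1 := natDegree_eq_of_degree_eq_some h4
  omega

theorem p_SEPA : T_SEPA := by
  intro p _ f h
  rcases h with ⟨s, rfl⟩ | ⟨q, s, hm, h2, hq, rfl⟩ | ⟨a, q, hm, hq, ha, rfl⟩ | h
  · exact sepd s
  · refine Separable.mul (PerfectField.separable_of_irreducible hq) (sepd s) ?_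
    exact IsCoprime.prod_right fun a _ => cop q a (noroot q hq h2 a)
  · exact Separable.mul separable_X_sub_C (PerfectField.separable_of_irreducible hq)
      (cop q a ha).symm
  · exact PerfectField.separable_of_irreducible h

section

variable {p : ℕ} [Fact p.Prime] {k : Type} [Field k] (e : ZMod p →+* k)
  (f : (ZMod p)[X]) (R : Set QBar) (red : QBar → k) (τ : QBar ≃+* QBar)

theorem img (hm : f.Monic) (hc : R.ncard = f.natDegree) (hfin : R.Finite)
    (hinj : Set.InjOn red R) (hroot : ∀ β ∈ R, f.eval₂ e (red β) = 0) :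
    (f.map e).roots.Nodup ∧ Multiset.card (f.map e).roots = f.natDegree ∧
    ∀ x : k, f.eval₂ e x = 0 → ∃ β ∈ R, red β = x := by
  classical
  have hM : (f.map e).Monic := hm.map e
  have hmem : ∀ x : k, x ∈ (f.map e).roots.toFinset ↔ f.eval₂ e x = 0 := by
    intro x
    rw [Multiset.mem_toFinset, mem_roots hM.ne_zero, IsRoot.def, eval_map]
  have h1 : (hfin.toFinset.image red) ⊆ (f.map e).roots.toFinset := by
    intro x hx
    obtain ⟨β, hβ, rfl⟩ := Finset.mem_image.1 hx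
    exact (hmem _).2 (hroot β (hfin.mem_toFinset.1 hβ))
  have h2 : (hfin.toFinset.image red).card = f.natDegree := by
    rw [Finset.card_image_of_injOn (by simpa using hinj), ← hc, Set.ncard_eq_toFinset_card R hfin]
  have h3 : Multiset.card (f.map e).roots ≤ f.natDegree := by
    have := card_roots' (f.map e)
    rwa [hm.natDegree_map] at this
  have h4 := Multiset.toFinset_card_le (f.map e).roots
  have h5 := Finset.card_le_card h1
  have h6 : Multiset.card (f.map e).roots = f.natDegree := by omega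
  have h7 : (f.map e).roots.toFinset.card = Multiset.card (f.map e).roots := by omega
  have h8 : (hfin.toFinset.image red) = (f.map e).roots.toFinset :=
    Finset.eq_of_subset_of_card_le h1 (by omega)
  refine ⟨Multiset.toFinset_card_eq_card_iff_nodup.1 h7, h6, fun x hx => ?_⟩
  have h9 := (hmem x).2 hx
  rw [← h8] at h9
  obtain ⟨β, hβ, rfl⟩ := Finset.mem_image.1 h9
  exact ⟨β, hfin.mem_toFinset.1 hβ, rfl⟩

theorem fixd (hinj : Set.InjOn red R) (hτ : ∀ β ∈ R, τ β ∈ R)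
    (hr : ∀ β ∈ R, red (τ β) = red β ^ p) (β : QBar) (hβ : β ∈ R) (a : ZMod p)
    (h : red β = e a) : τ β = β := by
  refine hinj (hτ β hβ) hβ ?_
  rw [hr β hβ, h, ← map_pow, ZMod.pow_card]

theorem prodroot (s : Finset (ZMod p)) (x : k)
    (h : (∏ a ∈ s, (X - C a) : (ZMod p)[X]).eval₂ e x = 0) : ∃ a, x = e a := by
  rw [eval₂_finsetProd, Finset.prod_eq_zero_iff] at h
  obtain ⟨a, -, ha⟩ := h
  refine ⟨a, ?_⟩
  rw [eval₂_sub, eval₂_X, eval₂_C] at ha
  exact sub_eq_zero.1 ha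

omit [Fact p.Prime] in
theorem iter (hτ : ∀ β ∈ R, τ β ∈ R)
    (hr : ∀ β ∈ R, red (τ β) = red β ^ p) (β : QBar) (hβ : β ∈ R) (n : ℕ) :
    τ^[n] β ∈ R ∧ red (τ^[n] β) = red β ^ (p ^ n) := by
  induction n with
  | zero => simpa using hβ
  | succ n ih =>
    rw [Function.iterate_succ_apply']
    refine ⟨hτ _ ih.1, ?_⟩
    rw [hr _ ih.1, ih.2, ← pow_mul, pow_succ]

theorem trans (hinj : Set.InjOn red R) (hτ : ∀ β ∈ R, τ β ∈ R)
    (hr : ∀ β ∈ R, red (τ β) = red β ^ p) (q : (ZMod p)[X]) (hq : Irreducible q)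
    (β β' : QBar) (hβ : β ∈ R) (hβ' : β' ∈ R) (h : q.eval₂ e (red β) = 0)
    (h' : q.eval₂ e (red β') = 0) : ∃ n : ℕ, τ^[n] β = β' := by
  obtain ⟨n, hn⟩ := orb e q hq (red β) (red β') h h'
  obtain ⟨h1, h2⟩ := iter R red τ hτ hr β hβ n
  exact ⟨n, hinj h1 hβ' (by rw [h2, hn])⟩

theorem frobroot (q : (ZMod p)[X]) (x : k) (hx : q.eval₂ e x = 0) :
    q.eval₂ e (x ^ p) = 0 := by
  have : CharP k p := (e.charP_iff e.injective p).1 inferInstance
  have h := congrArg (frobenius k p) hx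
  rw [map_zero, hom_eval₂] at h
  have h2 : (frobenius k p).comp e = e := RingHom.ext_zmod _ _
  rw [h2, frobenius_def] at h
  exact h

end

theorem p_ACT : T_ACT := by
  intro p _ k _ e f R red τ hm hc hfin hinj hτ hboth
  have hroot : ∀ β ∈ R, f.eval₂ e (red β) = 0 := fun β hβ => (hboth β hβ).1
  have hr : ∀ β ∈ R, red (τ β) = red β ^ p := fun β hβ => (hboth β hβ).2
  obtain ⟨hnd, hcard, hsurj⟩ := img e f R red hm hc hfin hinj hroot
  refine ⟨?_, ?_, ?_, ?_⟩
  · rintro ⟨s, rfl⟩ β hβ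
    obtain ⟨a, ha⟩ := prodroot e s _ (hroot β hβ)
    exact fixd e R red τ hinj hτ hr β hβ a ha
  · rintro ⟨q, s, hqm, h2, hq, rfl⟩
    have hM : (q * ∏ a ∈ s, (X - C a)).map e ≠ 0 := (hm.map e).ne_zero
    have hmul := hM
    rw [Polynomial.map_mul] at hmul
    have hro := roots_mul hmul
    rw [← Polynomial.map_mul] at hro
    rw [hro] at hnd hcard
    have hsm : (∏ a ∈ s, (X - C a) : (ZMod p)[X]).Monic := monic_prod_X_sub_C _ _
    have hd : (q * ∏ a ∈ s, (X - C a)).natDegree = 2 + (∏ a ∈ s, (X - C a)).natDegree := by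
      rw [hqm.natDegree_mul hsm, h2]
    have hc1 := card_roots' (q.map e)
    have hc2 := card_roots' ((∏ a ∈ s, (X - C a) : (ZMod p)[X]).map e)
    rw [hqm.natDegree_map] at hc1
    rw [hsm.natDegree_map] at hc2
    rw [Multiset.card_add, hd] at hcard
    have hc3 : Multiset.card (q.map e).roots = 2 := by omega
    obtain ⟨x, y, hxy⟩ := Multiset.card_eq_two.1 hc3
    have hnd1 := (Multiset.nodup_add.1 hnd).1
    rw [hxy] at hnd1
    have hne : x ≠ y := by
      intro h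
      rw [h] at hnd1
      simp at hnd1
    have hq0 : q.map e ≠ 0 := (hqm.map e).ne_zero
    have hmemq : ∀ z : k, q.eval₂ e z = 0 ↔ z = x ∨ z = y := by
      intro z
      have := mem_roots (a := z) hq0
      rw [hxy, IsRoot.def, eval_map] at this
      rw [← this]
      simp
    have hnoim : ∀ z : k, q.eval₂ e z = 0 → z ^ p ≠ z := by
      intro z hz h
      obtain ⟨w, hw⟩ := Pool.Agent.AWP.FROB_.mem_Fl e z h
      rw [hw, eval₂_at_apply] at hz
      exact noroot q hq h2 w ((map_eq_zero_iff e e.injective).1 hz)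
    have hx0 : q.eval₂ e x = 0 := (hmemq x).2 (Or.inl rfl)
    have hy0 : q.eval₂ e y = 0 := (hmemq y).2 (Or.inr rfl)
    have hxp : x ^ p = y := ((hmemq _).1 (frobroot e q x hx0)).resolve_left (hnoim x hx0)
    have hyp : y ^ p = x := ((hmemq _).1 (frobroot e q y hy0)).resolve_right (hnoim y hy0)
    obtain ⟨β₁, hβ₁, hb1⟩ := hsurj x (by rw [eval₂_mul, hx0, zero_mul])
    obtain ⟨β₂, hβ₂, hb2⟩ := hsurj y (by rw [eval₂_mul, hy0, zero_mul])
    refine ⟨β₁, hβ₁, β₂, hβ₂, ?_, ?_, ?_, ?_⟩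
    · intro h
      rw [h, hb2] at hb1
      exact hne hb1.symm
    · refine hinj (hτ _ hβ₁) hβ₂ ?_
      rw [hr _ hβ₁, hb1, hb2, hxp]
    · refine hinj (hτ _ hβ₂) hβ₁ ?_
      rw [hr _ hβ₂, hb1, hb2, hyp]
    · intro β hβ h1 h2'
      have h3 := hroot β hβ
      rw [eval₂_mul, mul_eq_zero] at h3
      rcases h3 with h3 | h3
      · rcases (hmemq _).1 h3 with h4 | h4
        · exact absurd (hinj hβ hβ₁ (by rw [h4, hb1])) h1
        · exact absurd (hinj hβ hβ₂ (by rw [h4, hb2])) h2'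
      · obtain ⟨a, ha⟩ := prodroot e s _ h3
        exact fixd e R red τ hinj hτ hr β hβ a ha
  · rintro ⟨a, q, hqm, hq, ha, rfl⟩
    obtain ⟨β₀, hβ₀, hb0⟩ := hsurj (e a) (by
      rw [eval₂_mul, eval₂_sub, eval₂_X, eval₂_C, sub_self, zero_mul])
    have hq' : ∀ β ∈ R, β ≠ β₀ → q.eval₂ e (red β) = 0 := by
      intro β hβ hne
      have h3 := hroot β hβ
      rw [eval₂_mul, mul_eq_zero] at h3
      refine h3.resolve_left fun h4 => hne (hinj hβ hβ₀ ?_)
      rw [eval₂_sub, eval₂_X, eval₂_C] at h4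
      rw [hb0, sub_eq_zero.1 h4]
    refine ⟨β₀, hβ₀, fixd e R red τ hinj hτ hr β₀ hβ₀ a hb0, ?_⟩
    intro β hβ β' hβ' h1 h2
    exact trans e R red τ hinj hτ hr q hq β β' hβ hβ' (hq' β hβ h1) (hq' β' hβ' h2)
  · intro hf β hβ β' hβ'
    exact trans e R red τ hinj hτ hr f hf β β' hβ hβ' (hroot β hβ) (hroot β' hβ')

end Pool.Agent.MBK.ACT_
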