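import Mathlib
import Pool.Agent.MBK.Targets
import Pool.Agent.CMX.FLD
import Pool.Agent.CMX.COUNT

set_option autoImplicit false
set_option linter.unusedSectionVars false
set_option linter.unusedVariables false

/-!
# Almost all polynomials have all interchanges of two roots
-/

namespace Pool.Agent.MBK

open NumberField Finset Module Polynomial
open Pool.Agent.CMT (QBar IsCMType TateWeight Divisorial TateByDivisors cc)
open Pool.Agent.AWP (poly)
open scoped BigOperators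

namespace ALM_

/-- an embedding of `F` extends to `K` -/
theorem extend {F K : Type} [Field F] [NumberField F] [Field K] [NumberField K] [Algebra F K]
    (σ : F →+* QBar) : ∃ φ : K →+* QBar, φ.comp (algebraMap F K) = σ := by
  letI : Algebra F QBar := σ.toAlgebra
  have : Algebra.IsAlgebraic F K := Algebra.IsAlgebraic.tower_top (K := ℚ) F
  let f : K →ₐ[F] QBar := IsAlgClosed.lift
  exact ⟨f.toRingHom, by
    ext x
    exact f.commutes x⟩

theorem nat_card_emb {F K L : Type} [Field F] [NumberField F] [Field K] [NumberField K]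
    [Algebra F K] [Field L] [NumberField L] (j : L →+* QBar)
    (hj : ∀ (φ : K →+* QBar) (x : K), ∃ y, j y = φ x) {ι : Type} [Fintype ι]
    (b : Basis ι ℤ (𝓞 F)) : Nat.card (F →+* L) = Fintype.card ι := by
  classical
  have h1 : Fintype.card (F →+* QBar) = Fintype.card ι := by
    rw [NumberField.Embeddings.card F QBar, ← RingOfIntegers.rank,
      Module.finrank_eq_card_basis b]
  rw [← h1, ← Nat.card_eq_fintype_card]
  refine Nat.card_eq_of_bijective (fun σ : F →+* L => j.comp σ) ⟨?_, ?_⟩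
  · intro σ τ h
    ext x
    have h2 := congrArg (fun f : F →+* QBar => f x) h
    exact j.injective h2
  · intro σ
    obtain ⟨φ, hφ⟩ := extend (K := K) σ
    obtain ⟨σ', hσ'⟩ := Pool.Agent.CMX.COUNT_.exists_lift j σ (fun x => by
      obtain ⟨y, hy⟩ := hj φ (algebraMap F K x)
      refine ⟨y, hy.trans ?_⟩
      rw [← hφ]
      rfl)
    refine ⟨σ', ?_⟩
    ext x
    exact hσ' x

theorem exists_L (K : Type) [Field K] [NumberField K] : ∃ (L : Type) (_ : Field L)
    (_ : NumberField L) (j : L →+* QBar), ∀ (φ : K →+* QBar) (x : K), ∃ y, j y = φ x := by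
  obtain ⟨L, iL, iNL, j, hj⟩ := Pool.Agent.CMX.p_FLD Unit (fun _ => K)
  refine ⟨L, iL, iNL, j, fun φ x => ?_⟩
  have hx : φ x ∈ Pool.Agent.CMX.conjField (fun _ : Unit => K) := by
    have : φ.fieldRange ≤ Pool.Agent.CMX.conjField (fun _ : Unit => K) := by
      unfold Pool.Agent.CMX.conjField
      exact le_iSup_of_le () (le_iSup_of_le φ le_rfl)
    exact this ⟨x, rfl⟩
  rw [← hj] at hx
  exact hx

end ALM_

open ALM_ in
theorem p_ALM (h1 : T_DENSJ) (h2 : T_RED) (h3 : T_GRP) : T_ALM := by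
  classical
  intro F K ι _ _ _ _ _ _ b N hN ε hε
  obtain ⟨L, iL, iNL, j, hj⟩ := exists_L K
  have hcard := nat_card_emb (F := F) (K := K) j hj b
  have hfinJ : Finite (F →+* L) := by
    have hpos : 0 < Nat.card (F →+* L) := by
      rw [hcard, ← Module.finrank_eq_card_basis b, RingOfIntegers.rank]
      exact Module.finrank_pos
    exact (Nat.card_pos_iff.1 hpos).2
  have : Fintype (F →+* L) := Fintype.ofFinite _
  obtain ⟨p₀, hG⟩ := h3 F K L j hj N hN
  set M : ℕ := Fintype.card (Fin 3 × (F →+* L)) with hM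
  have hMpos : 0 < M := by
    obtain ⟨σ⟩ : Nonempty (F →+* L) := by
      have hpos : 0 < Nat.card (F →+* L) := by
        rw [hcard, ← Module.finrank_eq_card_basis b, RingOfIntegers.rank]
        exact Module.finrank_pos
      exact (Nat.card_pos_iff.1 hpos).1
    exact Fintype.card_pos_iff.2 ⟨(0, σ)⟩
  have hε' : 0 < ε / M := div_pos hε (by exact_mod_cast hMpos)
  have key : ∀ t : Fin 3 × (F →+* L), ∃ H₀ : ℕ, ∀ H : ℕ, H₀ ≤ H →
      (({x : Fin N × ι → ℤ | (∀ i, |x i| ≤ H) ∧ ∀ p : ℕ, p.Prime → p₀ ≤ p →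
        ∀ ρ : 𝓞 L →+* ZMod p, ¬ Pat t.1 t.2 (redc ρ (fun k => ∑ i, x (k, i) • b i))}.ncard : ℕ) :
          ℝ) ≤ ε / M * (2 * H + 1 : ℝ) ^ (N * Fintype.card ι) := by
    intro t
    obtain ⟨δ, hδ, hδ1, p₁, hd⟩ := h1 (F →+* L) t.1 t.2 N hN
    obtain ⟨H₀, h⟩ := h2 F L ι b hcard N δ hδ hδ1 (max p₀ p₁)
      (fun p => {Y | Pat t.1 t.2 Y}) (fun p hp hp1 => by
        have h4 := hd p hp (le_trans (le_max_right _ _) hp1)
        rw [hcard] at h4
        exact h4) (ε / M) hε'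
    refine ⟨H₀, fun H hH => le_trans ?_ (h H hH)⟩
    have hfin : {x : Fin N × ι → ℤ | ∀ i, |x i| ≤ H}.Finite := by
      refine (Set.finite_Icc (fun _ => -(H : ℤ)) (fun _ => (H : ℤ))).subset fun x hx => ?_
      rw [Set.mem_Icc]
      exact ⟨fun i => (abs_le.1 (hx i)).1, fun i => (abs_le.1 (hx i)).2⟩
    refine Nat.cast_le.2 (Set.ncard_le_ncard ?_ (hfin.subset fun x hx => hx.1))
    rintro x ⟨hx1, hx2⟩
    exact ⟨hx1, fun p hp hp1 ρ hmem => hx2 p hp (le_trans (le_max_left _ _) hp1) ρ hmem⟩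
  choose H₀ hH₀ using key
  refine ⟨∑ t, H₀ t, fun H hH => ?_⟩
  set Bd : Fin 3 × (F →+* L) → Set (Fin N × ι → ℤ) := fun t =>
    {x : Fin N × ι → ℤ | (∀ i, |x i| ≤ H) ∧ ∀ p : ℕ, p.Prime → p₀ ≤ p →
        ∀ ρ : 𝓞 L →+* ZMod p, ¬ Pat t.1 t.2 (redc ρ (fun k => ∑ i, x (k, i) • b i))} with hBd
  have hfin : {x : Fin N × ι → ℤ | ∀ i, |x i| ≤ H}.Finite := by
    refine (Set.finite_Icc (fun _ => -(H : ℤ)) (fun _ => (H : ℤ))).subset fun x hx => ?_
    rw [Set.mem_Icc]
    exact ⟨fun i => (abs_le.1 (hx i)).1, fun i => (abs_le.1 (hx i)).2⟩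
  have hsub : {x : Fin N × ι → ℤ | (∀ i, |x i| ≤ H) ∧ ¬ RootSwaps F K N (hpoly b x)} ⊆
      ⋃ t ∈ (Finset.univ : Finset (Fin 3 × (F →+* L))), Bd t := by
    rintro x ⟨hx1, hx2⟩
    rw [Set.mem_iUnion₂]
    by_contra hcon
    apply hx2
    refine hG (fun k => ∑ i, x (k, i) • b i) fun m σ₀ => ?_
    by_contra h5
    apply hcon
    refine ⟨(m, σ₀), Finset.mem_univ _, hx1, fun p hp hp1 ρ h6 => h5 ⟨p, hp, hp1, ρ, h6⟩⟩
  have hfinB : ∀ t, (Bd t).Finite := fun t => hfin.subset fun x hx => hx.1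
  calc _ ≤ (((⋃ t ∈ (Finset.univ : Finset (Fin 3 × (F →+* L))), Bd t).ncard : ℕ) : ℝ) := by
        exact_mod_cast Set.ncard_le_ncard hsub
          (Set.Finite.biUnion (Finset.finite_toSet _) fun t _ => hfinB t)
    _ ≤ ∑ t, (((Bd t).ncard : ℕ) : ℝ) := by
        exact_mod_cast Finset.set_ncard_biUnion_le _ _
    _ ≤ ∑ t : Fin 3 × (F →+* L), ε / M * (2 * H + 1 : ℝ) ^ (N * Fintype.card ι) :=
        Finset.sum_le_sum fun t _ => hH₀ t H
          ((Finset.single_le_sum (fun _ _ => Nat.zero_le _) (Finset.mem_univ t)).trans hH)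
    _ = ε * (2 * H + 1 : ℝ) ^ (N * Fintype.card ι) := by
        rw [Finset.sum_const, Finset.card_univ, ← hM, nsmul_eq_mul]
        have : (M : ℝ) ≠ 0 := by exact_mod_cast hMpos.ne'
        field_simp

end Pool.Agent.MBK
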