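import Mathlib
import Pool.Agent.MBK.Targets

set_option autoImplicit false

/-!
# The field `K(θ)` is a CM field
-/

namespace Pool.Agent.MBK

open NumberField Finset Module Polynomial
open Pool.Agent.CMT (QBar IsCMType TateWeight Divisorial TateByDivisors cc)
open scoped BigOperators ComplexConjugate

namespace CMF_

theorem real_emb {F : Type} [Field F] [NumberField F] [IsTotallyReal F] (σ : F →+* ℂ) (x : F) :
    conj (σ x) = σ x := by
  have h := IsTotallyReal.complexEmbedding_isReal σ
  have h2 := congrArg (fun f : F →+* ℂ => f x) h.star_eq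
  simpa using h2

theorem totallyComplex_ext (K K' : Type) [Field K] [NumberField K] [IsTotallyComplex K]
    [Field K'] [NumberField K'] [Algebra K K'] : IsTotallyComplex K' := by
  refine ⟨fun v => ?_⟩
  rw [← InfinitePlace.not_isReal_iff_isComplex, InfinitePlace.isReal_iff]
  intro h
  refine IsTotallyComplex.complexEmbedding_not_isReal (v.embedding.comp (algebraMap K K')) ?_
  rw [ComplexEmbedding.isReal_iff] at h ⊢
  ext x
  have h2 := congrArg (fun f : K' →+* ℂ => f (algebraMap K K' x)) h
  simpa using h2

end CMF_

theorem p_CMF : T_CMF := by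
  intro F K K' _ _ _ _ _ _ _ _ _ _ h2 h hm hreal θ hθ htop
  let _ : Algebra F K' := ((algebraMap K K').comp (algebraMap F K)).toAlgebra
  have ist : IsScalarTower F K K' := IsScalarTower.of_algebraMap_eq' rfl
  have hTC : IsTotallyComplex K' := CMF_.totallyComplex_ext K K'
  have hfd : FiniteDimensional F K' := Module.Finite.of_restrictScalars_finite ℚ F K'
  have hfdK : FiniteDimensional F K := Module.Finite.of_restrictScalars_finite ℚ F K
  set F' : IntermediateField F K' := IntermediateField.adjoin F {θ} with hF'
  have hNF : NumberField F' := NumberField.of_module_finite F F'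
  have hθF' : θ ∈ F' := IntermediateField.mem_adjoin_simple_self F θ
  -- `θ` is real at every embedding
  have hroot : ∀ φ : K' →+* ℂ, conj (φ θ) = φ θ := by
    intro φ
    rw [Complex.conj_eq_iff_im]
    refine hreal ((φ.comp (algebraMap K K')).comp (algebraMap F K)) _ ?_
    unfold IsRt at hθ ⊢
    have h3 := congrArg φ hθ
    rw [Polynomial.hom_eval₂, map_zero] at h3
    exact h3
  -- `F'` is real at every embedding of `F'`
  have hrealF' : ∀ (φ : F' →+* ℂ) (x : F'), conj (φ x) = φ x := by
    intro φ x
    obtain ⟨x, hx⟩ := x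
    have key : ∀ (y : K') (hy : y ∈ IntermediateField.adjoin F {θ}),
        conj (φ ⟨y, hy⟩) = φ ⟨y, hy⟩ := by
      intro y hy
      induction hy using IntermediateField.adjoin_induction with
      | mem y hy =>
        have hy' : y = θ := hy
        subst hy'
        rw [Complex.conj_eq_iff_im]
        refine hreal (φ.comp (algebraMap F F')) _ ?_
        unfold IsRt at hθ ⊢
        have h4 : h.eval₂ ((algebraMap F F').comp (algebraMap (𝓞 F) F))
            (⟨y, hθF'⟩ : F') = 0 := by
          apply (algebraMap F' K').injective
          rw [Polynomial.hom_eval₂, map_zero]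
          exact hθ
        have h3 := congrArg φ h4
        rw [Polynomial.hom_eval₂, map_zero] at h3
        exact h3
      | algebraMap z => exact CMF_.real_emb (φ.comp (algebraMap F F')) z
      | add y z hy hz h5 h6 =>
        have e : φ ⟨y + z, add_mem hy hz⟩ = φ ⟨y, hy⟩ + φ ⟨z, hz⟩ := by
          rw [← map_add]; rfl
        rw [e, map_add, h5, h6]
      | inv y hy h5 =>
        have e : φ ⟨y⁻¹, inv_mem hy⟩ = (φ ⟨y, hy⟩)⁻¹ := by
          rw [← map_inv₀]; rfl
        rw [e, map_inv₀, h5]
      | mul y z hy hz h5 h6 =>
        have e : φ ⟨y * z, mul_mem hy hz⟩ = φ ⟨y, hy⟩ * φ ⟨z, hz⟩ := by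
          rw [← map_mul]; rfl
        rw [e, map_mul, h5, h6]
    exact key x hx
  have hTR : IsTotallyReal F' := by
    refine ⟨fun v => ?_⟩
    rw [InfinitePlace.isReal_iff, ComplexEmbedding.isReal_iff]
    ext x
    simpa using hrealF' v.embedding x
  -- degree two
  have hdeg : finrank F' K' = 2 := by
    set K₁ : IntermediateField F K' := (IsScalarTower.toAlgHom F K K').fieldRange with hK₁
    have h3 : finrank F K₁ = 2 := by
      rw [← h2]
      exact (LinearEquiv.finrank_eq
        (AlgEquiv.ofInjectiveField (IsScalarTower.toAlgHom F K K')).toLinearEquiv).symm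
    have h4 : K₁ ⊔ F' = ⊤ := by
      rw [eq_top_iff]
      intro x _
      have hx : x ∈ IntermediateField.adjoin K {θ} := by
        rw [htop]; trivial
      induction hx using IntermediateField.adjoin_induction with
      | mem y hy =>
        have hy' : y = θ := hy
        subst hy'
        exact (le_sup_right : F' ≤ K₁ ⊔ F') hθF'
      | algebraMap z => exact (le_sup_left : K₁ ≤ K₁ ⊔ F') ⟨z, rfl⟩
      | add y z _ _ h5 h6 => exact add_mem (h5 trivial) (h6 trivial)
      | inv y _ h5 => exact inv_mem (h5 trivial)
      | mul y z _ _ h5 h6 => exact mul_mem (h5 trivial) (h6 trivial)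
    have h5 := IntermediateField.finrank_sup_le K₁ F'
    rw [h4, h3, IntermediateField.finrank_top', ← finrank_mul_finrank F F' K'] at h5
    have h6 : 0 < finrank F F' := finrank_pos
    have h7 : finrank F' K' ≤ 2 := by
      rw [mul_comm] at h5
      exact Nat.le_of_mul_le_mul_right h5 h6
    have h8 : 0 < finrank F' K' := finrank_pos
    have h9 : finrank F' K' ≠ 1 := by
      intro h9
      rw [IntermediateField.finrank_eq_one_iff_eq_top] at h9
      obtain ⟨φ⟩ : Nonempty (K' →+* ℂ) := inferInstance
      refine IsTotallyComplex.complexEmbedding_not_isReal φ ?_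
      rw [ComplexEmbedding.isReal_iff]
      ext x
      have hx : x ∈ F' := by rw [h9]; trivial
      simpa using hrealF' (φ.comp (algebraMap F' K')) ⟨x, hx⟩
    omega
  have hQ : Algebra.IsQuadraticExtension F' K' := ⟨hdeg⟩
  have hCM : IsCMField K' := IsCMField.ofCMExtension F' K'
  obtain ⟨φ⟩ : Nonempty (K' →+* ℂ) := inferInstance
  refine ⟨hCM, ?_, ?_⟩
  · intro ψ
    unfold cc
    rw [RingHom.comp_apply]
    congr 1
    apply φ.injective
    exact (IsCMField.complexEmbedding_complexConj K' φ θ).trans (hroot φ)
  · intro ψ
    unfold cc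
    ext x
    simp only [RingHom.comp_apply]
    congr 1
    apply φ.injective
    refine (IsCMField.complexEmbedding_complexConj K' φ (algebraMap K K' x)).trans ?_
    exact (IsCMField.complexEmbedding_complexConj K (φ.comp (algebraMap K K')) x).symm

end Pool.Agent.MBK
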