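import Mathlib
import Pool.Agent.MBK.Targets
import Pool.Agent.GWN.SIG
import Pool.Agent.CMV.OrdFinal

set_option autoImplicit false

/-!
# CNT: counting CM types with degenerate signature
-/

namespace Pool.Agent.MBK

open NumberField Finset Module
open Pool.Agent.CMT (QBar IsCMType cc cc_cc)
open Pool.Agent.CMTP (cc_ne HalfX)
open Pool.Agent.GWN (Full)
open scoped BigOperators

namespace CNT_

section
variable (K K' : Type) [Field K] [NumberField K] [Field K'] [NumberField K'] [Algebra K K']

theorem finite_ext : Module.Finite K K' := by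
  have : IsScalarTower ℚ K K' := IsScalarTower.of_algebraMap_eq' (Subsingleton.elim _ _)
  exact Module.Finite.of_restrictScalars_finite ℚ K K'

/-- the number of extensions of an embedding -/
theorem card_ext (φ : K →+* QBar) :
    {ψ : K' →+* QBar | ψ.comp (algebraMap K K') = φ}.ncard = finrank K K' := by
  classical
  have hfin := finite_ext K K'
  let _ : Algebra K QBar := φ.toAlgebra
  have h1 : Fintype.card (K' →ₐ[K] QBar) = finrank K K' := AlgHom.card K K' QBar
  rw [← h1, ← Nat.card_eq_fintype_card, ← Nat.card_coe_set_eq]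
  refine Nat.card_congr
    { toFun := fun ψ => { ψ.1 with commutes' := fun x => RingHom.congr_fun ψ.2 x }
      invFun := fun ψ => ⟨ψ.toRingHom, by
        ext x
        exact ψ.commutes x⟩
      left_inv := fun ψ => rfl
      right_inv := fun ψ => rfl }

end

end CNT_

open CNT_ in
theorem p_CNT : T_CNT := by
  classical
  intro K K' _ _ _ _ _ _ _ N g hcc hK hN
  have hfin := finite_ext K K'
  have : IsScalarTower ℚ K K' := IsScalarTower.of_algebraMap_eq' (Subsingleton.elim _ _)
  have hN1 : 1 ≤ N := by
    rw [← hN]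
    exact Module.finrank_pos
  have hK' : finrank ℚ K' = 2 * (g * N) := by
    rw [← Module.finrank_mul_finrank ℚ K K', hK, hN]
    ring
  have hg1 : 1 ≤ g := by
    have := Module.finrank_pos (R := ℚ) (M := K)
    omega
  have hX : Fintype.card (K →+* QBar) = 2 * g := by
    rw [NumberField.Embeddings.card, hK]
  have hsurj : ∀ φ : K →+* QBar, ∃ ψ : K' →+* QBar, ψ.comp (algebraMap K K') = φ := by
    intro φ
    have h1 := card_ext K K' φ
    rw [hN] at h1
    have h2 : {ψ : K' →+* QBar | ψ.comp (algebraMap K K') = φ}.Nonempty := by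
      rw [← Set.ncard_pos]
      omega
    exact h2
  refine ⟨?_, ?_, ?_⟩
  · rw [CMV.card_types, hK']
    congr 1
    omega
  · obtain ⟨φ₀⟩ : Nonempty (K →+* QBar) := by
      rw [← Fintype.card_pos_iff, hX]
      omega
    let l : (K →+* QBar) → ℤ := fun φ => if φ = φ₀ then 1 else if φ = cc φ₀ then -1 else 0
    have hl : ∀ φ, l (cc φ) = - l φ := by
      intro φ
      simp only [l]
      by_cases h1 : φ = φ₀
      · subst h1
        rw [if_neg (cc_ne φ), if_pos rfl, if_pos rfl]
      · by_cases h2 : φ = cc φ₀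
        · subst h2
          rw [cc_cc, if_pos rfl, if_neg (cc_ne φ₀), if_pos rfl, neg_neg]
        · rw [if_neg (fun h => h2 (by rw [← h, cc_cc])), if_neg (fun h => h1 (by
            rw [← cc_cc φ, h, cc_cc])), if_neg h1, if_neg h2, neg_zero]
    have hfull : Full cc (fun (τ : QBar ≃+* QBar) (φ : K →+* QBar) =>
        (τ : QBar →+* QBar).comp φ) l := by
      intro f hf hrel
      funext φ
      obtain ⟨_, ⟨τ, rfl⟩, hτ⟩ := CMTP.transitive K φ φ₀
      have hτ' : (τ : QBar →+* QBar).comp φ = φ₀ := hτ
      have h1 := hrel τ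
      have h2 : ∀ φ' : K →+* QBar, l ((τ : QBar →+* QBar).comp φ') * f φ' =
          (if φ' = φ then f φ else 0) + (if φ' = cc φ then f φ else 0) := by
        intro φ'
        have e1 : ((τ : QBar →+* QBar).comp φ' = φ₀) ↔ φ' = φ := by
          constructor
          · intro h
            have h3 : CMTP.toPerm K τ φ' = CMTP.toPerm K τ φ := h.trans hτ'.symm
            exact (CMTP.toPerm K τ).injective h3
          · intro h
            rw [h, hτ']
        have e2 : ((τ : QBar →+* QBar).comp φ' = cc φ₀) ↔ φ' = cc φ := by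
          constructor
          · intro h
            have h3 : CMTP.toPerm K τ φ' = CMTP.toPerm K τ (cc φ) := by
              refine h.trans ?_
              rw [← hτ']
              rfl
            exact (CMTP.toPerm K τ).injective h3
          · intro h
            rw [h, ← hτ']
            rfl
        simp only [l, e1, e2]
        by_cases h3 : φ' = φ
        · subst h3
          rw [if_pos rfl, if_pos rfl, if_neg (fun h => cc_ne φ' h.symm)]
          ring
        · by_cases h4 : φ' = cc φ
          · subst h4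
            rw [if_neg (cc_ne φ), if_pos rfl, if_neg (cc_ne φ), if_pos rfl, hf]
            ring
          · rw [if_neg h3, if_neg h4, if_neg h3, if_neg h4]
            ring
      rw [Finset.sum_congr rfl fun φ' _ => h2 φ', Finset.sum_add_distrib,
        Finset.sum_ite_eq' univ φ, Finset.sum_ite_eq' univ (cc φ), if_pos (mem_univ _),
        if_pos (mem_univ _)] at h1
      show f φ = 0
      omega
    have hfib : ∀ φ : K →+* QBar, (univ.filter (fun ψ : K' →+* QBar =>
        ψ.comp (algebraMap K K') = φ)).card = N := by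
      intro φ
      rw [← hN, ← card_ext K K' φ, ← Set.ncard_coe_finset]
      congr 1
      ext ψ
      simp
    have hb := GWN.SIG_.card_bad (X := K →+* QBar) (X' := K' →+* QBar) cc cc
      (fun ψ => ψ.comp (algebraMap K K')) (fun (τ : QBar ≃+* QBar) (φ : K →+* QBar) =>
        (τ : QBar →+* QBar).comp φ) cc_cc cc_ne cc_cc hcc (fun τ φ => rfl) N hfib l hl hfull
    rw [hX, Nat.mul_div_cancel_left g (by norm_num : 0 < 2)] at hb
    have hle : Nat.card {Φ : Finset (K' →+* QBar) // IsCMType K' Φ ∧ ¬ FullSig K Φ} ≤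
        Nat.card {Φ : Finset (K' →+* QBar) // HalfX cc Φ ∧
          ¬ Full cc (fun (τ : QBar ≃+* QBar) (φ : K →+* QBar) => (τ : QBar →+* QBar).comp φ)
            (fun φ => 2 * ((Φ.filter (fun ψ => ψ.comp (algebraMap K K') = φ)).card : ℤ) - N)} := by
      refine Nat.card_le_card_of_injective (fun Φ => ⟨Φ.1, Φ.2.1, fun hF => Φ.2.2 ?_⟩) ?_
      · intro v hv hrel
        apply hF v hv
        intro τ
        have hsum0 : ∑ φ, v φ = 0 := by
          have h1 : ∑ φ, v (cc φ) = ∑ φ, v φ :=
            Fintype.sum_equiv (Function.Involutive.toPerm cc cc_cc) _ _ fun φ => rfl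
          simp only [hv, Finset.sum_neg_distrib] at h1
          omega
        have hsig : ∀ φ : K →+* QBar, (sig Φ.1 φ : ℤ) =
            ((Φ.1.filter (fun ψ => ψ.comp (algebraMap K K') = φ)).card : ℤ) := by
          intro φ
          unfold sig
          rw [← Set.ncard_coe_finset]
          congr 2
          ext ψ
          simp
        have h2 := hrel τ
        have h3 : ∑ φ, (2 * ((Φ.1.filter (fun ψ => ψ.comp (algebraMap K K') =
            (τ : QBar →+* QBar).comp φ)).card : ℤ) - N) * v φ =
            2 * ∑ φ, v φ * (sig Φ.1 ((τ : QBar →+* QBar).comp φ) : ℤ) - N * ∑ φ, v φ := by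
          rw [Finset.mul_sum, Finset.mul_sum, ← Finset.sum_sub_distrib]
          refine Finset.sum_congr rfl fun φ _ => ?_
          rw [hsig]
          ring
        show ∑ φ, (2 * ((Φ.1.filter (fun ψ => ψ.comp (algebraMap K K') =
            (τ : QBar →+* QBar).comp φ)).card : ℤ) - N) * v φ = 0
        rw [h3, h2, hsum0]
        ring
      · intro Φ Φ' h
        exact Subtype.ext (congrArg (fun x : {Φ : Finset (K' →+* QBar) // HalfX cc Φ ∧
          ¬ Full cc (fun (τ : QBar ≃+* QBar) (φ : K →+* QBar) => (τ : QBar →+* QBar).comp φ)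
            (fun φ => 2 * ((Φ.filter (fun ψ => ψ.comp (algebraMap K K') = φ)).card : ℤ) - N)} =>
          x.1) h)
    refine hle.trans ?_
    have h2N : 0 < 2 ^ N := by positivity
    refine Nat.le_of_mul_le_mul_right (hb.trans (le_of_eq ?_)) h2N
    have e1 : N * g = (g - 1) * N + N := by
      obtain ⟨m, rfl⟩ : ∃ m, g = m + 1 := ⟨g - 1, by omega⟩
      rw [Nat.add_sub_cancel]
      ring
    rw [e1, pow_add]
    ring
  · have hg2 : Nat.card {Ψ : Finset (K →+* QBar) // IsCMType K Ψ} = 2 ^ g := by
      rw [CMV.card_types, hK]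
      congr 1
      omega
    rw [← hg2]
    have key : ∀ Φ : Finset (K' →+* QBar), ¬ NotFrom K Φ → ∀ ψ : K' →+* QBar,
        ψ.comp (algebraMap K K') ∈ Φ.image (fun ψ => ψ.comp (algebraMap K K')) ↔ ψ ∈ Φ := by
      intro Φ hΦ ψ
      rw [Finset.mem_image]
      constructor
      · rintro ⟨ψ', h1, h2⟩
        by_contra h3
        exact hΦ ⟨ψ', ψ, h2, h1, h3⟩
      · intro h
        exact ⟨ψ, h, rfl⟩
    refine Nat.card_le_card_of_injective
      (fun Φ => ⟨Φ.1.image (fun ψ => ψ.comp (algebraMap K K')), ?_⟩) ?_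
    · intro φ
      obtain ⟨ψ, rfl⟩ := hsurj φ
      rw [key Φ.1 Φ.2.2]
      have h1 : (ψ.comp (algebraMap K K')).comp (IsCMField.complexConj K : K →+* K) =
          (cc ψ).comp (algebraMap K K') := (hcc ψ).symm
      rw [h1, key Φ.1 Φ.2.2]
      exact Φ.2.1 ψ
    · intro Φ Φ' h
      apply Subtype.ext
      have h1 : Φ.1.image (fun ψ => ψ.comp (algebraMap K K')) =
          Φ'.1.image (fun ψ => ψ.comp (algebraMap K K')) := congrArg Subtype.val h
      ext ψ
      rw [← key Φ.1 Φ.2.2, h1, key Φ'.1 Φ'.2.2]

end Pool.Agent.MBK
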