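import Mathlib
import Pool.Agent.MBK.Targets

set_option autoImplicit false
set_option linter.unusedSectionVars false

/-!
# Multiplication by a CM field: full signatures
-/

namespace Pool.Agent.MBK

open NumberField Finset Module Polynomial
open Pool.Agent.CMT (QBar IsCMType TateWeight Divisorial TateByDivisors cc cc_cc comp_cc idx
  mem_idx divisorial_of_count)
open Pool.Agent.CMTP (NotInduced card_idx cc_ne)
open Pool.Agent.AWP (poly)
open scoped BigOperators

namespace FULL_

variable {K K' : Type} [Field K] [NumberField K] [Field K'] [NumberField K'] [Algebra K K']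

/-- every embedding of `K` extends to `K'` -/
theorem exists_ext (φ : K →+* QBar) : ∃ ψ : K' →+* QBar, ψ.comp (algebraMap K K') = φ := by
  let _ := φ.toAlgebra
  have h0 : IsScalarTower ℚ K K' := IsScalarTower.of_algebraMap_eq' (Subsingleton.elim _ _)
  have h1 : Algebra.IsAlgebraic K K' := Algebra.IsAlgebraic.tower_top (K := ℚ) K
  let f : K' →ₐ[K] QBar := IsAlgClosed.lift
  exact ⟨f.toRingHom, by ext x; exact f.commutes x⟩

theorem ncard_idx [IsCMField K'] {n : ℕ} (Δ : Finset ((K' →+* QBar) × Fin n)) (φ : K' →+* QBar) :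
    {j : Fin n | (φ, j) ∈ Δ}.ncard = (idx Δ φ).card := by
  rw [← Set.ncard_coe_finset]
  congr 1
  ext j
  rw [Set.mem_ofPred_eq, Finset.mem_coe, mem_idx]

/-- the odd relation -/
theorem sum_odd [IsCMField K'] {Φ : Finset (K' →+* QBar)} (hΦ : IsCMType K' Φ) {n i : ℕ}
    {Δ : Finset ((K' →+* QBar) × Fin n)} (hΔ : TateWeight Φ i Δ) (τ : QBar ≃+* QBar)
    (S : Finset (K' →+* QBar)) (hS : ∀ ψ, ψ ∈ S ↔ (τ : QBar →+* QBar).comp ψ ∈ Φ) :
    ∑ ψ ∈ S, (((idx Δ ψ).card : ℤ) - ((idx Δ (cc ψ)).card : ℤ)) = 0 := by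
  classical
  obtain ⟨hΔ1, hΔ2⟩ := hΔ
  have htot : ∑ ψ, (idx Δ ψ).card = 2 * i := by
    have h1 := card_idx Δ Finset.univ
    have h2 : {p : (K' →+* QBar) × Fin n | p ∈ Δ ∧
        p.1 ∈ (Finset.univ : Finset (K' →+* QBar))}.ncard = Δ.card := by
      rw [← Set.ncard_coe_finset]
      congr 1
      ext p
      simp
    rw [h2, hΔ1] at h1
    exact h1.symm
  have h1 : ∑ ψ ∈ S, (idx Δ ψ).card = i := by
    rw [← card_idx Δ S, ← hΔ2 τ]
    congr 1
    ext p
    simp [hS]
  have h2 : ∑ ψ ∈ Sᶜ, (idx Δ ψ).card = i := by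
    have h3 := Finset.sum_add_sum_compl S (fun ψ => (idx Δ ψ).card)
    omega
  have hmem : ∀ ψ : K' →+* QBar, ψ ∈ S ↔ cc ψ ∈ Sᶜ := by
    intro ψ
    rw [Finset.mem_compl, hS, hS, comp_cc]
    exact hΦ _
  have h3 : ∑ ψ ∈ S, (idx Δ (cc ψ)).card = ∑ ψ ∈ Sᶜ, (idx Δ ψ).card := by
    refine Finset.sum_nbij' cc cc (fun ψ hψ => (hmem ψ).1 hψ) (fun ψ hψ => ?_)
      (fun ψ _ => cc_cc ψ) (fun ψ _ => cc_cc ψ) (fun ψ _ => rfl)
    rw [hmem, cc_cc]
    exact hψ
  rw [Finset.sum_sub_distrib, ← Nat.cast_sum, ← Nat.cast_sum, h3, h1, h2, sub_self]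

/-- the signature as a number of embeddings above `φ` -/
theorem sig_comp {Φ : Finset (K' →+* QBar)} (τ : QBar ≃+* QBar) (φ : K →+* QBar)
    (T : Finset (K' →+* QBar))
    (hT : ∀ ψ, ψ ∈ T ↔ ((τ : QBar →+* QBar).comp ψ ∈ Φ ∧ ψ.comp (algebraMap K K') = φ)) :
    sig Φ ((τ : QBar →+* QBar).comp φ) = T.card := by
  unfold sig
  rw [← Set.ncard_coe_finset]
  symm
  refine Set.ncard_congr (fun ψ _ => (τ : QBar →+* QBar).comp ψ) ?_ ?_ ?_
  · intro ψ hψ
    rw [Finset.mem_coe, hT] at hψ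
    refine ⟨hψ.1, ?_⟩
    rw [RingHom.comp_assoc, hψ.2]
  · intro ψ ψ' _ _ h
    ext x
    have h2 := RingHom.congr_fun h x
    exact τ.injective h2
  · intro ψ hψ
    obtain ⟨h1, h2⟩ := hψ
    refine ⟨((τ.symm : QBar ≃+* QBar) : QBar →+* QBar).comp ψ, ?_, ?_⟩
    · rw [Finset.mem_coe, hT]
      refine ⟨?_, ?_⟩
      · have h3 : (τ : QBar →+* QBar).comp
            (((τ.symm : QBar ≃+* QBar) : QBar →+* QBar).comp ψ) = ψ := by
          ext x
          exact τ.apply_symm_apply _
        rw [h3]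
        exact h1
      · rw [RingHom.comp_assoc, h2]
        ext x
        exact τ.symm_apply_apply _
    · ext x
      exact τ.apply_symm_apply _

theorem key (hC : T_CONST) [IsCMField K] [IsCMField K'] (hcc : CCompat K K')
    (hsw : HasSwaps K K') {Φ : Finset (K' →+* QBar)} (hΦ : IsCMType K' Φ) (hnf : NotFrom K Φ)
    (hfull : FullSig K Φ) {n i : ℕ} {Δ : Finset ((K' →+* QBar) × Fin n)}
    (hΔ : TateWeight Φ i Δ) (ψ : K' →+* QBar) : (idx Δ ψ).card = (idx Δ (cc ψ)).card := by
  classical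
  obtain ⟨o, ho⟩ : ∃ o : (K' →+* QBar) → ℤ, ∀ ψ, o ψ =
      ((idx Δ ψ).card : ℤ) - ((idx Δ (cc ψ)).card : ℤ) := ⟨_, fun _ => rfl⟩
  have hconst : ∀ ψ ψ' : K' →+* QBar,
      ψ.comp (algebraMap K K') = ψ'.comp (algebraMap K K') → o ψ = o ψ' := by
    intro ψ ψ' h
    have h1 := hC K K' hcc hsw Φ hΦ hnf n i Δ hΔ ψ ψ' h
    rw [ncard_idx, ncard_idx, ncard_idx, ncard_idx] at h1
    rw [ho, ho]
    exact h1
  choose e he using (fun φ : K →+* QBar => exists_ext (K' := K') φ)
  have hv : (fun φ => o (e φ)) = 0 := by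
    refine hfull _ ?_ ?_
    · intro φ
      have h1 : o (e (cc φ)) = o (cc (e φ)) := by
        apply hconst
        rw [he, hcc, he]
      rw [h1, ho, ho, cc_cc]
      ring
    · intro τ
      have h1 := sum_odd hΦ hΔ τ
        (Finset.univ.filter (fun ψ : K' →+* QBar => (τ : QBar →+* QBar).comp ψ ∈ Φ))
        (fun ψ => by simp)
      rw [← Finset.sum_fiberwise (g := fun ψ : K' →+* QBar => ψ.comp (algebraMap K K'))] at h1
      rw [← h1]
      refine Finset.sum_congr rfl fun φ _ => ?_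
      rw [sig_comp τ φ ((Finset.univ.filter (fun ψ : K' →+* QBar =>
        (τ : QBar →+* QBar).comp ψ ∈ Φ)).filter (fun ψ => ψ.comp (algebraMap K K') = φ))
        (fun ψ => by simp)]
      rw [Finset.sum_congr rfl (fun ψ hψ => ?_), Finset.sum_const, nsmul_eq_mul, mul_comm]
      rw [Finset.mem_filter] at hψ
      rw [← ho]
      apply hconst
      rw [he]
      exact hψ.2
  have h2 : o ψ = 0 := by
    have h3 := congrFun hv (ψ.comp (algebraMap K K'))
    rw [← hconst (e (ψ.comp (algebraMap K K'))) ψ (he _)]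
    exact h3
  rw [ho] at h2
  omega

end FULL_

open FULL_ in
theorem p_FULL (h : T_CONST) : T_FULL := by
  classical
  intro K K' _ _ _ _ _ _ _ hcc hsw Φ hΦ hnf hfull
  refine ⟨?_, ?_⟩
  · intro ψ ψ' hψ
    by_contra hne
    obtain ⟨Δ, hΔ⟩ : ∃ Δ : Finset ((K' →+* QBar) × Fin 2), Δ = {(ψ, 0), (cc ψ', 1)} := ⟨_, rfl⟩
    have hT : TateWeight Φ 1 Δ := by
      refine ⟨?_, fun τ => ?_⟩
      · rw [hΔ, Finset.card_pair]
        intro h1
        have h2 := congrArg Prod.snd h1
        simp at h2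
      · rw [Set.ncard_eq_one]
        by_cases h1 : (τ : QBar →+* QBar).comp ψ ∈ Φ
        · refine ⟨(ψ, 0), ?_⟩
          ext p
          simp only [Set.mem_ofPred_eq, Set.mem_singleton_iff, hΔ, Finset.mem_insert,
            Finset.mem_singleton]
          constructor
          · rintro ⟨h2 | h2, h3⟩
            · exact h2
            · exfalso
              rw [h2] at h3
              have h4 := (hψ τ).1 h1
              exact ((hΦ _).1 h4) h3
          · rintro rfl
            exact ⟨Or.inl rfl, h1⟩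
        · refine ⟨(cc ψ', 1), ?_⟩
          ext p
          simp only [Set.mem_ofPred_eq, Set.mem_singleton_iff, hΔ, Finset.mem_insert,
            Finset.mem_singleton]
          constructor
          · rintro ⟨h2 | h2, h3⟩
            · exfalso
              rw [h2] at h3
              exact h1 h3
            · exact h2
          · rintro rfl
            refine ⟨Or.inr rfl, ?_⟩
            by_contra h3
            exact h1 ((hψ τ).2 ((hΦ _).2 h3))
    have h1 := key h hcc hsw hΦ hnf hfull hT ψ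
    have h2 : (0 : Fin 2) ∈ idx Δ ψ := by
      rw [mem_idx, hΔ]
      simp
    have h3 : idx Δ (cc ψ) = ∅ := by
      rw [Finset.eq_empty_iff_forall_notMem]
      intro j hj
      rw [mem_idx, hΔ, Finset.mem_insert, Finset.mem_singleton, Prod.mk.injEq,
        Prod.mk.injEq] at hj
      rcases hj with hj | hj
      · exact cc_ne ψ hj.1
      · apply hne
        rw [← cc_cc ψ, hj.1, cc_cc]
    rw [h3, Finset.card_empty, Finset.card_eq_zero] at h1
    rw [h1] at h2
    simp at h2
  · intro n i Δ hT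
    exact divisorial_of_count hΦ (key h hcc hsw hΦ hnf hfull hT)

end Pool.Agent.MBK
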