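import Mathlib
import Pool.Agent.MBK.FULL

set_option autoImplicit false
set_option linter.unusedSectionVars false

/-!
# Multiplication by a CM field: the excess is constant on the fibres
-/

namespace Pool.Agent.MBK

open NumberField Finset Module Polynomial
open Pool.Agent.CMT (QBar IsCMType TateWeight Divisorial TateByDivisors cc cc_cc comp_cc idx
  mem_idx divisorial_of_count)
open Pool.Agent.CMTP (NotInduced card_idx cc_ne)
open scoped BigOperators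

namespace CONST_

open FULL_

variable {K K' : Type} [Field K] [NumberField K] [IsCMField K] [Field K'] [NumberField K']
  [IsCMField K'] [Algebra K K']

/-- a pair above the same embedding can be moved to any other such pair -/
theorem move (hcc : CCompat K K') (hsw : HasSwaps K K') (ψ₁ ψ₂ ψ₁' ψ₂' : K' →+* QBar)
    (h12 : ψ₁ ≠ ψ₂) (h12' : ψ₁' ≠ ψ₂')
    (hr : ψ₁.comp (algebraMap K K') = ψ₂.comp (algebraMap K K'))
    (hr' : ψ₁'.comp (algebraMap K K') = ψ₂'.comp (algebraMap K K')) :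
    ∃ g : QBar ≃+* QBar, (g : QBar →+* QBar).comp ψ₁ = ψ₁' ∧
      (g : QBar →+* QBar).comp ψ₂ = ψ₂' := by
  obtain ⟨_, ⟨τ, rfl⟩, hτ⟩ := Pool.Agent.CMTP.transitive K' ψ₁ ψ₁'
  have hτ1 : (τ : QBar →+* QBar).comp ψ₁ = ψ₁' := hτ
  set ψ₃ := (τ : QBar →+* QBar).comp ψ₂ with hψ₃
  have hr3 : ψ₃.comp (algebraMap K K') = ψ₂'.comp (algebraMap K K') := by
    rw [hψ₃, RingHom.comp_assoc, ← hr, ← RingHom.comp_assoc, hτ1, hr']
  have h13 : ψ₁' ≠ ψ₃ := by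
    intro h
    apply h12
    rw [hψ₃, ← hτ1] at h
    ext x
    exact τ.injective (RingHom.congr_fun h x)
  by_cases h3 : ψ₃ = ψ₂'
  · exact ⟨τ, hτ1, h3⟩
  · obtain ⟨s, hs1, hs2, hs3⟩ := hsw ψ₃ ψ₂' h3 hr3
    have hne : ∀ ψ : K' →+* QBar, ψ.comp (algebraMap K K') = ψ₁'.comp (algebraMap K K') →
        ψ₁' ≠ cc ψ := by
      intro ψ h h4
      have h5 := hcc ψ
      rw [← h4, h] at h5
      exact cc_ne _ h5.symm
    have hs4 := hs3 ψ₁' h13 h12' (hne _ (hr3.trans hr'.symm)) (hne _ hr'.symm)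
    refine ⟨τ.trans s, ?_, ?_⟩
    · ext x
      have e1 := RingHom.congr_fun hτ1 x
      have e2 := RingHom.congr_fun hs4 x
      show s (τ (ψ₁ x)) = ψ₁' x
      rw [show τ (ψ₁ x) = ψ₁' x from e1]
      exact e2
    · ext x
      exact RingHom.congr_fun hs1 x

end CONST_

open CONST_ FULL_ in
theorem p_CONST : T_CONST := by
  classical
  intro K K' _ _ _ _ _ _ _ hcc hsw Φ hΦ hNF n i Δ hΔ ψ₁ ψ₂ hr
  rw [ncard_idx, ncard_idx, ncard_idx, ncard_idx]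
  by_cases h12 : ψ₁ = ψ₂
  · rw [h12]
  obtain ⟨ψ₁', ψ₂', hr', hm1, hm2⟩ := hNF
  have h12' : ψ₁' ≠ ψ₂' := by
    rintro rfl
    exact hm2 hm1
  obtain ⟨g, hg1, hg2⟩ := move hcc hsw ψ₁ ψ₂ ψ₁' ψ₂' h12 h12' hr hr'
  obtain ⟨t, ht1, ht2, ht3⟩ := hsw ψ₁ ψ₂ h12 hr
  set o : (K' →+* QBar) → ℤ := fun ψ => ((idx Δ ψ).card : ℤ) - ((idx Δ (cc ψ)).card : ℤ) with ho
  have hodd : ∀ ψ, o (cc ψ) = - o ψ := by
    intro ψ
    rw [ho]
    simp only
    rw [cc_cc]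
    ring
  have hsum : ∀ τ : QBar ≃+* QBar,
      ∑ ψ, o ψ * (if (τ : QBar →+* QBar).comp ψ ∈ Φ then 1 else 0) = 0 := by
    intro τ
    have h1 := sum_odd hΦ hΔ τ (Finset.univ.filter (fun ψ => (τ : QBar →+* QBar).comp ψ ∈ Φ))
      (by simp)
    rw [Finset.sum_filter] at h1
    refine Eq.trans (Finset.sum_congr rfl fun ψ _ => ?_) h1
    split_ifs
    · rw [mul_one]
    · rw [mul_zero]
  set D : (K' →+* QBar) → ℤ := fun ψ => (if (g : QBar →+* QBar).comp ψ ∈ Φ then 1 else 0) -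
    (if ((t.trans g : QBar ≃+* QBar) : QBar →+* QBar).comp ψ ∈ Φ then 1 else 0) with hD
  have hsD : ∑ ψ, o ψ * D ψ = 0 := by
    have h1 := hsum g
    have h2 := hsum (t.trans g)
    have h3 : ∑ ψ, o ψ * D ψ = ∑ ψ, o ψ * (if (g : QBar →+* QBar).comp ψ ∈ Φ then 1 else 0) -
        ∑ ψ, o ψ * (if ((t.trans g : QBar ≃+* QBar) : QBar →+* QBar).comp ψ ∈ Φ then 1 else 0) := by
      rw [← Finset.sum_sub_distrib]
      refine Finset.sum_congr rfl fun ψ _ => ?_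
      rw [hD]
      ring
    rw [h3, h1, h2, sub_zero]
  have htg : ∀ ψ : K' →+* QBar, ((t.trans g : QBar ≃+* QBar) : QBar →+* QBar).comp ψ =
      (g : QBar →+* QBar).comp ((t : QBar →+* QBar).comp ψ) := fun ψ => rfl
  have hccm : ∀ ψ : K' →+* QBar, cc ψ ∈ Φ ↔ ψ ∉ Φ := by
    intro ψ
    have h1 := hΦ ψ
    have h2 : ψ.comp (IsCMField.complexConj K' : K' →+* K') = cc ψ := rfl
    rw [h2] at h1
    tauto
  have hD1 : D ψ₁ = 1 := by
    rw [hD]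
    simp only [htg, ht1, hg1, hg2, if_pos hm1, if_neg hm2, sub_zero]
  have hD2 : D ψ₂ = -1 := by
    rw [hD]
    simp only [htg, ht2, hg1, hg2, if_pos hm1, if_neg hm2, zero_sub]
  have hDc : ∀ ψ, D (cc ψ) = - D ψ := by
    intro ψ
    rw [hD]
    simp only
    rw [comp_cc, comp_cc]
    by_cases h1 : (g : QBar →+* QBar).comp ψ ∈ Φ <;>
      by_cases h2 : ((t.trans g : QBar ≃+* QBar) : QBar →+* QBar).comp ψ ∈ Φ
    · rw [if_neg (fun h => (hccm _).1 h h1), if_neg (fun h => (hccm _).1 h h2), if_pos h1,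
        if_pos h2]
      ring
    · rw [if_neg (fun h => (hccm _).1 h h1), if_pos ((hccm _).2 h2), if_pos h1, if_neg h2]
      ring
    · rw [if_pos ((hccm _).2 h1), if_neg (fun h => (hccm _).1 h h2), if_neg h1, if_pos h2]
      ring
    · rw [if_pos ((hccm _).2 h1), if_pos ((hccm _).2 h2), if_neg h1, if_neg h2]
      ring
  have hD0 : ∀ ψ, ψ ≠ ψ₁ → ψ ≠ ψ₂ → ψ ≠ cc ψ₁ → ψ ≠ cc ψ₂ → D ψ = 0 := by
    intro ψ h1 h2 h3 h4
    have h5 := ht3 ψ h1 h2 h3 h4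
    rw [hD]
    simp only [htg, h5, sub_self]
  -- the four embeddings are different
  have hne : ∀ ψ ψ' : K' →+* QBar, ψ.comp (algebraMap K K') = ψ'.comp (algebraMap K K') →
      ψ' ≠ cc ψ := by
    intro ψ ψ' h h4
    have h5 := hcc ψ
    rw [← h4, h] at h5
    exact cc_ne _ h5.symm
  have e1 : ψ₁ ≠ cc ψ₁ := hne _ _ rfl
  have e2 : ψ₁ ≠ cc ψ₂ := hne _ _ hr.symm
  have e3 : ψ₂ ≠ cc ψ₁ := hne _ _ hr
  have e4 : ψ₂ ≠ cc ψ₂ := hne _ _ rfl
  have e5 : cc ψ₁ ≠ cc ψ₂ := by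
    intro h
    apply h12
    rw [← cc_cc ψ₁, h, cc_cc]
  have hfour : ∑ ψ, o ψ * D ψ = ∑ ψ ∈ ({ψ₁, ψ₂, cc ψ₁, cc ψ₂} : Finset (K' →+* QBar)), o ψ * D ψ := by
    symm
    refine Finset.sum_subset (Finset.subset_univ _) ?_
    intro ψ _ hψ
    simp only [Finset.mem_insert, Finset.mem_singleton, not_or] at hψ
    rw [hD0 ψ hψ.1 hψ.2.1 hψ.2.2.1 hψ.2.2.2, mul_zero]
  rw [hfour, Finset.sum_insert (by simp [h12, e1, e2]), Finset.sum_insert (by simp [e3, e4]),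
    Finset.sum_insert (by simp [e5]), Finset.sum_singleton, hDc, hDc, hodd, hodd, hD1, hD2] at hsD
  show o ψ₁ = o ψ₂
  linarith

end Pool.Agent.MBK
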