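import Mathlib
import Pool.Agent.MBK.Targets
import Pool.Agent.CMTP.Field

set_option autoImplicit false
set_option linter.unusedSectionVars false
set_option linter.unusedVariables false

/-!
# Multiplication by a CM field: the converse
-/

namespace Pool.Agent.MBK

namespace CONV_

open NumberField Finset Module Polynomial
open Pool.Agent.CMT (QBar IsCMType TateWeight Divisorial TateByDivisors cc cc_cc comp_cc idx mem_idx)
open Pool.Agent.CMTP (card_idx cc_ne toPerm toPerm_apply)
open scoped BigOperators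

theorem exists_ext (K K' : Type) [Field K] [NumberField K] [Field K'] [NumberField K']
    [Algebra K K'] (φ : K →+* QBar) : ∃ ψ : K' →+* QBar, ψ.comp (algebraMap K K') = φ := by
  letI : Algebra K QBar := φ.toAlgebra
  have : IsScalarTower ℚ K K' := IsScalarTower.of_algebraMap_eq' (Subsingleton.elim _ _)
  have h : Algebra.IsAlgebraic K K' := Algebra.IsAlgebraic.tower_top (K := ℚ) K
  let f : K' →ₐ[K] QBar := IsAlgClosed.lift
  refine ⟨(f : K' →+* QBar), ?_⟩
  ext x
  exact f.commutes x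

section

variable {K K' : Type} [Field K] [NumberField K] [IsCMField K] [Field K'] [NumberField K']
  [IsCMField K'] [Algebra K K']

/-- composition with an automorphism, as a permutation -/
theorem toPerm_eq (τ : QBar ≃+* QBar) (ψ : K' →+* QBar) :
    toPerm K' τ ψ = (τ : QBar →+* QBar).comp ψ := rfl

open Classical in
theorem sig_eq (Φ : Finset (K' →+* QBar)) (φ : K →+* QBar) :
    sig Φ φ = (Finset.univ.filter (fun ψ : K' →+* QBar =>
      ψ ∈ Φ ∧ ψ.comp (algebraMap K K') = φ)).card := by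
  unfold sig
  rw [← Set.ncard_coe_finset]
  congr 1
  ext ψ
  simp

theorem res_inj (τ : QBar ≃+* QBar) (ψ : K' →+* QBar) (φ : K →+* QBar) :
    ((τ : QBar →+* QBar).comp ψ).comp (algebraMap K K') = (τ : QBar →+* QBar).comp φ ↔
      ψ.comp (algebraMap K K') = φ := by
  constructor
  · intro h
    ext x
    have h1 := RingHom.congr_fun h x
    exact τ.injective h1
  · rintro rfl
    rfl

open Classical in
/-- the sum over the type is the sum weighted by the signature -/
theorem sum_sig (Φ : Finset (K' →+* QBar)) (f : (K →+* QBar) → ℤ) (τ : QBar ≃+* QBar) :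
    ∑ ψ : K' →+* QBar, (if (τ : QBar →+* QBar).comp ψ ∈ Φ then f (ψ.comp (algebraMap K K')) else 0)
      = ∑ φ, f φ * (sig Φ ((τ : QBar →+* QBar).comp φ) : ℤ) := by
  have h1 : ∀ φ : K →+* QBar, (sig Φ ((τ : QBar →+* QBar).comp φ) : ℤ) =
      ∑ ψ : K' →+* QBar, if (τ : QBar →+* QBar).comp ψ ∈ Φ ∧ ψ.comp (algebraMap K K') = φ
        then 1 else 0 := by
    intro φ
    rw [sig_eq, Finset.card_filter]
    push_cast
    symm
    refine Fintype.sum_equiv (toPerm K' τ) _ _ (fun ψ => ?_)
    rw [toPerm_eq]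
    simp only [res_inj]
  simp only [h1, Finset.mul_sum]
  rw [Finset.sum_comm]
  refine Finset.sum_congr rfl fun ψ _ => ?_
  rw [Finset.sum_eq_single (ψ.comp (algebraMap K K'))]
  · by_cases h : (τ : QBar →+* QBar).comp ψ ∈ Φ
    · simp [h]
    · simp [h]
  · intro φ _ hne
    rw [if_neg, mul_zero]
    rintro ⟨_, h⟩
    exact hne h.symm
  · intro h
    exact absurd (Finset.mem_univ _) h

/-- in a divisorial weight for a separating type complex conjugate embeddings occur equally
often -/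
theorem card_le_of_div {Φ : Finset (K' →+* QBar)} (hΦ : IsCMType K' Φ) (hs : Separating Φ) {n : ℕ}
    {Δ : Finset ((K' →+* QBar) × Fin n)} (hD : Divisorial Φ Δ) (ψ : K' →+* QBar) :
    (idx Δ ψ).card ≤ (idx Δ (cc ψ)).card := by
  classical
  obtain ⟨D, hdisj, hun, hw⟩ := hD
  -- the partner
  have hpart : ∀ B ∈ D, ∀ p ∈ B, ∃ l : Fin n, B = {p, (cc p.1, l)} := by
    intro B hB p hp
    obtain ⟨hcard, hτ⟩ := hw B hB
    rw [mul_one] at hcard
    obtain ⟨q, hq⟩ : ∃ q, B = {p, q} ∧ p ≠ q := by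
      obtain ⟨a, b, hab, rfl⟩ := Finset.card_eq_two.1 hcard
      rw [Finset.mem_insert, Finset.mem_singleton] at hp
      rcases hp with rfl | rfl
      · exact ⟨b, rfl, hab⟩
      · exact ⟨a, Finset.pair_comm _ _, hab.symm⟩
    obtain ⟨rfl, hpq⟩ := hq
    have h1 : q.1 = cc p.1 := by
      apply hs
      intro τ
      rw [comp_cc]
      have h2 := hτ τ
      have h3 : {r : (K' →+* QBar) × Fin n | r ∈ ({p, q} : Finset ((K' →+* QBar) × Fin n)) ∧
          (τ : QBar →+* QBar).comp r.1 ∈ Φ}.ncard =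
          (({p, q} : Finset ((K' →+* QBar) × Fin n)).filter
            (fun r => (τ : QBar →+* QBar).comp r.1 ∈ Φ)).card := by
        rw [← Set.ncard_coe_finset]
        congr 1
        ext r
        simp
      rw [h3] at h2
      have h4 := hΦ ((τ : QBar →+* QBar).comp p.1)
      change _ ↔ cc ((τ : QBar →+* QBar).comp p.1) ∉ Φ at h4
      by_cases hp1 : (τ : QBar →+* QBar).comp p.1 ∈ Φ
      · by_cases hq1 : (τ : QBar →+* QBar).comp q.1 ∈ Φ
        · exfalso
          rw [Finset.filter_true_of_mem, Finset.card_pair hpq] at h2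
          · omega
          · intro r hr
            rw [Finset.mem_insert, Finset.mem_singleton] at hr
            rcases hr with rfl | rfl
            · exact hp1
            · exact hq1
        · tauto
      · by_cases hq1 : (τ : QBar →+* QBar).comp q.1 ∈ Φ
        · tauto
        · exfalso
          rw [Finset.filter_false_of_mem, Finset.card_empty] at h2
          · omega
          · intro r hr
            rw [Finset.mem_insert, Finset.mem_singleton] at hr
            rcases hr with rfl | rfl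
            · exact hp1
            · exact hq1
    refine ⟨q.2, ?_⟩
    rw [← h1]
  -- the map
  have hex : ∀ j : Fin n, j ∈ idx Δ ψ → ∃ l : Fin n,
      ({((ψ, j) : (K' →+* QBar) × Fin n), (cc ψ, l)} : Finset _) ∈ D := by
    intro j hj
    rw [mem_idx, hun] at hj
    obtain ⟨B, hB, hjB⟩ := hj
    obtain ⟨l, hl⟩ := hpart B hB _ hjB
    refine ⟨l, ?_⟩
    rw [← hl]
    exact hB
  choose! e he using hex
  refine Finset.card_le_card_of_injOn e ?_ ?_
  · intro j hj
    rw [Finset.mem_coe] at hj ⊢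
    rw [mem_idx, hun]
    exact ⟨_, he j hj, by simp⟩
  · intro j hj l hl hjl
    rw [Finset.mem_coe] at hj hl
    have h1 := he j hj
    have h2 := he l hl
    rw [← hjl] at h2
    by_contra hne
    have h3 : ({((ψ, j) : (K' →+* QBar) × Fin n), (cc ψ, e j)} : Finset _) ≠
        {((ψ, l) : (K' →+* QBar) × Fin n), (cc ψ, e j)} := by
      intro h
      have h4 : ((ψ, j) : (K' →+* QBar) × Fin n) ∈
          ({((ψ, l) : (K' →+* QBar) × Fin n), (cc ψ, e j)} : Finset _) := by
        rw [← h]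
        simp
      rw [Finset.mem_insert, Finset.mem_singleton] at h4
      rcases h4 with h5 | h5
      · exact hne (congrArg Prod.snd h5)
      · exact cc_ne ψ (congrArg Prod.fst h5).symm
    have h6 := hdisj h1 h2 h3
    rw [Function.onFun, id, id, Finset.disjoint_left] at h6
    exact h6 (show ((cc ψ, e j) : (K' →+* QBar) × Fin n) ∈ _ by simp) (by simp)

theorem card_eq_of_div {Φ : Finset (K' →+* QBar)} (hΦ : IsCMType K' Φ) (hs : Separating Φ) {n : ℕ}
    {Δ : Finset ((K' →+* QBar) × Fin n)} (hD : Divisorial Φ Δ) (ψ : K' →+* QBar) :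
    (idx Δ ψ).card = (idx Δ (cc ψ)).card := by
  apply le_antisymm (card_le_of_div hΦ hs hD ψ)
  have h := card_le_of_div hΦ hs hD (cc ψ)
  rw [cc_cc] at h
  exact h

/-- complex conjugation as a permutation -/
noncomputable def ccEquiv : (K' →+* QBar) ≃ (K' →+* QBar) where
  toFun := cc
  invFun := cc
  left_inv := cc_cc
  right_inv := cc_cc

theorem main (hcc : CCompat K K') (Φ : Finset (K' →+* QBar)) (hΦ : IsCMType K' Φ)
    (hs : Separating Φ) (hT : TateByDivisors Φ) : FullSig K Φ := by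
  classical
  intro v hodd hrel
  -- a bound
  obtain ⟨n, hn⟩ : ∃ n : ℕ, ∀ φ, (v φ).toNat ≤ n :=
    ⟨Finset.univ.sup (fun φ => (v φ).toNat), fun φ =>
      Finset.le_sup (f := fun φ => (v φ).toNat) (Finset.mem_univ φ)⟩
  let m : (K' →+* QBar) → ℕ := fun ψ => (v (ψ.comp (algebraMap K K'))).toNat
  let Δ : Finset ((K' →+* QBar) × Fin n) := Finset.univ.filter (fun p => (p.2 : ℕ) < m p.1)
  have hidx : ∀ ψ, (idx Δ ψ).card = m ψ := by
    intro ψ
    have h1 : idx Δ ψ = Finset.univ.filter (fun j : Fin n => (j : ℕ) < m ψ) := by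
      ext j
      rw [mem_idx]
      simp [Δ]
    rw [h1, Fin.card_filter_val_lt]
    exact min_eq_right (hn _)
  have hmm : ∀ ψ : K' →+* QBar, (m ψ : ℤ) - m (cc ψ) = v (ψ.comp (algebraMap K K')) := by
    intro ψ
    show ((v (ψ.comp (algebraMap K K'))).toNat : ℤ) -
      ((v ((cc ψ).comp (algebraMap K K'))).toNat : ℤ) = _
    rw [hcc ψ, hodd]
    omega
  have htot : (Δ.card : ℤ) = ∑ ψ, (m ψ : ℤ) := by
    have h1 := card_idx Δ Finset.univ
    have h2 : {p : (K' →+* QBar) × Fin n | p ∈ Δ ∧ p.1 ∈ (Finset.univ : Finset (K' →+* QBar))}.ncard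
        = Δ.card := by
      rw [← Set.ncard_coe_finset]
      congr 1
      ext p
      simp
    rw [h2] at h1
    rw [h1]
    push_cast
    exact Finset.sum_congr rfl fun ψ _ => by rw [hidx]
  have hhalf : ∀ τ : QBar ≃+* QBar, 2 * ∑ ψ : K' →+* QBar,
      (if (τ : QBar →+* QBar).comp ψ ∈ Φ then (m ψ : ℤ) else 0) = ∑ ψ, (m ψ : ℤ) := by
    intro τ
    have h1 := sum_sig Φ v τ
    rw [hrel τ] at h1
    have h2 : ∑ ψ : K' →+* QBar, (if (τ : QBar →+* QBar).comp ψ ∈ Φ then (m (cc ψ) : ℤ) else 0) =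
        ∑ ψ : K' →+* QBar, (if (τ : QBar →+* QBar).comp ψ ∈ Φ then 0 else (m ψ : ℤ)) := by
      refine Fintype.sum_equiv ccEquiv _ _ (fun ψ => ?_)
      show _ = if (τ : QBar →+* QBar).comp (cc ψ) ∈ Φ then (0 : ℤ) else (m (cc ψ) : ℤ)
      rw [comp_cc]
      have h3 := hΦ ((τ : QBar →+* QBar).comp ψ)
      change _ ↔ cc ((τ : QBar →+* QBar).comp ψ) ∉ Φ at h3
      by_cases h : (τ : QBar →+* QBar).comp ψ ∈ Φ
      · rw [if_pos h, if_neg (h3.1 h)]
      · rw [if_neg h, if_pos]
        by_contra h4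
        exact h (h3.2 h4)
    have h3 : ∑ ψ : K' →+* QBar, (if (τ : QBar →+* QBar).comp ψ ∈ Φ then (m ψ : ℤ) else 0) -
        ∑ ψ : K' →+* QBar, (if (τ : QBar →+* QBar).comp ψ ∈ Φ then (m (cc ψ) : ℤ) else 0) = 0 := by
      rw [← Finset.sum_sub_distrib, ← h1]
      refine Finset.sum_congr rfl fun ψ _ => ?_
      rw [← hmm]
      split_ifs <;> ring
    have h4 : ∑ ψ : K' →+* QBar, (if (τ : QBar →+* QBar).comp ψ ∈ Φ then (m ψ : ℤ) else 0) +
        ∑ ψ : K' →+* QBar, (if (τ : QBar →+* QBar).comp ψ ∈ Φ then 0 else (m ψ : ℤ)) =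
        ∑ ψ, (m ψ : ℤ) := by
      rw [← Finset.sum_add_distrib]
      refine Finset.sum_congr rfl fun ψ _ => ?_
      split_ifs <;> ring
    rw [h2] at h3
    linarith
  have hcount : ∀ τ : QBar ≃+* QBar, (({p : (K' →+* QBar) × Fin n | p ∈ Δ ∧
      (τ : QBar →+* QBar).comp p.1 ∈ Φ}.ncard : ℕ) : ℤ) = ∑ ψ : K' →+* QBar,
      (if (τ : QBar →+* QBar).comp ψ ∈ Φ then (m ψ : ℤ) else 0) := by
    intro τ
    have h1 := card_idx Δ (Finset.univ.filter
      (fun ψ : K' →+* QBar => (τ : QBar →+* QBar).comp ψ ∈ Φ))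
    simp only [Finset.mem_filter, Finset.mem_univ, true_and] at h1
    rw [h1]
    push_cast
    rw [Finset.sum_filter]
    refine Finset.sum_congr rfl fun ψ _ => ?_
    rw [hidx]
  let i : ℕ := {p : (K' →+* QBar) × Fin n | p ∈ Δ ∧
      ((1 : QBar ≃+* QBar) : QBar →+* QBar).comp p.1 ∈ Φ}.ncard
  have hW : TateWeight Φ i Δ := by
    refine ⟨?_, fun τ => ?_⟩
    · have h1 := hcount 1
      have h2 := hhalf 1
      rw [← h1, ← htot] at h2
      have h3 : (2 * i : ℤ) = Δ.card := h2
      omega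
    · have h1 := hcount 1
      have h2 := hhalf 1
      have h3 := hcount τ
      have h4 := hhalf τ
      rw [← h1] at h2
      rw [← h3] at h4
      have h5 : (2 * i : ℤ) = ∑ ψ, (m ψ : ℤ) := h2
      omega
  have hD := hT n i Δ hW
  funext φ
  obtain ⟨ψ, hψ⟩ := exists_ext K K' φ
  have h1 := card_eq_of_div hΦ hs hD ψ
  rw [hidx, hidx] at h1
  have h2 := hmm ψ
  rw [h1, sub_self, hψ] at h2
  exact h2.symm

end

end CONV_

/-- CONV: the converse. -/
theorem p_CONV : T_CONV := by
  intro K K' _ _ _ _ _ _ _ hcc Φ hΦ hs hT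
  exact CONV_.main hcc Φ hΦ hs hT

end Pool.Agent.MBK
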