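import Pool.Agent.MBK.Targets
import Pool.Agent.CMTP.Field

set_option autoImplicit false

/-!
# The degree of `K(θ)` and interchanges of embeddings
-/

namespace Pool.Agent.MBK

open NumberField Finset Module Polynomial
open Pool.Agent.CMT (QBar cc cc_cc)
open Pool.Agent.CMTP (cc_ne)

/-- an embedding of `K(θ)` is determined by its restriction to `K` and the image of `θ` -/
theorem DEG_det {K K' A : Type} [Field K] [Field K'] [Field A] [Algebra K K'] {θ : K'}
    (hθ : IntermediateField.adjoin K {θ} = ⊤) {ψ ψ' : K' →+* A}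
    (h1 : ψ.comp (algebraMap K K') = ψ'.comp (algebraMap K K')) (h2 : ψ θ = ψ' θ) : ψ = ψ' := by
  ext x
  have hx : x ∈ IntermediateField.adjoin K {θ} := by rw [hθ]; trivial
  induction hx using IntermediateField.adjoin_induction with
  | mem x hx =>
    rw [Set.mem_singleton_iff] at hx
    rw [hx, h2]
  | algebraMap x => exact RingHom.congr_fun h1 x
  | add x y _ _ hx hy => rw [map_add, map_add, hx, hy]
  | inv x _ hx => rw [map_inv₀, map_inv₀, hx]
  | mul x y _ _ hx hy => rw [map_mul, map_mul, hx, hy]

/-- the image of `θ` is a root of the conjugate -/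
theorem DEG_rt {F K K' A : Type} [Field F] [Field K] [Field K'] [Field A] [Algebra F K]
    [Algebra K K'] {h : (𝓞 F)[X]} {θ : K'}
    (hθ : IsRt h ((algebraMap K K').comp (algebraMap F K)) θ) (ψ : K' →+* A) :
    IsRt h ((ψ.comp (algebraMap K K')).comp (algebraMap F K)) (ψ θ) := by
  have h1 := congrArg ψ hθ
  rw [map_zero, Polynomial.hom_eval₂] at h1
  exact h1

theorem p_DEG : T_DEG := by
  intro F K K' _ _ _ _ _ _ _ _ N h _ _ hsw θ hθ htop
  haveI : Module.Finite K K' := Module.Finite.of_restrictScalars_finite ℚ K K'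
  obtain ⟨ψ₀⟩ : Nonempty (K' →+* QBar) := inferInstance
  set φ : K →+* QBar := ψ₀.comp (algebraMap K K') with hφ
  set σ : F →+* QBar := φ.comp (algebraMap F K) with hσ
  letI : Algebra K QBar := φ.toAlgebra
  have hr : ∀ ψ : K' →ₐ[K] QBar, (ψ : K' →+* QBar).comp (algebraMap K K') = φ := by
    intro ψ
    ext x
    exact ψ.commutes x
  have hcard : Nat.card (K' →ₐ[K] QBar) = finrank K K' := by
    rw [Nat.card_eq_fintype_card]
    exact AlgHom.card K K' QBar
  rw [← hcard, ← hsw.1 σ, ← Nat.card_coe_set_eq]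
  refine Nat.card_congr (Equiv.ofBijective (fun ψ => ⟨ψ θ, ?_⟩) ⟨?_, ?_⟩)
  · have := DEG_rt hθ (ψ : K' →+* QBar)
    rw [hr] at this
    exact this
  · intro ψ ψ' he
    have he' : ψ θ = ψ' θ := congrArg Subtype.val he
    have h1 : (ψ : K' →+* QBar) = (ψ' : K' →+* QBar) :=
      DEG_det htop (by rw [hr, hr]) he'
    ext x
    exact RingHom.congr_fun h1 x
  · rintro ⟨β, hβ⟩
    let ψ₁ : K' →ₐ[K] QBar := { ψ₀ with commutes' := fun x => rfl }
    have hβ' : IsRt h σ β := hβ
    have h0 : IsRt h σ (ψ₀ θ) := DEG_rt hθ ψ₀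
    by_cases hne : ψ₀ θ = β
    · exact ⟨ψ₁, Subtype.ext hne⟩
    · obtain ⟨τ, ht1, ht2, -, -⟩ := hsw.2 σ (ψ₀ θ) β h0 hβ' hne
      let ψ₂ : K' →ₐ[K] QBar :=
        { (τ : QBar →+* QBar).comp ψ₀ with commutes' := fun x => ht1 φ x }
      exact ⟨ψ₂, Subtype.ext ht2⟩

theorem p_HSW : T_HSW := by
  intro F K K' _ _ _ _ _ _ _ _ _ _ hFK hcc N h hsw θ hθ htop hreal ψ₁ ψ₂ hne hres
  set φ : K →+* QBar := ψ₁.comp (algebraMap K K') with hφ
  set σ₀ : F →+* QBar := φ.comp (algebraMap F K) with hσ₀
  have hβ : ψ₁ θ ≠ ψ₂ θ := fun he => hne (DEG_det htop hres he)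
  have r1 : IsRt h σ₀ (ψ₁ θ) := DEG_rt hθ ψ₁
  have r2 : IsRt h σ₀ (ψ₂ θ) := by
    have := DEG_rt hθ ψ₂
    rw [← hres] at this
    exact this
  obtain ⟨τ, ht, h12, h21, hfix⟩ := hsw.2 σ₀ _ _ r1 r2 hβ
  refine ⟨τ, ?_, ?_, ?_⟩
  · refine DEG_det htop ?_ h12
    rw [← hres]
    ext x
    exact ht φ x
  · refine DEG_det htop ?_ h21
    rw [← hφ]
    ext x
    show τ (ψ₂ (algebraMap K K' x)) = φ x
    have : ψ₂ (algebraMap K K' x) = φ x := (RingHom.congr_fun hres x).symm
    rw [this]
    exact ht φ x
  · intro ψ hn1 hn2 hn3 hn4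
    -- complex conjugation does not change the embedding of `F`
    have hc1 : (cc ψ₁).comp (algebraMap K K') = cc φ := hcc ψ₁
    have hc2 : (cc ψ₂).comp (algebraMap K K') = cc φ := by rw [hcc ψ₂, ← hres]
    have hF : (cc φ).comp (algebraMap F K) = σ₀ := by
      by_contra hF
      have r3 : IsRt h ((cc φ).comp (algebraMap F K)) (ψ₁ θ) := by
        have := DEG_rt hθ (cc ψ₁)
        rw [hc1, hreal] at this
        exact this
      have h3 := hfix _ _ r3 (fun h => absurd h hF)
      rw [h12] at h3
      exact hβ h3.symm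
    refine DEG_det htop ?_ ?_
    · ext x
      exact ht (ψ.comp (algebraMap K K')) x
    · refine hfix _ _ (DEG_rt hθ ψ) ?_
      intro hs
      -- the restriction of `ψ` to `K` is `φ` or `cc φ`
      have key : ψ.comp (algebraMap K K') = φ ∨ ψ.comp (algebraMap K K') = cc φ := by
        by_contra hk
        push Not at hk
        obtain ⟨k1, k2⟩ := hk
        haveI : Module.Finite F K := Module.Finite.of_restrictScalars_finite ℚ F K
        letI : Algebra F QBar := σ₀.toAlgebra
        let f : Fin 3 → (K →ₐ[F] QBar) := ![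
          { φ with commutes' := fun x => rfl },
          { cc φ with commutes' := fun x => RingHom.congr_fun hF x },
          { ψ.comp (algebraMap K K') with commutes' := fun x => RingHom.congr_fun hs x }]
        have hcardF : Fintype.card (K →ₐ[F] QBar) = 2 := by
          rw [← hFK]
          exact AlgHom.card F K QBar
        have hinj : Function.Injective f := by
          intro a b hab
          have hh : ((f a : K →ₐ[F] QBar) : K →+* QBar) = ((f b : K →ₐ[F] QBar) : K →+* QBar) := by
            rw [hab]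
          have e0 : ((f 0 : K →ₐ[F] QBar) : K →+* QBar) = φ := rfl
          have e1 : ((f 1 : K →ₐ[F] QBar) : K →+* QBar) = cc φ := rfl
          have e2 : ((f 2 : K →ₐ[F] QBar) : K →+* QBar) = ψ.comp (algebraMap K K') := rfl
          fin_cases a <;> fin_cases b
          · rfl
          · exact absurd (e1.symm.trans (hh.symm.trans e0)) (cc_ne φ)
          · exact absurd (e2.symm.trans (hh.symm.trans e0)) k1
          · exact absurd (e1.symm.trans (hh.trans e0)) (cc_ne φ)
          · rfl
          · exact absurd (e2.symm.trans (hh.symm.trans e1)) k2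
          · exact absurd (e2.symm.trans (hh.trans e0)) k1
          · exact absurd (e2.symm.trans (hh.trans e1)) k2
          · rfl
        have := Fintype.card_le_of_injective f hinj
        rw [hcardF, Fintype.card_fin] at this
        omega
      constructor
      · intro he
        rcases key with k | k
        · exact hn1 (DEG_det htop k he)
        · refine hn3 (DEG_det htop (by rw [k, hc1]) ?_)
          rw [hreal, he]
      · intro he
        rcases key with k | k
        · exact hn2 (DEG_det htop (by rw [k, ← hres]) he)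
        · refine hn4 (DEG_det htop (by rw [k, hc2]) ?_)
          rw [hreal, he]

end Pool.Agent.MBK
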