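import Pool.Agent.MBK.Targets
import Pool.Agent.AWP.IRRD
import Pool.Agent.AWP.PAT

set_option autoImplicit false

/-!
# DENS: the factorisation patterns have positive density
-/

namespace Pool.Agent.MBK.DENS_

open Polynomial Finset
open Pool.Agent.AWP (poly)
open Pool.Agent.AWP.PAT_ (coeffs poly_coeffs poly_monic poly_natDegree)
open scoped BigOperators

variable {p : ℕ} [Fact p.Prime]

lemma card_le_ncard {N : ℕ} {A : Type} (S : Finset A) (P : (ZMod p)[X] → Prop)
    (F : A → (ZMod p)[X]) (hm : ∀ a ∈ S, (F a).Monic) (hd : ∀ a ∈ S, (F a).natDegree = N)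
    (hP : ∀ a ∈ S, P (F a)) (hinj : Set.InjOn F S) :
    S.card ≤ {y : Fin N → ZMod p | P (poly y)}.ncard := by
  classical
  have hfin : Set.Finite {y : Fin N → ZMod p | P (poly y)} := Set.toFinite _
  rw [Set.ncard_eq_toFinset_card _ hfin]
  apply Finset.card_le_card_of_injOn (fun a => coeffs N (F a))
  · intro a ha
    rw [Finset.mem_coe] at ha
    rw [Finset.mem_coe, Set.Finite.mem_toFinset, Set.mem_ofPred_eq,
      poly_coeffs _ (hm a ha) (hd a ha)]
    exact hP a ha
  · intro a ha b hb h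
    apply hinj ha hb
    have h1 := congrArg poly h
    simp only at h1
    rwa [poly_coeffs _ (hm a ha) (hd a ha), poly_coeffs _ (hm b hb) (hd b hb)] at h1

lemma poly_inj {R : Type} [CommRing R] {g : ℕ} : Function.Injective (poly : (Fin g → R) → R[X]) := by
  classical
  have key : ∀ (b : Fin g → R) (i : Fin g), (poly b).coeff (g - 1 - i.val) = b i := by
    intro b i
    have hi := i.2
    unfold poly
    rw [coeff_add, coeff_X_pow, if_neg (by omega), zero_add, finsetSum_coeff]
    rw [Finset.sum_eq_single i]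
    · rw [coeff_C_mul, coeff_X_pow, if_pos rfl, mul_one]
    · intro j _ hj
      rw [coeff_C_mul, coeff_X_pow, if_neg, mul_zero]
      intro h
      apply hj
      apply Fin.ext
      have hj2 := j.2
      omega
    · intro h
      exact absurd (Finset.mem_univ _) h
  intro b b' h
  funext i
  rw [← key b i, h, key b' i]

/-- the product of the linear factors -/
noncomputable def px (s : Finset (ZMod p)) : (ZMod p)[X] := ∏ a ∈ s, (X - C a)

lemma px_monic (s : Finset (ZMod p)) : (px s).Monic :=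
  monic_prod_of_monic _ _ fun a _ => monic_X_sub_C a

lemma px_natDegree (s : Finset (ZMod p)) : (px s).natDegree = s.card := by
  unfold px
  exact natDegree_finsetProd_X_sub_C_eq_card s (fun a => a)

lemma px_roots (s : Finset (ZMod p)) : (px s).roots = s.val := roots_prod_X_sub_C s

lemma roots_zero {q : (ZMod p)[X]} (hq : Irreducible q) (hd : 2 ≤ q.natDegree) :
    q.roots = 0 := by
  rw [Multiset.eq_zero_iff_forall_notMem]
  intro a ha
  rw [mem_roots hq.ne_zero] at ha
  have h1 := degree_eq_one_of_irreducible_of_root hq ha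
  have h2 : q.natDegree = 1 := natDegree_eq_of_degree_eq_some h1
  omega

lemma choose_lower {N r p : ℕ} (hr : r ≤ N) (hp : 2 * N ≤ p) :
    (p : ℝ) ^ r / (2 ^ r * (r.factorial : ℝ)) ≤ (p.choose r : ℝ) := by
  refine le_trans ?_ (Nat.pow_le_choose (α := ℝ) r p)
  have h1 : (p : ℝ) / 2 ≤ ((p + 1 - r : ℕ) : ℝ) := by
    have h2 : p ≤ 2 * (p + 1 - r) := by omega
    have h3 : (p : ℝ) ≤ 2 * ((p + 1 - r : ℕ) : ℝ) := by exact_mod_cast h2
    linarith
  have h4 : ((p : ℝ) / 2) ^ r ≤ ((p + 1 - r : ℕ) : ℝ) ^ r :=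
    pow_le_pow_left₀ (by positivity) h1 r
  have h5 : (p : ℝ) ^ r / (2 ^ r * (r.factorial : ℝ)) = ((p : ℝ) / 2) ^ r / (r.factorial : ℝ) := by
    rw [div_pow, div_div]
  rw [h5]
  exact div_le_div_of_nonneg_right h4 (by positivity)

/-- a positive lower density -/
def Dens (N : ℕ) (P : ∀ p : ℕ, (ZMod p)[X] → Prop) : Prop :=
  ∃ δ : ℝ, 0 < δ ∧ ∃ p₀ : ℕ, ∀ p : ℕ, p.Prime → p₀ ≤ p →
    δ * (p : ℝ) ^ N ≤ (({y : Fin N → ZMod p | P p (poly y)}.ncard : ℕ) : ℝ)

lemma dens_irr {N : ℕ} (hN : 1 ≤ N) : Dens N (fun _ f => Irreducible f) := by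
  classical
  obtain ⟨δ, hδ, _, l₀, h⟩ := Pool.Agent.AWP.p_IRRD N hN
  refine ⟨δ, hδ, l₀, fun p hp hl => ?_⟩
  have := Fact.mk hp
  have h1 := h p hp hl
  have h2 : {y : Fin N → ZMod p | ¬ Irreducible (poly y)}.ncard +
      {y : Fin N → ZMod p | Irreducible (poly y)}.ncard = p ^ N := by
    have e := Set.ncard_add_ncard_compl {y : Fin N → ZMod p | Irreducible (poly y)}
    have e2 : {y : Fin N → ZMod p | Irreducible (poly y)}ᶜ =
        {y : Fin N → ZMod p | ¬ Irreducible (poly y)} := rfl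
    rw [e2, Nat.card_eq_fintype_card, Fintype.card_fun, ZMod.card, Fintype.card_fin] at e
    omega
  have h3 : (({y : Fin N → ZMod p | ¬ Irreducible (poly y)}.ncard : ℕ) : ℝ) +
      (({y : Fin N → ZMod p | Irreducible (poly y)}.ncard : ℕ) : ℝ) = (p : ℝ) ^ N := by
    exact_mod_cast h2
  linarith

lemma dens_split {N : ℕ} : Dens N (fun _ f => SplitD f) := by
  classical
  refine ⟨1 / (2 ^ N * (N.factorial : ℝ)), by positivity, 2 * N, fun p hp hl => ?_⟩
  have := Fact.mk hp
  have h1 := card_le_ncard (p := p) (N := N) (Finset.powersetCard N (univ : Finset (ZMod p)))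
    (fun f => SplitD f) px (fun a _ => px_monic a)
    (fun a ha => by rw [px_natDegree, (Finset.mem_powersetCard.1 ha).2])
    (fun a _ => ⟨a, rfl⟩)
    (fun a _ b _ h => by
      have e := congrArg roots h
      rw [px_roots, px_roots] at e
      exact Finset.val_injective e)
  rw [Finset.card_powersetCard, Finset.card_univ, ZMod.card] at h1
  have h2 := choose_lower (le_refl N) hl
  have h3 : ((p.choose N : ℕ) : ℝ) ≤
      (({y : Fin N → ZMod p | SplitD (poly y)}.ncard : ℕ) : ℝ) := by exact_mod_cast h1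
  calc 1 / (2 ^ N * (N.factorial : ℝ)) * (p : ℝ) ^ N
      = (p : ℝ) ^ N / (2 ^ N * (N.factorial : ℝ)) := by ring
    _ ≤ _ := h2.trans h3

/-- the irreducible monic polynomials of degree `g`, as coefficient vectors -/
noncomputable def irr (p g : ℕ) [Fact p.Prime] : Finset (Fin g → ZMod p) := by
  classical
  exact univ.filter fun y => Irreducible (poly y)

lemma mem_irr {g : ℕ} {y : Fin g → ZMod p} : y ∈ irr p g ↔ Irreducible (poly y) := by
  classical
  unfold irr
  rw [Finset.mem_filter]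
  exact ⟨fun h => h.2, fun h => ⟨Finset.mem_univ _, h⟩⟩

lemma card_irr (g : ℕ) : (irr p g).card = {y : Fin g → ZMod p | Irreducible (poly y)}.ncard := by
  classical
  rw [← Set.ncard_coe_finset]
  congr 1
  ext y
  rw [Finset.mem_coe, mem_irr, Set.mem_ofPred_eq]

lemma dens_quad {N : ℕ} (hN : 2 ≤ N) : Dens N (fun _ f => QuadSplit f) := by
  classical
  obtain ⟨δ, hδ, l₀, h⟩ := dens_irr (N := 2) (by norm_num)
  refine ⟨δ / (2 ^ (N - 2) * ((N - 2).factorial : ℝ)), by positivity, max l₀ (2 * N),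
    fun p hp hl => ?_⟩
  have := Fact.mk hp
  have hl1 : l₀ ≤ p := (le_max_left _ _).trans hl
  have hl2 : 2 * N ≤ p := (le_max_right _ _).trans hl
  have h1 := card_le_ncard (p := p) (N := N)
    ((irr p 2) ×ˢ Finset.powersetCard (N - 2) (univ : Finset (ZMod p)))
    (fun f => QuadSplit f) (fun a => poly a.1 * px a.2)
    (fun a _ => (poly_monic a.1).mul (px_monic a.2))
    (fun a ha => by
      obtain ⟨_, ha2⟩ := Finset.mem_product.1 ha
      rw [(poly_monic a.1).natDegree_mul (px_monic a.2), poly_natDegree, px_natDegree,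
        (Finset.mem_powersetCard.1 ha2).2]
      omega)
    (fun a ha => by
      obtain ⟨ha1, _⟩ := Finset.mem_product.1 ha
      exact ⟨poly a.1, a.2, poly_monic a.1, poly_natDegree a.1, mem_irr.1 ha1, rfl⟩)
    (fun a ha b hb hab => by
      obtain ⟨ha1, _⟩ := Finset.mem_product.1 (Finset.mem_coe.1 ha)
      obtain ⟨hb1, _⟩ := Finset.mem_product.1 (Finset.mem_coe.1 hb)
      simp only at hab
      have e := congrArg roots hab
      rw [roots_mul ((poly_monic a.1).mul (px_monic a.2)).ne_zero,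
        roots_mul ((poly_monic b.1).mul (px_monic b.2)).ne_zero,
        roots_zero (mem_irr.1 ha1) (by rw [poly_natDegree]),
        roots_zero (mem_irr.1 hb1) (by rw [poly_natDegree]), zero_add, zero_add, px_roots,
        px_roots] at e
      have e2 : a.2 = b.2 := Finset.val_injective e
      rw [e2] at hab
      have e1 := poly_inj (mul_right_cancel₀ (px_monic b.2).ne_zero hab)
      exact Prod.ext e1 e2)
  rw [Finset.card_product, Finset.card_powersetCard, Finset.card_univ, ZMod.card, card_irr] at h1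
  have h2 := choose_lower (show N - 2 ≤ N by omega) hl2
  have h3 := h p hp hl1
  have h4 : (({y : Fin 2 → ZMod p | Irreducible (poly y)}.ncard * p.choose (N - 2) : ℕ) : ℝ) ≤
      (({y : Fin N → ZMod p | QuadSplit (poly y)}.ncard : ℕ) : ℝ) := by exact_mod_cast h1
  refine le_trans ?_ h4
  rw [Nat.cast_mul]
  have h5 : (p : ℝ) ^ N = (p : ℝ) ^ 2 * (p : ℝ) ^ (N - 2) := by
    rw [← pow_add]
    congr 1
    omega
  calc δ / (2 ^ (N - 2) * ((N - 2).factorial : ℝ)) * (p : ℝ) ^ N
      = (δ * (p : ℝ) ^ 2) * ((p : ℝ) ^ (N - 2) / (2 ^ (N - 2) * ((N - 2).factorial : ℝ))) := by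
        rw [h5]
        ring
    _ ≤ _ := mul_le_mul h3 h2 (by positivity) (by positivity)

lemma linIrr_of_splitD {f : (ZMod p)[X]} (hf : SplitD f) (hd : f.natDegree = 2) : LinIrr f := by
  classical
  obtain ⟨s, rfl⟩ := hf
  have h1 : (px s).natDegree = 2 := hd
  rw [px_natDegree, Finset.card_eq_two] at h1
  obtain ⟨a, b, hab, rfl⟩ := h1
  refine ⟨a, X - C b, monic_X_sub_C b, irreducible_X_sub_C b, ?_, ?_⟩
  · rw [eval_sub, eval_X, eval_C]
    exact sub_ne_zero.2 hab
  · rw [Finset.prod_pair hab]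

lemma dens_lin {N : ℕ} (hN : 2 ≤ N) : Dens N (fun _ f => LinIrr f) := by
  classical
  rcases Nat.lt_or_ge 2 N with h3 | h3
  · obtain ⟨δ, hδ, l₀, h⟩ := dens_irr (N := N - 1) (by omega)
    refine ⟨δ, hδ, l₀, fun p hp hl => ?_⟩
    have := Fact.mk hp
    have hroots : ∀ q : (ZMod p)[X], q.Monic → Irreducible q → 2 ≤ q.natDegree → ∀ a : ZMod p,
        ((X - C a) * q).roots = {a} := by
      intro q hm hq hd a
      rw [roots_mul ((monic_X_sub_C a).mul hm).ne_zero, roots_zero hq hd, roots_X_sub_C,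
        add_zero]
    have h1 := card_le_ncard (p := p) (N := N) ((univ : Finset (ZMod p)) ×ˢ (irr p (N - 1)))
      (fun f => LinIrr f) (fun a => (X - C a.1) * poly a.2)
      (fun a _ => (monic_X_sub_C a.1).mul (poly_monic a.2))
      (fun a _ => by
        rw [(monic_X_sub_C a.1).natDegree_mul (poly_monic a.2), natDegree_X_sub_C,
          poly_natDegree]
        omega)
      (fun a ha => by
        obtain ⟨_, ha2⟩ := Finset.mem_product.1 ha
        refine ⟨a.1, poly a.2, poly_monic a.2, mem_irr.1 ha2, ?_, rfl⟩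
        intro he
        have e1 := roots_zero (mem_irr.1 ha2) (by rw [poly_natDegree]; omega)
        have e2 : a.1 ∈ (poly a.2).roots := by
          rw [mem_roots (mem_irr.1 ha2).ne_zero]
          exact he
        rw [e1] at e2
        exact Multiset.notMem_zero _ e2)
      (fun a ha b hb hab => by
        obtain ⟨_, ha2⟩ := Finset.mem_product.1 (Finset.mem_coe.1 ha)
        obtain ⟨_, hb2⟩ := Finset.mem_product.1 (Finset.mem_coe.1 hb)
        simp only at hab
        have e := congrArg roots hab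
        rw [hroots _ (poly_monic a.2) (mem_irr.1 ha2) (by rw [poly_natDegree]; omega),
          hroots _ (poly_monic b.2) (mem_irr.1 hb2) (by rw [poly_natDegree]; omega)] at e
        have e1 : a.1 = b.1 := Multiset.singleton_inj.1 e
        rw [e1] at hab
        have e2 := poly_inj (mul_left_cancel₀ (X_sub_C_ne_zero b.1) hab)
        exact Prod.ext e1 e2)
    rw [Finset.card_product, Finset.card_univ, ZMod.card, card_irr] at h1
    have h4 := h p hp hl
    have h5 : ((p * {y : Fin (N - 1) → ZMod p | Irreducible (poly y)}.ncard : ℕ) : ℝ) ≤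
        (({y : Fin N → ZMod p | LinIrr (poly y)}.ncard : ℕ) : ℝ) := by exact_mod_cast h1
    refine le_trans ?_ h5
    rw [Nat.cast_mul]
    have h6 : (p : ℝ) ^ N = (p : ℝ) * (p : ℝ) ^ (N - 1) := by
      rw [← pow_succ']
      congr 1
      omega
    calc δ * (p : ℝ) ^ N = p * (δ * (p : ℝ) ^ (N - 1)) := by
          rw [h6]
          ring
      _ ≤ _ := mul_le_mul_of_nonneg_left h4 (Nat.cast_nonneg p)
  · have hN2 : N = 2 := by omega
    subst hN2
    obtain ⟨δ, hδ, l₀, h⟩ := dens_split (N := 2)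
    refine ⟨δ, hδ, l₀, fun p hp hl => (h p hp hl).trans ?_⟩
    have := Fact.mk hp
    have h1 : {y : Fin 2 → ZMod p | SplitD (poly y)}.ncard ≤
        {y : Fin 2 → ZMod p | LinIrr (poly y)}.ncard :=
      Set.ncard_le_ncard (fun y hy => linIrr_of_splitD hy (poly_natDegree y)) (Set.toFinite _)
    exact_mod_cast h1

end Pool.Agent.MBK.DENS_

namespace Pool.Agent.MBK

open Pool.Agent.MBK.DENS_

/-- DENS: the factorisation patterns have positive density. -/
theorem p_DENS : T_DENS := by
  intro N hN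
  obtain ⟨δ₁, hδ₁, p₁, h₁⟩ := dens_split (N := N)
  obtain ⟨δ₂, hδ₂, p₂, h₂⟩ := dens_quad hN
  obtain ⟨δ₃, hδ₃, p₃, h₃⟩ := dens_lin hN
  obtain ⟨δ₄, hδ₄, p₄, h₄⟩ := dens_irr (N := N) (by omega)
  refine ⟨min (min δ₁ δ₂) (min (min δ₃ δ₄) 1), ?_, ?_, max (max p₁ p₂) (max p₃ p₄), ?_⟩
  · exact lt_min (lt_min hδ₁ hδ₂) (lt_min (lt_min hδ₃ hδ₄) one_pos)
  · exact (min_le_right _ _).trans (min_le_right _ _)
  · intro p hp hl
    have l₁ : p₁ ≤ p := ((le_max_left _ _).trans (le_max_left _ _)).trans hl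
    have l₂ : p₂ ≤ p := ((le_max_right _ _).trans (le_max_left _ _)).trans hl
    have l₃ : p₃ ≤ p := ((le_max_left _ _).trans (le_max_right _ _)).trans hl
    have l₄ : p₄ ≤ p := ((le_max_right _ _).trans (le_max_right _ _)).trans hl
    have hpN : (0 : ℝ) ≤ (p : ℝ) ^ N := by positivity
    refine ⟨le_trans (mul_le_mul_of_nonneg_right ?_ hpN) (h₁ p hp l₁),
      le_trans (mul_le_mul_of_nonneg_right ?_ hpN) (h₂ p hp l₂),
      le_trans (mul_le_mul_of_nonneg_right ?_ hpN) (h₃ p hp l₃),
      le_trans (mul_le_mul_of_nonneg_right ?_ hpN) (h₄ p hp l₄)⟩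
    · exact (min_le_left _ _).trans (min_le_left _ _)
    · exact (min_le_left _ _).trans (min_le_right _ _)
    · exact ((min_le_right _ _).trans (min_le_left _ _)).trans (min_le_left _ _)
    · exact ((min_le_right _ _).trans (min_le_left _ _)).trans (min_le_right _ _)

end Pool.Agent.MBK
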