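import Pool.Agent.MBK.Targets

set_option autoImplicit false

/-!
# DENSJ: patterns of tuples of polynomials have positive density
-/

namespace Pool.Agent.MBK

open NumberField Finset Module Polynomial
open Pool.Agent.AWP (poly)

namespace DENSJ_

/-- A product of sets of density at least `δ` has density at least `δ ^ card J`. -/
lemma compl_le {J X : Type} [Fintype J] [Fintype X] (S : J → Set X) {δ : ℝ} (hδ : 0 < δ)
    (hS : ∀ σ, δ * (Fintype.card X : ℝ) ≤ (((S σ).ncard : ℕ) : ℝ))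
    (P : (J → X) → Prop) (hP : ∀ Y, (∀ σ, Y σ ∈ S σ) → P Y) :
    (({Y : J → X | ¬ P Y}.ncard : ℕ) : ℝ) ≤
      (1 - δ ^ Fintype.card J) * (Fintype.card X : ℝ) ^ Fintype.card J := by
  classical
  have h1 : {Y : J → X | ¬ P Y} ⊆ ({Y : J → X | ∀ σ, Y σ ∈ S σ})ᶜ := by
    intro Y hY hcon
    exact hY (hP Y hcon)
  have h2 : ({Y : J → X | ¬ P Y}.ncard : ℕ) ≤ (({Y : J → X | ∀ σ, Y σ ∈ S σ})ᶜ).ncard :=
    Set.ncard_le_ncard h1 (Set.toFinite _)
  have h3 : ({Y : J → X | ∀ σ, Y σ ∈ S σ}).ncard + (({Y : J → X | ∀ σ, Y σ ∈ S σ})ᶜ).ncard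
      = Fintype.card X ^ Fintype.card J := by
    rw [Set.ncard_add_ncard_compl, Nat.card_eq_fintype_card, Fintype.card_fun]
  have h4 : ({Y : J → X | ∀ σ, Y σ ∈ S σ}).ncard = ∏ σ, (S σ).ncard := by
    have e : {Y : J → X | ∀ σ, Y σ ∈ S σ}
        = ((Fintype.piFinset (fun σ => (S σ).toFinset) : Finset (J → X)) : Set (J → X)) := by
      ext Y
      simp [Fintype.mem_piFinset]
    rw [e, Set.ncard_coe_finset, Fintype.card_piFinset]
    refine Finset.prod_congr rfl (fun σ _ => ?_)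
    rw [Set.ncard_eq_toFinset_card']
  have h5 : (δ * (Fintype.card X : ℝ)) ^ Fintype.card J
      ≤ ((({Y : J → X | ∀ σ, Y σ ∈ S σ}).ncard : ℕ) : ℝ) := by
    rw [h4]
    push_cast
    calc (δ * (Fintype.card X : ℝ)) ^ Fintype.card J
        = ∏ _σ : J, (δ * (Fintype.card X : ℝ)) := by
          rw [Finset.prod_const, Finset.card_univ]
      _ ≤ ∏ σ, (((S σ).ncard : ℕ) : ℝ) :=
          Finset.prod_le_prod (fun _ _ => by positivity) (fun σ _ => hS σ)
  have h2' : (({Y : J → X | ¬ P Y}.ncard : ℕ) : ℝ)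
      ≤ (((({Y : J → X | ∀ σ, Y σ ∈ S σ})ᶜ).ncard : ℕ) : ℝ) := by exact_mod_cast h2
  have h3' : ((({Y : J → X | ∀ σ, Y σ ∈ S σ}).ncard : ℕ) : ℝ)
      + (((({Y : J → X | ∀ σ, Y σ ∈ S σ})ᶜ).ncard : ℕ) : ℝ)
      = (Fintype.card X : ℝ) ^ Fintype.card J := by exact_mod_cast h3
  rw [mul_pow] at h5
  linarith

end DENSJ_

theorem p_DENSJ (h : T_DENS) : T_DENSJ := by
  classical
  intro J _ m σ₀ N hN
  have := Fintype.ofFinite J
  obtain ⟨δ, hδ0, hδ1, p₀, hp₀⟩ := h N hN
  refine ⟨δ ^ Fintype.card J, by positivity, pow_le_one₀ hδ0.le hδ1, p₀, ?_⟩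
  intro p hp hpp
  obtain ⟨h1, h2, h3, h4⟩ := hp₀ p hp hpp
  have : Fact p.Prime := ⟨hp⟩
  have : NeZero p := ⟨hp.ne_zero⟩
  have hcard : Fintype.card (Fin N → ZMod p) = p ^ N := by
    rw [Fintype.card_fun, ZMod.card, Fintype.card_fin]
  set A : Set (Fin N → ZMod p) := if m = 0 then {y | QuadSplit (poly y)} else
    if m = 1 then {y | LinIrr (poly y)} else {y | Irreducible (poly y)} with hA
  set B : Set (Fin N → ZMod p) := if m = 0 then {y | SplitD (poly y)} else Set.univ with hB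
  have hAc : δ * (Fintype.card (Fin N → ZMod p) : ℝ) ≤ ((A.ncard : ℕ) : ℝ) := by
    rw [hcard]
    push_cast
    rw [hA]
    split_ifs
    · exact h2
    · exact h3
    · exact h4
  have hBc : δ * (Fintype.card (Fin N → ZMod p) : ℝ) ≤ ((B.ncard : ℕ) : ℝ) := by
    rw [hB]
    split_ifs
    · rw [hcard]
      push_cast
      exact h1
    · rw [Set.ncard_univ, Nat.card_eq_fintype_card]
      have : (0:ℝ) ≤ (Fintype.card (Fin N → ZMod p) : ℝ) := by positivity
      nlinarith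
  have hmain := DENSJ_.compl_le (J := J) (X := Fin N → ZMod p)
    (fun σ => if σ = σ₀ then A else B) hδ0 (fun σ => by split_ifs <;> assumption)
    (fun Y => Pat m σ₀ Y) (by
      intro Y hY
      have hY0 := hY σ₀
      rw [if_pos rfl] at hY0
      refine ⟨?_, ?_, ?_⟩
      · intro hm
        rw [hA, if_pos hm] at hY0
        refine ⟨hY0, ?_⟩
        intro σ hσ
        have hYσ := hY σ
        rw [if_neg hσ, hB, if_pos hm] at hYσ
        exact hYσ
      · intro hm
        rw [hA, hm] at hY0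
        simpa using hY0
      · intro hm
        rw [hA, hm] at hY0
        simpa using hY0)
  rw [hcard] at hmain
  rw [Nat.card_eq_fintype_card, pow_mul]
  push_cast at hmain
  exact hmain

end Pool.Agent.MBK
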