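import Mathlib
import Pool.Agent.MBK.Defs
import Pool.Agent.OneRed.Classes
import Pool.Agent.CMV.OrdDefs
import Pool.Agent.FFT.Targets

set_option autoImplicit false

/-!
# Multiplication by a CM field: definitions for abelian varieties with one good reduction
-/

namespace Pool.Agent.MBK

open NumberField Finset Module Polynomial
open Pool.Agent.CMT (QBar IsCMType TateByDivisors cc)
open Pool.Agent.CMTP (NotInduced)
open Pool.Agent.FFT (IsWeil)
open Pool.Agent.CMV (IsOrdinary HasType)
open Pool.Agent.OneRed (Rep HH)

/-- The abelian variety `A` (with the data `D`) has the Weil `q`-number `π` as Frobenius element: for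
some element `φ` of the Galois group with `χ φ = q` (a Frobenius element at a place of good
reduction with residue field of `q` elements) the Tate module has a basis of eigenvectors of `φ`
whose eigenvalues are the conjugates `ψ π`, where `ψ` runs through the embeddings of `K'`; `e` is an
embedding of the algebraic numbers into the field `E` of the coefficients. -/
def HasFrobenius {E V Γ K' : Type} [Field E] [AddCommGroup V] [Module E V] [Group Γ] [Field K']
    (D : Rep E V Γ) (q : ℕ) (π : K') : Prop :=
  ∃ (e : QBar →+* E) (b : Basis (K' →+* QBar) E V) (φ : Γ),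
    (∀ ψ, D.ρ φ (b ψ) = e (ψ π) • b ψ) ∧ (D.χ φ : E) = q

/-- the conjugates of the norm of `π` from `K'` to `K` satisfy no odd multiplicative relation -/
def NormFree (K : Type) {K' : Type} [Field K] [NumberField K] [IsCMField K] [Field K']
    [Algebra K K'] (π : K') : Prop :=
  ∀ v : (K →+* QBar) → ℤ, (∀ φ, v (cc φ) = - v φ) →
    ∏ φ : K →+* QBar, φ (Algebra.norm K π) ^ v φ = 1 → v = 0

/-- Every abelian variety which has the Weil number `π` of the field `K'` of degree `N` over `K` as
Frobenius element: a Tate class of codimension `j` on one of its powers is a combination of products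
of Tate classes of codimension one if `2 j < N`, or if the conjugates of the norm of `π` to `K`
satisfy no odd relation, or if `N` is at least `5` and all nonzero isotropic subspaces of the Tate
module (with coefficients in `E`) which are stable under a subgroup of finite index have dimension
larger than `2 j`. -/
def FrobDivisorial (K : Type) {K' : Type} [Field K] [NumberField K] [IsCMField K] [Field K']
    [Algebra K K'] (N q : ℕ) (π : K') : Prop :=
  ∀ (E V Γ : Type) [Field E] [CharZero E] [AddCommGroup V] [Module E V] [Group Γ]
    (D : Rep E V Γ), HasFrobenius D q π → ∀ (r j : ℕ) (x : HH E V r), D.TateClass r j x →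
      (2 * j < N ∨ NormFree K π ∨ (5 ≤ N ∧ ∀ W : Submodule E V, W ≠ ⊥ → D.Isotropic W →
        D.Stable W → 2 * j < finrank E W)) →
      D.ByDivisors r x

/-- no power of `π` lies in `K` -/
def NoPower (K : Type) {K' : Type} [Field K] [Field K'] [Algebra K K'] (π : K') : Prop :=
  ∀ m : ℕ, 0 < m → π ^ m ∉ (algebraMap K K').range

/-- The ordinary Weil numbers of type `Φ`: no power of them lies in `K` if `Φ` is not induced from
`K`, and the conjugates of their norm to `K` satisfy no odd relation if the signature of `Φ` is
full. -/
def OrdinaryProps (K : Type) {K' : Type} [Field K] [NumberField K] [IsCMField K] [Field K']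
    [NumberField K'] [IsCMField K'] [Algebra K K'] (Φ : Finset (K' →+* QBar)) : Prop :=
  ∀ (p : ℕ) (_ : Fact p.Prime) (q : ℕ) (π : K') (ι : QBar →+* PadicAlgCl p),
    IsOrdinary p q π → HasType ι π Φ → (NotFrom K Φ → NoPower K π) ∧ (FullSig K Φ → NormFree K π)

/-- The properties of the CM type `Φ` of `K'`: if it is not induced from `K`, then the Tate weights
are unions of divisorial ones and Weil weights over `K`; it belongs to a simple abelian variety and
has only divisorial Tate weights if and only if it is not induced from `K` and its signature is
full; the properties of the ordinary Weil numbers of type `Φ`. -/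
def TypeProps (K : Type) {K' : Type} [Field K] [NumberField K] [IsCMField K] [Field K']
    [NumberField K'] [IsCMField K'] [Algebra K K'] (Φ : Finset (K' →+* QBar)) : Prop :=
  (NotFrom K Φ → TateByWeil K Φ) ∧
  ((NotInduced Φ ∧ TateByDivisors Φ) ↔ (NotFrom K Φ ∧ FullSig K Φ)) ∧ OrdinaryProps K Φ

/-- The numbers of the CM types of the field `K'` of degree `N` over `K`, where `[K : ℚ] = 2 g`:
there are `2 ^ (g N)` of them, at most `2 ^ g` are induced from `K`, and the number of the types which
are induced from `K` or have a signature which is not full is small. -/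
def TypeCounts (K K' : Type) [Field K] [NumberField K] [IsCMField K] [Field K'] [NumberField K']
    [IsCMField K'] [Algebra K K'] (g N : ℕ) : Prop :=
  Nat.card {Φ : Finset (K' →+* QBar) // IsCMType K' Φ} = 2 ^ (g * N) ∧
  Nat.card {Φ : Finset (K' →+* QBar) // IsCMType K' Φ ∧ ¬ NotFrom K Φ} ≤ 2 ^ g ∧
  Nat.card {Φ : Finset (K' →+* QBar) // IsCMType K' Φ ∧ ¬ (NotFrom K Φ ∧ FullSig K Φ)} ≤
    g * N.choose (N / 2) * 2 ^ ((g - 1) * N) + 2 ^ g

/-- The polynomial `h` of degree `N` over the integers of the maximal real subfield `F` of `K` is
good: every field `K' = K(θ)`, where `θ` is a root of `h`, is a CM field of degree `N` over `K`; all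
abelian varieties which have a Weil number in `K'`, no power of which lies in `K`, as Frobenius
element have divisorial Tate classes as in `FrobDivisorial`; and the CM types of `K'` have the
properties `TypeProps` and `TypeCounts`. -/
def Good₁ (F K : Type) [Field F] [NumberField F] [Field K] [NumberField K] [IsCMField K]
    [Algebra F K] (N : ℕ) (h : (𝓞 F)[X]) : Prop :=
  ∀ (K' : Type) [Field K'] [NumberField K'] [Algebra K K'] (θ : K'),
    IsRt h ((algebraMap K K').comp (algebraMap F K)) θ → IntermediateField.adjoin K {θ} = ⊤ →
    finrank K K' = N ∧ ∃ _ : IsCMField K',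
      (∀ (q : ℕ) (π : K'), IsWeil q π → NoPower K π → FrobDivisorial K N q π) ∧
      (∀ Φ : Finset (K' →+* QBar), IsCMType K' Φ → TypeProps K Φ) ∧
      TypeCounts K K' (finrank ℚ F) N

end Pool.Agent.MBK
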