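import Pool.Agent.MBK.Targets
import Pool.Agent.CMTP.Field

set_option autoImplicit false

/-!
# FRBR: a Frobenius automorphism and a reduction map
-/

namespace Pool.Agent.MBK

open NumberField Finset Module Polynomial
open Pool.Agent.CMT (QBar)

namespace FRBR_

theorem frobQ (L' : Type) [Field L'] [NumberField L'] [IsGalois ℚ L'] (Q : Ideal (𝓞 L'))
    [hQ : Q.IsMaximal] (l : ℕ) (hl : l.Prime) (hlQ : (l : 𝓞 L') ∈ Q) :
    ∃ σ : L' ≃+* L', ∀ x : 𝓞 L', ∃ x' : 𝓞 L', (x' : L') = σ x ∧ x' - x ^ l ∈ Q := by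
  have hl0 : (l : ℤ) ≠ 0 := by exact_mod_cast hl.ne_zero
  have hP : (Ideal.span {(l : ℤ)}).IsPrime :=
    (Ideal.span_singleton_prime hl0).2 (Nat.prime_iff_prime_int.1 hl)
  have hPm : (Ideal.span {(l : ℤ)}).IsMaximal := hP.isMaximal (by
    rw [Ne, Ideal.span_singleton_eq_bot]; exact hl0)
  have hu : Q.under ℤ = Ideal.span {(l : ℤ)} := by
    have h0 : (Q.under ℤ).IsPrime := inferInstance
    refine (hPm.eq_of_le h0.ne_top ?_).symm
    rw [Ideal.span_singleton_le_iff_mem, Ideal.under_def, Ideal.mem_comap]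
    simpa using hlQ
  have : Finite (𝓞 L' ⧸ Q) := Q.finiteQuotientOfFreeOfNeBot fun h => by
    rw [h, Ideal.mem_bot] at hlQ
    exact hl.ne_zero (by exact_mod_cast hlQ)
  have hcard : Nat.card (ℤ ⧸ Q.under ℤ) = l := by
    rw [hu, Nat.card_congr (Int.quotientSpanNatEquivZMod l).toEquiv, Nat.card_zmod]
  have : Algebra.IsInvariant ℤ (𝓞 L') (𝓞 L' ≃ₐ[ℤ] 𝓞 L') :=
    Algebra.isInvariant_of_isGalois' ℤ ℚ L' (𝓞 L')
  have : Finite (𝓞 L' ≃ₐ[ℤ] 𝓞 L') :=
    Finite.of_equiv _ (galRestrict ℤ ℚ L' (𝓞 L')).toEquiv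
  obtain ⟨σ, hσ⟩ := IsArithFrobAt.exists_of_isInvariant ℤ (𝓞 L' ≃ₐ[ℤ] 𝓞 L') Q
  refine ⟨((galRestrict ℤ ℚ L' (𝓞 L')).symm σ).toRingEquiv, fun x => ⟨σ x, ?_, ?_⟩⟩
  · exact (galRestrict_symm_algebraMap_apply ℤ ℚ σ x).symm
  · have h1 := hσ x
    rw [hcard] at h1
    exact h1

theorem exQ (L L' : Type) [Field L] [NumberField L] [Field L'] [NumberField L'] (j : L →+* L')
    (p : ℕ) [Fact p.Prime] (ρ : 𝓞 L →+* ZMod p) :
    ∃ Q : Ideal (𝓞 L'), Q.IsMaximal ∧
      ∀ a : 𝓞 L, RingOfIntegers.mapRingHom j a ∈ Q ↔ ρ a = 0 := by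
  have hs : Function.Surjective ρ := ZMod.ringHom_surjective ρ
  have hm : (RingHom.ker ρ).IsMaximal := RingHom.ker_isMaximal_of_surjective ρ hs
  let _ : Algebra (𝓞 L) (𝓞 L') := (RingOfIntegers.mapRingHom j).toAlgebra
  have hint : Algebra.IsIntegral (𝓞 L) (𝓞 L') := by
    refine ⟨fun x => ?_⟩
    have h1 : IsIntegral ℤ x := RingOfIntegers.isIntegral x
    have : IsScalarTower ℤ (𝓞 L) (𝓞 L') := IsScalarTower.of_algebraMap_eq fun n => by simp
    exact h1.tower_top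
  have hinj : Function.Injective (algebraMap (𝓞 L) (𝓞 L')) := by
    intro a b h
    have h1 := congrArg (fun x : 𝓞 L' => (x : L')) h
    exact RingOfIntegers.coe_injective (j.injective h1)
  have : FaithfulSMul (𝓞 L) (𝓞 L') := (faithfulSMul_iff_algebraMap_injective _ _).2 hinj
  obtain ⟨Q, hQm, hQ⟩ := Ideal.exists_maximal_ideal_liesOver_of_isIntegral
    (RingHom.ker ρ) (S := 𝓞 L')
  refine ⟨Q, hQm, fun a => ?_⟩
  have h2 : a ∈ RingHom.ker ρ ↔ algebraMap (𝓞 L) (𝓞 L') a ∈ Q := by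
    rw [hQ.over, Ideal.under_def, Ideal.mem_comap]
  rw [← RingHom.mem_ker, h2]
  rfl

theorem frobR (L' : Type) [Field L'] [NumberField L'] [IsGalois ℚ L'] (L : Type) [Field L]
    [NumberField L] (j : L →+* L') (p : ℕ) [hp : Fact p.Prime] (ρ : 𝓞 L →+* ZMod p) :
    ∃ (k : Type) (_ : Field k) (e : ZMod p →+* k) (r : 𝓞 L' →+* k) (σ : L' ≃+* L'),
      (∀ a : 𝓞 L, r (RingOfIntegers.mapRingHom j a) = e (ρ a)) ∧
      ∀ x : 𝓞 L', ∃ x' : 𝓞 L', (x' : L') = σ x ∧ r x' = r x ^ p := by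
  obtain ⟨Q, hQm, hQ⟩ := exQ L L' j p ρ
  have hpQ : (p : 𝓞 L') ∈ Q := by
    have h1 := (hQ (p : 𝓞 L)).2 (by rw [map_natCast, ZMod.natCast_self])
    rwa [map_natCast] at h1
  obtain ⟨σ, hσ⟩ := frobQ L' Q p hp.out hpQ
  let _ : Field (𝓞 L' ⧸ Q) := Ideal.Quotient.field Q
  have hp0 : ((p : ℕ) : 𝓞 L' ⧸ Q) = 0 := by
    rw [← map_natCast (Ideal.Quotient.mk Q)]
    exact Ideal.Quotient.eq_zero_iff_mem.2 hpQ
  have hchar : CharP (𝓞 L' ⧸ Q) p := by
    obtain ⟨q, hq⟩ := CharP.exists (𝓞 L' ⧸ Q)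
    have h1 : q ∣ p := (CharP.cast_eq_zero_iff (𝓞 L' ⧸ Q) q p).1 hp0
    rcases (Nat.dvd_prime hp.out).1 h1 with h2 | h2
    · exact absurd h2 (CharP.char_ne_one (𝓞 L' ⧸ Q) q)
    · rw [← h2]
      exact hq
  refine ⟨𝓞 L' ⧸ Q, inferInstance, ZMod.castHom (dvd_refl p) (𝓞 L' ⧸ Q), Ideal.Quotient.mk Q, σ,
    ?_, ?_⟩
  · intro a
    have h1 : ρ (a - ((ρ a).val : 𝓞 L)) = 0 := by
      rw [map_sub, map_natCast, ZMod.natCast_zmod_val, sub_self]
    have h2 := (hQ _).2 h1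
    rw [map_sub, map_natCast] at h2
    have h3 := Ideal.Quotient.eq.2 h2
    rw [h3, map_natCast]
    conv_rhs => rw [← ZMod.natCast_zmod_val (ρ a)]
    rw [map_natCast]
  · intro x
    obtain ⟨x', h5, h6⟩ := hσ x
    refine ⟨x', h5, ?_⟩
    rw [← map_pow]
    exact Ideal.Quotient.eq.2 h6

theorem frobR' (L' : Type) [Field L'] [CharZero L'] [A : Algebra ℚ L']
    [h1 : FiniteDimensional ℚ L'] [h2 : IsGalois ℚ L'] (L : Type) [Field L]
    [NumberField L] (j : L →+* L') (p : ℕ) [hp : Fact p.Prime] (ρ : 𝓞 L →+* ZMod p) :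
    ∃ (k : Type) (_ : Field k) (e : ZMod p →+* k) (r : 𝓞 L' →+* k) (σ : L' ≃+* L'),
      (∀ a : 𝓞 L, r (RingOfIntegers.mapRingHom j a) = e (ρ a)) ∧
      ∀ x : 𝓞 L', ∃ x' : 𝓞 L', (x' : L') = σ x ∧ r x' = r x ^ p := by
  have e : A = DivisionRing.toRatAlgebra := Subsingleton.elim _ _
  subst e
  have : NumberField L' := { to_charZero := inferInstance, to_finiteDimensional := h1 }
  exact frobR L' L j p ρ

theorem frobO {Ω : Type} [Field Ω] [CharZero Ω] [IsAlgClosed Ω] [Algebra.IsAlgebraic ℚ Ω]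
    (S : Set Ω) (hS : S.Finite) (hSi : ∀ s ∈ S, IsIntegral ℤ s)
    (L : Type) [Field L] [NumberField L] (j : L →+* Ω) (p : ℕ) [hp : Fact p.Prime]
    (ρ : 𝓞 L →+* ZMod p) :
    ∃ (B k : Type) (_ : CommRing B) (_ : Field k) (e : ZMod p →+* k) (i : B →+* Ω)
      (j' : 𝓞 L →+* B) (r : B →+* k) (τ : Ω ≃+* Ω), Function.Injective i ∧
      (∀ a : 𝓞 L, i (j' a) = j a) ∧ (∀ a : 𝓞 L, r (j' a) = e (ρ a)) ∧
      (∀ s ∈ S, ∃ x, i x = s) ∧
      ∀ x : B, ∃ x' : B, i x' = τ (i x) ∧ r x' = r x ^ p := by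
  have : Normal ℚ Ω := normal_iff.2 fun x =>
    ⟨(Algebra.IsAlgebraic.isAlgebraic x).isIntegral, IsAlgClosed.splits _⟩
  have : Finite S := hS
  let K₁ := IntermediateField.adjoin ℚ S
  have hK₁ : FiniteDimensional ℚ K₁ :=
    IntermediateField.finiteDimensional_adjoin fun x _ =>
      (Algebra.IsAlgebraic.isAlgebraic x).isIntegral
  let jq : L →ₐ[ℚ] Ω := j.toRatAlgHom
  let K₂ : IntermediateField ℚ Ω := jq.fieldRange
  have hK₂ : FiniteDimensional ℚ K₂ :=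
    Module.Finite.of_surjective (jq.rangeRestrict.toLinearMap) jq.rangeRestrict_surjective
  let K₀ := K₁ ⊔ K₂
  have hK₀ : FiniteDimensional ℚ K₀ := IntermediateField.finiteDimensional_sup K₁ K₂
  let L' := IntermediateField.normalClosure ℚ K₀ Ω
  have hfd : FiniteDimensional ℚ L' := inferInstance
  have hn : Normal ℚ L' := normalClosure.normal ℚ K₀ Ω
  have hg : IsGalois ℚ L' := { }
  have hK : ∀ x ∈ K₀, x ∈ L' := fun x hx => IntermediateField.le_normalClosure K₀ hx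
  let j₁ : L →+* L' := j.codRestrict L'.toSubring fun x => hK _
    ((le_sup_right : K₂ ≤ K₁ ⊔ K₂) ⟨x, rfl⟩)
  obtain ⟨k, i1, e, r, σ, hr, hf⟩ := frobR' L' L j₁ p ρ
  have hL : Algebra.IsAlgebraic L' Ω := inferInstance
  have : IsAlgClosure L' Ω := ⟨inferInstance, inferInstance⟩
  let τ : Ω ≃+* Ω := IsAlgClosure.equivOfEquiv Ω Ω σ
  have hτ : ∀ x : L', τ (algebraMap L' Ω x) = algebraMap L' Ω (σ x) :=
    fun x => IsAlgClosure.equivOfEquiv_algebraMap Ω Ω σ x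
  refine ⟨𝓞 L', k, inferInstance, i1, e, (algebraMap L' Ω).comp (algebraMap (𝓞 L') L'),
    RingOfIntegers.mapRingHom j₁, r, τ, ?_, ?_, hr, ?_, ?_⟩
  · exact (algebraMap L' Ω).injective.comp RingOfIntegers.coe_injective
  · intro a
    rfl
  · intro s hsS
    have h1 : s ∈ L' := hK _ ((le_sup_left : K₁ ≤ K₁ ⊔ K₂)
      (IntermediateField.subset_adjoin ℚ S hsS))
    have h2 : IsIntegral ℤ (⟨s, h1⟩ : L') := by
      have h2 := hSi s hsS
      exact (isIntegral_algHom_iff (IsScalarTower.toAlgHom ℤ L' Ω)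
        (algebraMap L' Ω).injective).1 h2
    exact ⟨⟨⟨s, h1⟩, h2⟩, rfl⟩
  · intro x
    obtain ⟨x', h1, h2⟩ := hf x
    refine ⟨x', ?_, h2⟩
    rw [RingHom.comp_apply, RingHom.comp_apply]
    have h3 : algebraMap (𝓞 L') L' x' = σ (algebraMap (𝓞 L') L' x) := h1
    rw [h3, hτ]

theorem roots_red {Ω B k A : Type} {p : ℕ} [Field Ω] [IsAlgClosed Ω] [CommRing B]
    [CommRing A] [Field k] [Fact p.Prime] (i : B →+* Ω) (hi : Function.Injective i)
    (j' : A →+* B) (r : B →+* k) (ρ : A →+* ZMod p) (e : ZMod p →+* k)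
    (hr : ∀ a, r (j' a) = e (ρ a)) (f : A[X]) (hf : f.Monic) (hsep : (f.map ρ).Separable)
    (hlift : ∀ s : Ω, f.eval₂ (i.comp j') s = 0 → ∃ x, i x = s) :
    {β : Ω | f.eval₂ (i.comp j') β = 0}.ncard = f.natDegree ∧
    (∀ Y : B, f.eval₂ (i.comp j') (i Y) = 0 → (f.map ρ).eval₂ e (r Y) = 0) ∧
    (∀ Y Y' : B, f.eval₂ (i.comp j') (i Y) = 0 → f.eval₂ (i.comp j') (i Y') = 0 →
      r Y = r Y' → Y = Y') := by
  classical
  have hne : f.map (i.comp j') ≠ 0 := (hf.map _).ne_zero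
  have hroot : ∀ s : Ω, s ∈ (f.map (i.comp j')).roots ↔ f.eval₂ (i.comp j') s = 0 := by
    intro s
    rw [mem_roots hne, IsRoot.def, eval_map]
  obtain ⟨m, hm⟩ : ∃ m : Multiset B, m.map i = (f.map (i.comp j')).roots := by
    have : CanLift Ω B i (fun s => ∃ x, i x = s) := ⟨fun s h => h⟩
    obtain ⟨m, hm⟩ := (Multiset.canLift (i : B → Ω) (fun s => ∃ x, i x = s)).prf
      (f.map (i.comp j')).roots (fun s hs => hlift s ((hroot s).1 hs))
    exact ⟨m, hm⟩
  have hmem : ∀ Y : B, f.eval₂ (i.comp j') (i Y) = 0 → Y ∈ m := by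
    intro Y hY
    rw [← hroot, ← hm, Multiset.mem_map] at hY
    obtain ⟨Y', h1, h2⟩ := hY
    rw [← hi h2]
    exact h1
  have hprod : f.map j' = (m.map (fun a => X - C a)).prod := by
    apply Polynomial.map_injective i hi
    rw [Polynomial.map_map]
    have h1 := (IsAlgClosed.splits (f.map (i.comp j'))).eq_prod_roots_of_monic (hf.map _)
    rw [← hm] at h1
    refine h1.trans ?_
    rw [Polynomial.map_multiset_prod, Multiset.map_map, Multiset.map_map]
    congr 1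
    refine Multiset.map_congr rfl fun a _ => ?_
    simp
  have hprod2 : (f.map ρ).map e = ((m.map r).map (fun a => X - C a)).prod := by
    have h1 := congrArg (Polynomial.map r) hprod
    rw [Polynomial.map_map, Polynomial.map_multiset_prod, Multiset.map_map] at h1
    rw [Polynomial.map_map]
    have h2 : r.comp j' = e.comp ρ := RingHom.ext hr
    rw [← h2, h1, Multiset.map_map]
    congr 1
    refine Multiset.map_congr rfl fun a _ => ?_
    simp
  have hms : ((f.map ρ).map e).roots = m.map r := by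
    rw [hprod2, roots_multiset_prod_X_sub_C]
  have hnod : (m.map r).Nodup := by
    rw [← hms]
    exact nodup_roots hsep.map
  have hmn : m.Nodup := Multiset.Nodup.of_map r hnod
  have hrn : (f.map (i.comp j')).roots.Nodup := by
    rw [← hm]
    exact hmn.map hi
  refine ⟨?_, ?_, ?_⟩
  · have h1 : {β : Ω | f.eval₂ (i.comp j') β = 0} =
        (((f.map (i.comp j')).roots.toFinset : Finset Ω) : Set Ω) := by
      ext s
      rw [Finset.mem_coe, Multiset.mem_toFinset, hroot]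
      rfl
    rw [h1, Set.ncard_coe_finset, Multiset.toFinset_card_of_nodup hrn]
    have h2 := (IsAlgClosed.splits (f.map (i.comp j'))).natDegree_eq_card_roots
    rw [← h2, hf.natDegree_map]
  · intro Y hY
    have h1 : r Y ∈ m.map r := Multiset.mem_map_of_mem _ (hmem Y hY)
    rw [← hms, mem_roots ((hf.map _).map _).ne_zero, IsRoot.def, eval_map] at h1
    exact h1
  · intro Y Y' h1 h2 h3
    exact Multiset.inj_on_of_nodup_map hnod Y (hmem Y h1) Y' (hmem Y' h2) h3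

end FRBR_

open FRBR_ in
/-- FRBR -/
theorem p_FRBR : T_FRBR := by
  classical
  intro L _ _ j p hp ρ T hT
  have halg : Algebra.IsAlgebraic ℚ QBar := Pool.Agent.CMTP.isAlgebraic_QBar ℚ
  set jo : 𝓞 L →+* QBar := j.comp (algebraMap (𝓞 L) L) with hjo
  set S : Set QBar := ⋃ f ∈ T, {β | f.eval₂ jo β = 0} with hS
  have hSfin : S.Finite := by
    refine Set.Finite.biUnion T.finite_toSet fun f hf => ?_
    refine Set.Finite.subset ((f.map jo).roots.toFinset.finite_toSet) fun s hs => ?_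
    rw [Finset.mem_coe, Multiset.mem_toFinset, mem_roots ((hT f hf).map _).ne_zero, IsRoot.def,
      eval_map]
    exact hs
  have hSint : ∀ s ∈ S, IsIntegral ℤ s := by
    intro s hs
    rw [hS, Set.mem_iUnion₂] at hs
    obtain ⟨f, hf, h⟩ := hs
    let _ : Algebra (𝓞 L) QBar := jo.toAlgebra
    have : IsScalarTower ℤ (𝓞 L) QBar := IsScalarTower.of_algebraMap_eq fun n => by simp
    have h1 : IsIntegral (𝓞 L) s := ⟨f, hT f hf, h⟩
    exact isIntegral_trans s h1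
  obtain ⟨B, k, i1, i2, e, i, j', r, τ, hi, hij, hr, hlift, hf⟩ :=
    frobO S hSfin hSint L j p ρ
  have hcomp : i.comp j' = jo := RingHom.ext hij
  have hred : ∀ x, r (Function.invFun i (i x)) = r x := fun x => by
    rw [Function.leftInverse_invFun hi x]
  refine ⟨τ, k, i2, e, fun β => r (Function.invFun i β), ?_, ?_⟩
  · intro a a' h
    obtain ⟨x', h1, h2⟩ := hf (j' a)
    have h3 : x' = j' a' := by
      apply hi
      rw [h1, hij, hij, h]
    rw [h3, hr, hr, ← map_pow, ZMod.pow_card] at h2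
    exact e.injective h2
  · intro f hfT hsep
    have hl : ∀ s : QBar, f.eval₂ (i.comp j') s = 0 → ∃ x, i x = s := by
      intro s hs
      rw [hcomp] at hs
      exact hlift s (by
        rw [hS, Set.mem_iUnion₂]
        exact ⟨f, hfT, hs⟩)
    obtain ⟨h1, h2, h3⟩ := roots_red i hi j' r ρ e hr f (hT f hfT) hsep hl
    rw [hcomp] at h1 h2 h3 hl
    refine ⟨h1, ?_, ?_⟩
    · intro β hβ β' hβ' h
      obtain ⟨Y, rfl⟩ := hl β hβ
      obtain ⟨Y', rfl⟩ := hl β' hβ'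
      simp only [hred] at h
      rw [h3 Y Y' hβ hβ' h]
    · intro β hβ
      obtain ⟨Y, rfl⟩ := hl β hβ
      obtain ⟨x', h4, h5⟩ := hf Y
      simp only
      rw [← h4, hred, hred]
      exact ⟨h2 Y hβ, h5⟩

end Pool.Agent.MBK
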