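import Mathlib
import Pool.Agent.AWP.FROB
import Pool.Agent.CMX.COUNT
import Pool.Agent.CMTP.Field

set_option autoImplicit false

/-!
# Frobenius automorphisms over a number field
-/

namespace Pool.Agent.MBK

open NumberField Module
open Pool.Agent.CMT (QBar)

namespace FRL_

theorem frobM (L M : Type) [Field L] [NumberField L] [Field M] [NumberField M] [IsGalois ℚ M]
    [Algebra L M] (l : ℕ) (hl : l.Prime) (ρ : 𝓞 L →+* ZMod l) :
    ∃ (Q : Ideal (𝓞 M)) (_ : Q.IsPrime) (σ : M ≃+* M), (l : 𝓞 M) ∈ Q ∧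
      (∀ x : 𝓞 L, ρ x = 0 → algebraMap (𝓞 L) (𝓞 M) x ∈ Q) ∧
      ∀ x : 𝓞 M, ∃ x' : 𝓞 M, (x' : M) = σ x ∧ x' - x ^ l ∈ Q := by
  have hfact : Fact l.Prime := ⟨hl⟩
  set P : Ideal (𝓞 L) := RingHom.ker ρ with hP
  have hPp : P.IsPrime := RingHom.ker_isPrime ρ
  have hlP : (l : 𝓞 L) ∈ P := by
    rw [hP, RingHom.mem_ker, map_natCast, ZMod.natCast_self]
  have hP0 : P ≠ ⊥ := by
    intro h
    rw [h, Ideal.mem_bot] at hlP
    exact hl.ne_zero (by exact_mod_cast hlP)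
  have hPm : P.IsMaximal := hPp.isMaximal hP0
  obtain ⟨Q, hQm, hQ⟩ := Ideal.exists_maximal_ideal_liesOver_of_isIntegral P (S := 𝓞 M)
  have hPQ : ∀ x : 𝓞 L, ρ x = 0 → algebraMap (𝓞 L) (𝓞 M) x ∈ Q := by
    intro x hx
    have h1 : x ∈ Q.under (𝓞 L) := by
      rw [← hQ.over, hP, RingHom.mem_ker]
      exact hx
    rwa [Ideal.under_def, Ideal.mem_comap] at h1
  have hlQ : (l : 𝓞 M) ∈ Q := by
    have h1 := hPQ l (by rw [map_natCast, ZMod.natCast_self])
    rwa [map_natCast] at h1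
  have hfin : Finite (𝓞 M ⧸ Q) := Q.finiteQuotientOfFreeOfNeBot fun h => by
    rw [h, Ideal.mem_bot] at hlQ
    exact hl.ne_zero (by exact_mod_cast hlQ)
  have hund : Q.under ℤ = Ideal.span {(l : ℤ)} := by
    have hl0 : (l : ℤ) ≠ 0 := by exact_mod_cast hl.ne_zero
    have hPr : (Ideal.span {(l : ℤ)}).IsPrime :=
      (Ideal.span_singleton_prime hl0).2 (Nat.prime_iff_prime_int.1 hl)
    have hPmx : (Ideal.span {(l : ℤ)}).IsMaximal := hPr.isMaximal (by
      rw [Ne, Ideal.span_singleton_eq_bot]; exact hl0)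
    symm
    apply hPmx.eq_of_le
    · intro h
      have h1 : (1 : ℤ) ∈ Q.under ℤ := by rw [h]; trivial
      rw [Ideal.under_def, Ideal.mem_comap, map_one] at h1
      exact hQm.ne_top ((Ideal.eq_top_iff_one _).2 h1)
    · rw [Ideal.span_singleton_le_iff_mem, Ideal.under_def, Ideal.mem_comap]
      simpa using hlQ
  have hcard : Nat.card (ℤ ⧸ Q.under ℤ) = l := by
    rw [hund, Nat.card_congr (Int.quotientSpanNatEquivZMod l).toEquiv, Nat.card_zmod]
  have : Algebra.IsInvariant ℤ (𝓞 M) (𝓞 M ≃ₐ[ℤ] 𝓞 M) :=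
    Algebra.isInvariant_of_isGalois' ℤ ℚ M (𝓞 M)
  have : Finite (𝓞 M ≃ₐ[ℤ] 𝓞 M) :=
    Finite.of_equiv _ (galRestrict ℤ ℚ M (𝓞 M)).toEquiv
  obtain ⟨σ, hσ⟩ := IsArithFrobAt.exists_of_isInvariant ℤ (𝓞 M ≃ₐ[ℤ] 𝓞 M) Q
  refine ⟨Q, inferInstance, ((galRestrict ℤ ℚ M (𝓞 M)).symm σ).toRingEquiv, hlQ, hPQ,
    fun x => ⟨σ x, ?_, ?_⟩⟩
  · exact (galRestrict_symm_algebraMap_apply ℤ ℚ σ x).symm
  · have h1 := hσ x
    rw [hcard] at h1
    exact h1

theorem frobM' (L M : Type) [Field L] [NumberField L] [Field M] [CharZero M] [A : Algebra ℚ M]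
    [h1 : FiniteDimensional ℚ M] [h2 : IsGalois ℚ M] (j : L →+* M) (l : ℕ) (hl : l.Prime)
    (ρ : 𝓞 L →+* ZMod l) :
    ∃ (B k : Type) (_ : CommRing B) (_ : CommRing k) (_ : IsDomain k) (i : B →+* M) (r : B →+* k)
      (σ : M ≃+* M) (u : 𝓞 L →+* B), Function.Injective i ∧ (l : k) = 0 ∧
      (∀ x, i (u x) = j x) ∧ (∀ x, ρ x = 0 → r (u x) = 0) ∧
      (∀ s : M, IsIntegral ℤ s → ∃ x, i x = s) ∧
      ∀ x : B, ∃ x' : B, i x' = σ (i x) ∧ r x' = r x ^ l := by
  have e : A = DivisionRing.toRatAlgebra := Subsingleton.elim _ _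
  subst e
  have : NumberField M := { to_charZero := inferInstance, to_finiteDimensional := h1 }
  let _ : Algebra L M := j.toAlgebra
  obtain ⟨Q, hQ, σ, h3, h3', h4⟩ := frobM L M l hl ρ
  refine ⟨𝓞 M, 𝓞 M ⧸ Q, inferInstance, inferInstance, inferInstance, algebraMap (𝓞 M) M,
    Ideal.Quotient.mk Q, σ, algebraMap (𝓞 L) (𝓞 M), RingOfIntegers.coe_injective, ?_, ?_, ?_,
    ?_, ?_⟩
  · rw [← map_natCast (Ideal.Quotient.mk Q)]
    exact Ideal.Quotient.eq_zero_iff_mem.2 h3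
  · intro x
    rfl
  · intro x hx
    exact Ideal.Quotient.eq_zero_iff_mem.2 (h3' x hx)
  · intro s hs
    exact ⟨⟨s, hs⟩, rfl⟩
  · intro x
    obtain ⟨x', h5, h6⟩ := h4 x
    refine ⟨x', h5, ?_⟩
    rw [← map_pow]
    exact Ideal.Quotient.eq.2 h6

end FRL_

open FRL_ in
/-- **Frobenius automorphisms of the algebraic numbers over a number field `L`**, for a prime of
degree one of `L`, given by a homomorphism `ρ` to the field with `l` elements. -/
theorem frobL (L : Type) [Field L] [NumberField L] (j : L →+* QBar)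
    (hn : ∀ (τ : QBar ≃+* QBar) (x : L), ∃ y : L, j y = τ (j x)) (l : ℕ) (hl : l.Prime)
    (ρ : 𝓞 L →+* ZMod l)
    (hd : ∀ σ : L →+* L, ρ.comp (RingOfIntegers.mapRingHom σ) = ρ → σ = RingHom.id L)
    (S : Set QBar) (hS : S.Finite) (hSi : ∀ s ∈ S, IsIntegral ℤ s) :
    ∃ (B k : Type) (_ : CommRing B) (_ : CommRing k) (_ : IsDomain k) (i : B →+* QBar)
      (r : B →+* k) (ι : ZMod l →+* k) (u : 𝓞 L →+* B) (τ : QBar ≃+* QBar),
      Function.Injective i ∧ (∀ s ∈ S, ∃ x, i x = s) ∧ (∀ x, i (u x) = j x) ∧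
      (∀ x, r (u x) = ι (ρ x)) ∧ (∀ x : B, ∃ x' : B, i x' = τ (i x) ∧ r x' = r x ^ l) ∧
      ∀ x : L, τ (j x) = j x := by
  classical
  have hfact : Fact l.Prime := ⟨hl⟩
  have hal : Algebra.IsAlgebraic ℚ QBar := Pool.Agent.CMTP.isAlgebraic_QBar ℚ
  have : Normal ℚ QBar := normal_iff.2 fun x =>
    ⟨(Algebra.IsAlgebraic.isAlgebraic x).isIntegral, IsAlgClosed.splits _⟩
  have : Finite S := hS
  let K₁ : IntermediateField ℚ QBar := IntermediateField.adjoin ℚ S
  have hK₁ : FiniteDimensional ℚ K₁ :=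
    IntermediateField.finiteDimensional_adjoin fun x _ =>
      (Algebra.IsAlgebraic.isAlgebraic x).isIntegral
  let K₂ : IntermediateField ℚ QBar := (j.toRatAlgHom).fieldRange
  have hK₂ : FiniteDimensional ℚ K₂ :=
    Module.Finite.of_surjective (j.toRatAlgHom).rangeRestrict.toLinearMap
      (j.toRatAlgHom).rangeRestrict_surjective
  let K₀ : IntermediateField ℚ QBar := K₁ ⊔ K₂
  have hK₀ : FiniteDimensional ℚ K₀ := IntermediateField.finiteDimensional_sup K₁ K₂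
  let M := IntermediateField.normalClosure ℚ K₀ QBar
  have hfd : FiniteDimensional ℚ M := inferInstance
  have hnm : Normal ℚ M := normalClosure.normal ℚ K₀ QBar
  have hg : IsGalois ℚ M := { }
  have hK₀M : K₀ ≤ M := IntermediateField.le_normalClosure K₀
  obtain ⟨jM, hjM⟩ := CMX.COUNT_.exists_lift (algebraMap M QBar) j (fun x => by
    have h1 : j x ∈ K₂ := ⟨x, rfl⟩
    have h2 : j x ∈ M := hK₀M ((le_sup_right : K₂ ≤ K₀) h1)
    exact ⟨⟨j x, h2⟩, rfl⟩)
  obtain ⟨B, k, i1, i2, i3, i, r, σ, u, hi, hlk, hu, hr0, hs, hf⟩ := frobM' L M jM l hl ρ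
  have hL : Algebra.IsAlgebraic M QBar := inferInstance
  have : IsAlgClosure M QBar := ⟨inferInstance, inferInstance⟩
  let τ : QBar ≃+* QBar := IsAlgClosure.equivOfEquiv QBar QBar σ
  have hτ : ∀ x : M, τ (algebraMap M QBar x) = algebraMap M QBar (σ x) :=
    fun x => IsAlgClosure.equivOfEquiv_algebraMap QBar QBar σ x
  have hchar : CharP k l := AWP.FROB_.charP_of hl hlk
  let ι : ZMod l →+* k := ZMod.castHom (dvd_refl l) k
  have hru : ∀ x, r (u x) = ι (ρ x) := by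
    intro x
    obtain ⟨n, hn⟩ := ZMod.natCast_zmod_surjective (ρ x)
    have h1 : ρ (x - (n : 𝓞 L)) = 0 := by
      rw [map_sub, map_natCast, hn, sub_self]
    have h2 := hr0 _ h1
    rw [map_sub, map_sub, map_natCast, map_natCast, sub_eq_zero] at h2
    rw [h2, ← hn, map_natCast]
  have hff : ∀ x : B, ∃ x' : B, (algebraMap M QBar) (i x') = τ ((algebraMap M QBar) (i x)) ∧
      r x' = r x ^ l := by
    intro x
    obtain ⟨x', h1, h2⟩ := hf x
    refine ⟨x', ?_, h2⟩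
    rw [h1, hτ]
  have hinj : Function.Injective ((algebraMap M QBar).comp i) :=
    (algebraMap M QBar).injective.comp hi
  have huj : ∀ x, (algebraMap M QBar) (i (u x)) = j x := by
    intro x
    rw [hu, hjM]
  refine ⟨B, k, i1, i2, i3, (algebraMap M QBar).comp i, r, ι, u, τ, hinj, ?_, huj, hru, hff, ?_⟩
  · intro s hsS
    have h1 : s ∈ M := hK₀M ((le_sup_left : K₁ ≤ K₀) (IntermediateField.subset_adjoin ℚ S hsS))
    obtain ⟨x, hx⟩ := hs ⟨s, h1⟩ (by
      have h2 := hSi s hsS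
      exact (isIntegral_algHom_iff (IsScalarTower.toAlgHom ℤ M QBar)
        (algebraMap M QBar).injective).1 h2)
    refine ⟨x, ?_⟩
    rw [RingHom.comp_apply, hx]
    rfl
  · obtain ⟨g, hgj⟩ := CMX.COUNT_.exists_lift j ((τ : QBar →+* QBar).comp j) (fun x => hn τ x)
    have hgid : g = RingHom.id L := by
      apply hd
      ext x
      rw [RingHom.comp_apply]
      apply ι.injective
      obtain ⟨x', h1, h2⟩ := hff (u x)
      have h3 : x' = u (RingOfIntegers.mapRingHom g x) := by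
        apply hinj
        rw [RingHom.comp_apply, RingHom.comp_apply, h1, huj, huj]
        exact (hgj x).symm
      rw [h3, hru, hru, ← map_pow, ZMod.pow_card] at h2
      exact h2
    intro x
    have h4 := hgj x
    rw [hgid] at h4
    exact h4.symm

end Pool.Agent.MBK
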