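import Mathlib
import Pool.Agent.MBK.Targets
import Pool.Agent.CMX.DISTEQUI

set_option autoImplicit false

/-!
# All interchanges of two roots from three factorisation patterns
-/

namespace Pool.Agent.MBK

open NumberField Finset Module Polynomial
open Pool.Agent.CMT (QBar)
open Pool.Agent.AWP (poly)

namespace GRP_

theorem exists_lift {K L M : Type} [Field K] [Field L] [Field M] (j : L →+* M) (σ : K →+* M)
    (h : ∀ x, ∃ y, j y = σ x) : ∃ σ' : K →+* L, j.comp σ' = σ := by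
  choose f hf using h
  refine ⟨{ toFun := f, map_one' := ?_, map_mul' := ?_, map_zero' := ?_, map_add' := ?_ },
    RingHom.ext hf⟩
  · apply j.injective; rw [hf, map_one, map_one]
  · intro x y; apply j.injective; rw [hf, map_mul, map_mul, hf, hf]
  · apply j.injective; rw [hf, map_zero, map_zero]
  · intro x y; apply j.injective; rw [hf, map_add, map_add, hf, hf]

/-- Embeddings of `F` extend to `K`. -/
theorem exists_ext {F K : Type} [Field F] [NumberField F] [Field K] [NumberField K] [Algebra F K]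
    (σ : F →+* QBar) : ∃ φ : K →+* QBar, φ.comp (algebraMap F K) = σ := by
  let _ : Algebra F QBar := σ.toAlgebra
  have : Algebra.IsAlgebraic F K := Algebra.IsAlgebraic.tower_top (K := ℚ) F
  let f : K →ₐ[F] QBar := IsAlgClosed.lift
  exact ⟨f.toRingHom, f.comp_algebraMap⟩

theorem poly_monic {R : Type} [CommRing R] [Nontrivial R] {g : ℕ} (b : Fin g → R) :
    (poly b).Monic ∧ (poly b).natDegree = g := by
  unfold poly
  have hdeg : (∑ i : Fin g, C (b i) * X ^ (g - 1 - i.val)).degree < (g : WithBot ℕ) := by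
    by_cases hg : g = 0
    · subst hg
      simp
    · refine lt_of_le_of_lt (degree_sum_le _ _) ?_
      rw [Finset.sup_lt_iff (by simp)]
      intro i _
      refine lt_of_le_of_lt (degree_C_mul_X_pow_le _ _) ?_
      have := i.isLt
      exact_mod_cast (show g - 1 - i.val < g by omega)
  constructor
  · exact monic_X_pow_add hdeg
  · rw [natDegree_add_eq_left_of_degree_lt]
    · exact natDegree_X_pow g
    · rw [degree_X_pow]
      exact hdeg

theorem poly_map {R S : Type} [CommRing R] [CommRing S] (f : R →+* S) {g : ℕ} (b : Fin g → R) :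
    (poly b).map f = poly (fun i => f (b i)) := by
  unfold poly
  simp [Polynomial.map_sum]

/-- The automorphisms that fix all embeddings of `K`. -/
def Fixes (K : Type) [Field K] (g : QBar ≃+* QBar) : Prop :=
  ∀ (φ : K →+* QBar) (x : K), g (φ x) = φ x

theorem Fixes.symm {K : Type} [Field K] {g : QBar ≃+* QBar} (h : Fixes K g) :
    Fixes K g.symm := by
  intro φ x
  rw [RingEquiv.symm_apply_eq, h φ x]

theorem Fixes.trans {K : Type} [Field K] {g g' : QBar ≃+* QBar} (h : Fixes K g)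
    (h' : Fixes K g') : Fixes K (g.trans g') := by
  intro φ x
  rw [RingEquiv.trans_apply, h φ x, h' φ x]

theorem Fixes.iterate {K : Type} [Field K] {g : QBar ≃+* QBar} (h : Fixes K g) (n : ℕ) :
    ∃ g' : QBar ≃+* QBar, Fixes K g' ∧ ∀ x, g' x = g^[n] x := by
  induction n with
  | zero => exact ⟨RingEquiv.refl _, fun φ x => rfl, fun x => rfl⟩
  | succ n ih =>
    obtain ⟨g', h1, h2⟩ := ih
    refine ⟨g.trans g', h.trans h1, fun x => ?_⟩
    rw [RingEquiv.trans_apply, h2, Function.iterate_succ_apply]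

theorem root_map {F K : Type} [Field F] [NumberField F] [Field K] [NumberField K] [Algebra F K]
    {g : QBar ≃+* QBar} (hg : Fixes K g) (h : (𝓞 F)[X]) (σ : F →+* QBar) (β : QBar)
    (hβ : IsRt h σ β) : IsRt h σ (g β) := by
  obtain ⟨φ, hφ⟩ := exists_ext (K := K) σ
  have h1 : ∀ x : F, g (σ x) = σ x := by
    intro x
    rw [← hφ, RingHom.comp_apply]
    exact hg φ _
  unfold IsRt at hβ ⊢
  have h2 : ((g : QBar →+* QBar).comp (σ.comp (algebraMap (𝓞 F) F))) =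
      σ.comp (algebraMap (𝓞 F) F) := by
    ext x
    exact h1 _
  have h3 := congrArg (g : QBar →+* QBar) hβ
  rw [Polynomial.hom_eval₂, h2, map_zero] at h3
  exact h3

/-- The roots through an embedding of `L`. -/
theorem isRt_iff {F L : Type} [Field F] [Field L] (j : L →+* QBar) (σ : F →+* L) {N : ℕ}
    (c : Fin N → 𝓞 F) (β : QBar) :
    ((poly c).map (RingOfIntegers.mapRingHom σ)).eval₂ (j.comp (algebraMap (𝓞 L) L)) β = 0 ↔
      IsRt (poly c) (j.comp σ) β := by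
  unfold IsRt
  rw [Polynomial.eval₂_map]
  have : (j.comp (algebraMap (𝓞 L) L)).comp (RingOfIntegers.mapRingHom σ) =
      (j.comp σ).comp (algebraMap (𝓞 F) F) := by
    ext x
    rfl
  rw [this]

end GRP_

open GRP_ in
theorem p_GRP (h1 : T_FRBR) (h2 : T_SEPA) (h3 : T_ACT) : T_GRP := by
  classical
  intro F K L _ _ _ _ _ _ _ j hj N hN
  -- the bound for the primes
  have hD : ∀ σ τ : K →+* L, ∃ M : ℕ, σ ≠ τ → ∀ p : ℕ, p.Prime → M < p → ∀ ρ : 𝓞 L →+* ZMod p,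
      ρ.comp (RingOfIntegers.mapRingHom σ) ≠ ρ.comp (RingOfIntegers.mapRingHom τ) := by
    intro σ τ
    by_cases hne : σ ≠ τ
    · obtain ⟨M, hM⟩ := CMX.p_DIST K L σ τ hne
      exact ⟨M, fun _ => hM⟩
    · exact ⟨0, fun h => absurd h hne⟩
  choose M hM using hD
  refine ⟨∑ σ, ∑ τ, M σ τ + 1, ?_⟩
  intro c hc
  have hMle : ∀ σ τ, M σ τ ≤ ∑ σ, ∑ τ, M σ τ := by
    intro σ τ
    calc M σ τ ≤ ∑ τ, M σ τ := Finset.single_le_sum (f := fun τ => M σ τ)
          (fun _ _ => Nat.zero_le _) (Finset.mem_univ τ)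
      _ ≤ ∑ σ, ∑ τ, M σ τ := Finset.single_le_sum (f := fun σ => ∑ τ, M σ τ)
          (fun _ _ => Nat.zero_le _) (Finset.mem_univ σ)
  -- embeddings of `F`
  have hF : ∀ σ : F →+* QBar, ∃ σ' : F →+* L, j.comp σ' = σ := by
    intro σ
    obtain ⟨φ, hφ⟩ := exists_ext (K := K) σ
    apply exists_lift
    intro x
    obtain ⟨y, hy⟩ := hj φ (algebraMap F K x)
    exact ⟨y, by rw [hy, ← hφ, RingHom.comp_apply]⟩
  -- a Frobenius for every homomorphism
  have hfrob : ∀ p : ℕ, p.Prime → ∑ σ, ∑ τ, M σ τ + 1 ≤ p → ∀ ρ : 𝓞 L →+* ZMod p,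
      ∃ τ : QBar ≃+* QBar, Fixes K τ ∧
        ∀ σ : F →+* L, (poly (redc ρ c σ)).Separable →
          {β : QBar | IsRt (poly c) (j.comp σ) β}.ncard = N ∧
          (SplitD (poly (redc ρ c σ)) → ∀ β, IsRt (poly c) (j.comp σ) β → τ β = β) ∧
          (QuadSplit (poly (redc ρ c σ)) → ∃ β₁ β₂, IsRt (poly c) (j.comp σ) β₁ ∧
            IsRt (poly c) (j.comp σ) β₂ ∧ β₁ ≠ β₂ ∧ τ β₁ = β₂ ∧ τ β₂ = β₁ ∧
            ∀ β, IsRt (poly c) (j.comp σ) β → β ≠ β₁ → β ≠ β₂ → τ β = β) ∧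
          (LinIrr (poly (redc ρ c σ)) → ∃ β₀, IsRt (poly c) (j.comp σ) β₀ ∧ τ β₀ = β₀ ∧
            ∀ β β', IsRt (poly c) (j.comp σ) β → IsRt (poly c) (j.comp σ) β' → β ≠ β₀ →
              β' ≠ β₀ → ∃ n : ℕ, τ^[n] β = β') ∧
          (Irreducible (poly (redc ρ c σ)) → ∀ β β', IsRt (poly c) (j.comp σ) β →
            IsRt (poly c) (j.comp σ) β' → ∃ n : ℕ, τ^[n] β = β') := by
    intro p hp hpM ρ
    have : Fact p.Prime := ⟨hp⟩
    let g : (F →+* L) → (𝓞 L)[X] := fun σ => (poly c).map (RingOfIntegers.mapRingHom σ)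
    obtain ⟨τ, k, _, e, red, hτ1, hτ2⟩ := h1 L j p ρ (Finset.univ.image g) (by
      intro f hf
      obtain ⟨σ, _, rfl⟩ := Finset.mem_image.mp hf
      exact (poly_monic c).1.map _)
    have hfix : Fixes K τ := by
      intro φ x
      obtain ⟨φ', hφ'⟩ := exists_lift j φ (hj φ)
      obtain ⟨φ'', hφ''⟩ := exists_lift j ((τ : QBar →+* QBar).comp φ)
        (hj ((τ : QBar →+* QBar).comp φ))
      have heq : ρ.comp (RingOfIntegers.mapRingHom φ'') =
          ρ.comp (RingOfIntegers.mapRingHom φ') := by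
        ext a
        simp only [RingHom.comp_apply]
        apply hτ1
        show j (φ'' a) = τ (j (φ' a))
        have e1 : j (φ'' a) = τ (φ a) := RingHom.congr_fun hφ'' a
        have e2 : j (φ' a) = φ a := RingHom.congr_fun hφ' a
        rw [e1, e2]
      have hphi : φ'' = φ' := by
        by_contra hne
        have h4 := hMle φ'' φ'
        exact hM φ'' φ' hne p hp (by omega) ρ heq
      have e1 : j (φ'' x) = τ (φ x) := RingHom.congr_fun hφ'' x
      have e2 : j (φ' x) = φ x := RingHom.congr_fun hφ' x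
      rw [← e1, hphi, e2]
    refine ⟨τ, hfix, ?_⟩
    intro σ hsep
    have hgm : (g σ).map ρ = poly (redc ρ c σ) := by
      show ((poly c).map (RingOfIntegers.mapRingHom σ)).map ρ = _
      rw [Polynomial.map_map, poly_map]
      rfl
    obtain ⟨c1, c2, c3⟩ := hτ2 (g σ) (Finset.mem_image_of_mem _ (Finset.mem_univ σ))
      (by rw [hgm]; exact hsep)
    have hset : {β : QBar | (g σ).eval₂ (j.comp (algebraMap (𝓞 L) L)) β = 0} =
        {β : QBar | IsRt (poly c) (j.comp σ) β} := by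
      ext β
      exact isRt_iff j σ c β
    have hdeg : (g σ).natDegree = N := by
      show ((poly c).map (RingOfIntegers.mapRingHom σ)).natDegree = N
      rw [(poly_monic c).1.natDegree_map]
      exact (poly_monic c).2
    rw [hset, hdeg] at c1
    rw [hset] at c2
    have hpdeg : (poly (redc ρ c σ)).natDegree = N := (poly_monic _).2
    have hact := h3 p k e (poly (redc ρ c σ)) {β : QBar | IsRt (poly c) (j.comp σ) β} red τ
      (poly_monic _).1 (by rw [c1, hpdeg]) (Set.finite_of_ncard_pos (by omega)) c2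
      (fun β hβ => root_map (K := K) hfix (poly c) (j.comp σ) β hβ)
      (fun β hβ => by
        have := c3 β ((isRt_iff j σ c β).mpr hβ)
        rw [hgm] at this
        exact this)
    obtain ⟨a1, a2, a3, a4⟩ := hact
    refine ⟨c1, fun h β hβ => a1 h β hβ, fun h => ?_, fun h => ?_, fun h β β' hβ hβ' =>
      a4 h β hβ β' hβ'⟩
    · obtain ⟨β₁, b1, β₂, b2, b3, b4, b5, b6⟩ := a2 h
      exact ⟨β₁, β₂, b1, b2, b3, b4, b5, fun β hβ => b6 β hβ⟩
    · obtain ⟨β₀, b0, b1, b2⟩ := a3 h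
      exact ⟨β₀, b0, b1, fun β β' hβ hβ' => b2 β hβ β' hβ'⟩
  constructor
  · -- the number of roots
    intro σ
    obtain ⟨σ', rfl⟩ := hF σ
    obtain ⟨p, hp, hpM, ρ, hpat⟩ := hc 2 σ'
    have : Fact p.Prime := ⟨hp⟩
    have hirr := hpat.2.2 rfl
    obtain ⟨τ, _, hτ⟩ := hfrob p hp hpM ρ
    exact (hτ σ' (h2 p _ (Or.inr (Or.inr (Or.inr hirr))))).1
  · intro σ₀ x₁ x₂ hx₁ hx₂ hx
    obtain ⟨σ₀', rfl⟩ := hF σ₀
    -- the three automorphisms
    obtain ⟨τ₀, f0, a₁, a₂, r1, r2, r3, r4, r5, r6, r7⟩ : ∃ τ₀ : QBar ≃+* QBar, Fixes K τ₀ ∧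
        ∃ a₁ a₂, IsRt (poly c) (j.comp σ₀') a₁ ∧ IsRt (poly c) (j.comp σ₀') a₂ ∧ a₁ ≠ a₂ ∧
        τ₀ a₁ = a₂ ∧ τ₀ a₂ = a₁ ∧
        (∀ β, IsRt (poly c) (j.comp σ₀') β → β ≠ a₁ → β ≠ a₂ → τ₀ β = β) ∧
        (∀ (σ : F →+* QBar) (β : QBar), σ ≠ j.comp σ₀' → IsRt (poly c) σ β → τ₀ β = β) := by
      obtain ⟨p, hp, hpM, ρ, hpat⟩ := hc 0 σ₀'
      have : Fact p.Prime := ⟨hp⟩
      obtain ⟨hq, hs⟩ := hpat.1 rfl
      obtain ⟨τ, hfix, hτ⟩ := hfrob p hp hpM ρ
      obtain ⟨a₁, a₂, q1, q2, q3, q4, q5, q6⟩ :=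
        (hτ σ₀' (h2 p _ (Or.inr (Or.inl hq)))).2.2.1 hq
      refine ⟨τ, hfix, a₁, a₂, q1, q2, q3, q4, q5, q6, ?_⟩
      intro σ β hσ hβ
      obtain ⟨σ', rfl⟩ := hF σ
      have hne : σ' ≠ σ₀' := by
        rintro rfl
        exact hσ rfl
      exact (hτ σ' (h2 p _ (Or.inl (hs σ' hne)))).2.1 (hs σ' hne) β hβ
    obtain ⟨τ₁, f1, b₀, s1, s2, s3⟩ : ∃ τ₁ : QBar ≃+* QBar, Fixes K τ₁ ∧
        ∃ b₀, IsRt (poly c) (j.comp σ₀') b₀ ∧ τ₁ b₀ = b₀ ∧
        ∀ β β', IsRt (poly c) (j.comp σ₀') β → IsRt (poly c) (j.comp σ₀') β' → β ≠ b₀ →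
              β' ≠ b₀ → ∃ n : ℕ, τ₁^[n] β = β' := by
      obtain ⟨p, hp, hpM, ρ, hpat⟩ := hc 1 σ₀'
      have : Fact p.Prime := ⟨hp⟩
      have hq := hpat.2.1 rfl
      obtain ⟨τ, hfix, hτ⟩ := hfrob p hp hpM ρ
      obtain ⟨b₀, q1, q2, q3⟩ := (hτ σ₀' (h2 p _ (Or.inr (Or.inr (Or.inl hq))))).2.2.2.1 hq
      exact ⟨τ, hfix, b₀, q1, q2, q3⟩
    obtain ⟨τ₂, f2, t1⟩ : ∃ τ₂ : QBar ≃+* QBar, Fixes K τ₂ ∧
        ∀ β β', IsRt (poly c) (j.comp σ₀') β → IsRt (poly c) (j.comp σ₀') β' →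
          ∃ n : ℕ, τ₂^[n] β = β' := by
      obtain ⟨p, hp, hpM, ρ, hpat⟩ := hc 2 σ₀'
      have : Fact p.Prime := ⟨hp⟩
      have hq := hpat.2.2 rfl
      obtain ⟨τ, hfix, hτ⟩ := hfrob p hp hpM ρ
      exact ⟨τ, hfix, (hτ σ₀' (h2 p _ (Or.inr (Or.inr (Or.inr hq))))).2.2.2.2 hq⟩
    -- an automorphism that moves `a₁`, `a₂` to `x₁`, `x₂`
    obtain ⟨g, fg, g1, g2⟩ : ∃ g : QBar ≃+* QBar, Fixes K g ∧ g a₁ = x₁ ∧ g a₂ = x₂ := by
      obtain ⟨n, hn⟩ := t1 x₁ b₀ hx₁ s1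
      obtain ⟨n', hn'⟩ := t1 a₁ b₀ r1 s1
      obtain ⟨γ, fγ, hγ⟩ := f2.iterate n
      obtain ⟨α, fα, hα⟩ := f2.iterate n'
      have hγ1 : γ x₁ = b₀ := by rw [hγ, hn]
      have hα1 : α a₁ = b₀ := by rw [hα, hn']
      have hγ2 : γ x₂ ≠ b₀ := by
        rw [← hγ1]
        exact fun h => hx (γ.injective h).symm
      have hα2 : α a₂ ≠ b₀ := by
        rw [← hα1]
        exact fun h => r3 (α.injective h).symm
      obtain ⟨m, hm⟩ := s3 (α a₂) (γ x₂) (root_map (K := K) fα _ _ _ r2)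
        (root_map (K := K) fγ _ _ _ hx₂) hα2 hγ2
      obtain ⟨δ, fδ, hδ⟩ := f1.iterate m
      have hδ0 : δ b₀ = b₀ := by
        rw [hδ]
        exact Function.iterate_fixed s2 m
      refine ⟨(α.trans δ).trans γ.symm, (fα.trans fδ).trans fγ.symm, ?_, ?_⟩
      · rw [RingEquiv.trans_apply, RingEquiv.trans_apply, hα1, hδ0, RingEquiv.symm_apply_eq, hγ1]
      · rw [RingEquiv.trans_apply, RingEquiv.trans_apply, hδ, hm, RingEquiv.symm_apply_apply]
    have g1' : g.symm x₁ = a₁ := by rw [RingEquiv.symm_apply_eq, g1]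
    have g2' : g.symm x₂ = a₂ := by rw [RingEquiv.symm_apply_eq, g2]
    refine ⟨(g.symm.trans τ₀).trans g, (fg.symm.trans f0).trans fg, ?_, ?_, ?_⟩
    · rw [RingEquiv.trans_apply, RingEquiv.trans_apply, g1', r4, g2]
    · rw [RingEquiv.trans_apply, RingEquiv.trans_apply, g2', r5, g1]
    · intro σ β hβ hne
      rw [RingEquiv.trans_apply, RingEquiv.trans_apply]
      have hβ' : IsRt (poly c) σ (g.symm β) := root_map (K := K) fg.symm _ _ _ hβ
      have hτβ : τ₀ (g.symm β) = g.symm β := by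
        by_cases hσ : σ = j.comp σ₀'
        · obtain ⟨n1, n2⟩ := hne hσ
          subst hσ
          apply r6 _ hβ'
          · intro h
            apply n1
            rw [← g1, ← h, RingEquiv.apply_symm_apply]
          · intro h
            apply n2
            rw [← g2, ← h, RingEquiv.apply_symm_apply]
        · exact r7 σ _ hσ hβ'
      rw [hτβ, RingEquiv.apply_symm_apply]

end Pool.Agent.MBK
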