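import Mathlib
import Pool.Agent.MBK.Targets

set_option autoImplicit false
set_option linter.unusedSectionVars false

/-!
# Multiplication by a CM field: induced types and separation of the embeddings
-/

namespace Pool.Agent.MBK

open NumberField Finset Module Polynomial
open Pool.Agent.CMT (QBar)
open Pool.Agent.CMTP (NotInduced toPerm HG transitive toPerm_apply)
open scoped BigOperators

namespace IND_

/-- if embeddings are determined by their restrictions, the extension is trivial -/
theorem finrank_le_one {K K' : Type} [Field K] [NumberField K] [Field K'] [NumberField K']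
    [Algebra K K'] (h1 : ∀ ψ ψ' : K' →+* QBar,
      ψ.comp (algebraMap K K') = ψ'.comp (algebraMap K K') → ψ = ψ') : finrank K K' ≤ 1 := by
  classical
  have h0 : IsScalarTower ℚ K K' := IsScalarTower.of_algebraMap_eq' (Subsingleton.elim _ _)
  have hfin : Module.Finite K K' := Module.Finite.of_restrictScalars_finite ℚ K K'
  let φ0 : K' →+* QBar := ((IsAlgClosed.lift : K' →ₐ[ℚ] QBar) : K' →+* QBar)
  let alg : Algebra K QBar := (φ0.comp (algebraMap K K')).toAlgebra
  have h2 : Subsingleton (K' →ₐ[K] QBar) := ⟨fun a b => by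
    have h3 : (a : K' →+* QBar) = (b : K' →+* QBar) := by
      apply h1
      ext x
      exact (a.commutes x).trans (b.commutes x).symm
    exact AlgHom.coe_ringHom_injective h3⟩
  have h3 : Fintype.card (K' →ₐ[K] QBar) = Module.finrank K K' := AlgHom.card K K' QBar
  have h4 : Fintype.card (K' →ₐ[K] QBar) ≤ 1 := Fintype.card_le_one_iff_subsingleton.2 h2
  omega

/-- infinite Galois theory for subgroups which contain the stabilizer of an embedding -/
theorem galois_core {Ω K' : Type} [Field Ω] [Algebra ℚ Ω] [IsGalois ℚ Ω] [Field K'] [NumberField K']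
    (ψ : K' →ₐ[ℚ] Ω) (H : Subgroup Gal(Ω/ℚ)) (hH : ∀ u : Gal(Ω/ℚ), (∀ x, u (ψ x) = ψ x) → u ∈ H) :
    (∀ u : Gal(Ω/ℚ), (∀ x : K', (∀ v ∈ H, v (ψ x) = ψ x) → u (ψ x) = ψ x) → u ∈ H) := by
  have hfd : FiniteDimensional ℚ ψ.fieldRange :=
    LinearEquiv.finiteDimensional (AlgEquiv.ofInjectiveField ψ).toLinearEquiv
  have h1 : ψ.fieldRange.fixingSubgroup ≤ H := by
    intro u hu
    apply hH
    intro x
    exact (mem_fixingSubgroup_iff _).1 hu (ψ x) ⟨x, rfl⟩
  have h2 : IsOpen (H : Set Gal(Ω/ℚ)) :=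
    Subgroup.isOpen_mono h1 (IntermediateField.fixingSubgroup_isOpen _)
  have h3 : IsClosed (H : Set Gal(Ω/ℚ)) := Subgroup.isClosed_of_isOpen H h2
  have h4 := InfiniteGalois.fixingSubgroup_fixedField (⟨H, h3⟩ : ClosedSubgroup Gal(Ω/ℚ))
  have h5 : (IntermediateField.fixedField H).fixingSubgroup = H := h4
  have h6 : IntermediateField.fixedField H ≤ ψ.fieldRange := by
    have h7 := InfiniteGalois.fixedField_fixingSubgroup ψ.fieldRange
    rw [← h7]
    exact IntermediateField.fixedField_antitone h1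
  intro u hu
  rw [← h5]
  apply (mem_fixingSubgroup_iff _).2
  intro y hy
  obtain ⟨x, hx⟩ := h6 hy
  have hx' : ψ x = y := hx
  rw [AlgEquiv.smul_def, ← hx']
  apply hu
  intro v hv
  rw [hx']
  exact (IntermediateField.mem_fixedField_iff _ _).1 hy v hv

theorem isGalois_closure (k : Type) [Field k] [CharZero k] : IsGalois k (AlgebraicClosure k) :=
  IsAlgClosure.isGalois k (AlgebraicClosure k)

theorem isGalois_QBar : IsGalois ℚ QBar := by
  have e : (AlgebraicClosure.instAlgebra ℚ : Algebra ℚ (AlgebraicClosure ℚ)) =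
      (DivisionRing.toRatAlgebra : Algebra ℚ QBar) := Subsingleton.elim _ _
  have h := isGalois_closure ℚ
  rw [e] at h
  exact h

/-- transitivity of the automorphisms on the embeddings -/
theorem trans' {K' : Type} [Field K'] [NumberField K'] (ψ φ : K' →+* QBar) :
    ∃ t : Gal(QBar/ℚ), ∀ x, t (ψ x) = φ x := by
  obtain ⟨_, ⟨τ, rfl⟩, h⟩ := transitive K' ψ φ
  refine ⟨AlgEquiv.ofRingEquiv (f := τ) (fun r => ?_), fun x => ?_⟩
  · rw [eq_ratCast (algebraMap ℚ QBar) r]
    exact map_ratCast τ r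
  · rw [← h]
    rfl

/-- the stabilizer of the class of the embedding `ψ` -/
def stab {K' : Type} [Field K'] (Φ : Finset (K' →+* QBar)) (ψ : K' →+* QBar) :
    Subgroup Gal(QBar/ℚ) where
  carrier := {u | ∀ τ : QBar ≃+* QBar,
    ((τ : QBar →+* QBar).comp (((u : QBar ≃+* QBar) : QBar →+* QBar).comp ψ) ∈ Φ ↔
      (τ : QBar →+* QBar).comp ψ ∈ Φ)}
  one_mem' := fun τ => Iff.rfl
  mul_mem' := by
    intro u v hu hv τ
    exact (hv ((u : QBar ≃+* QBar).trans τ)).trans (hu τ)
  inv_mem' := by
    intro u hu τ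
    have h1 := hu (((u⁻¹ : Gal(QBar/ℚ)) : QBar ≃+* QBar).trans τ)
    refine h1.symm.trans ?_
    have h2 : ((((u⁻¹ : Gal(QBar/ℚ)) : QBar ≃+* QBar).trans τ : QBar ≃+* QBar) :
        QBar →+* QBar).comp (((u : QBar ≃+* QBar) : QBar →+* QBar).comp ψ) =
        (τ : QBar →+* QBar).comp ψ := by
      ext x
      change τ (u⁻¹ (u (ψ x))) = τ (ψ x)
      rw [AlgEquiv.aut_inv, AlgEquiv.symm_apply_apply]
    rw [h2]

theorem separating_of_notInduced {K' : Type} [Field K'] [NumberField K']
    {Φ : Finset (K' →+* QBar)} (hNI : NotInduced Φ) : Separating Φ := by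
  intro ψ ψ' h
  have hgal : IsGalois ℚ QBar := isGalois_QBar
  let ψA : K' →ₐ[ℚ] QBar := ψ.toRatAlgHom
  have hψA : ∀ x, ψA x = ψ x := fun x => rfl
  let H := stab Φ ψ
  have hH : ∀ u : Gal(QBar/ℚ), (∀ x, u (ψA x) = ψA x) → u ∈ H := by
    intro u hu τ
    have h1 : ((u : QBar ≃+* QBar) : QBar →+* QBar).comp ψ = ψ := by
      ext x
      exact hu x
    rw [h1]
  have hcore := galois_core ψA H hH
  let F : IntermediateField ℚ K' := (IntermediateField.fixedField H).comap ψA
  have hF : ∀ x, x ∈ F ↔ ∀ v ∈ H, v (ψA x) = ψA x := by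
    intro x
    exact IntermediateField.mem_fixedField_iff _ _
  have htop : F = ⊤ := by
    apply hNI
    intro φ φ' hφ
    obtain ⟨t, ht⟩ := trans' ψ φ
    obtain ⟨t', ht'⟩ := trans' ψ φ'
    have hu : t⁻¹ * t' ∈ H := by
      apply hcore
      intro x hx
      have h1 : x ∈ F := (hF x).2 hx
      change t⁻¹ (t' (ψ x)) = ψ x
      rw [ht', ← hφ x h1, ← ht, AlgEquiv.aut_inv, AlgEquiv.symm_apply_apply]
    have h2 := hu (t : QBar ≃+* QBar)
    have h3 : ((t : QBar ≃+* QBar) : QBar →+* QBar).comp ψ = φ := by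
      ext x
      exact ht x
    have h4 : ((t : QBar ≃+* QBar) : QBar →+* QBar).comp
        ((((t⁻¹ * t' : Gal(QBar/ℚ)) : QBar ≃+* QBar) : QBar →+* QBar).comp ψ) = φ' := by
      ext x
      change t (t⁻¹ (t' (ψ x))) = φ' x
      rw [ht', AlgEquiv.aut_inv, AlgEquiv.apply_symm_apply]
    rw [h3, h4] at h2
    exact h2.symm
  obtain ⟨s, hs⟩ := trans' ψ ψ'
  have hsψ : ((s : QBar ≃+* QBar) : QBar →+* QBar).comp ψ = ψ' := by
    ext x
    exact hs x
  have hsH : s ∈ H := by
    intro τ
    rw [hsψ]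
    exact (h τ).symm
  ext x
  have h1 : x ∈ F := by rw [htop]; exact IntermediateField.mem_top
  rw [← hs x]
  exact ((hF x).1 h1 s hsH).symm

theorem notInduced_of_separating {K' : Type} [Field K'] [NumberField K']
    {Φ : Finset (K' →+* QBar)} (hS : Separating Φ) : NotInduced Φ := by
  intro F hF
  have h1 : finrank F K' ≤ 1 := by
    apply finrank_le_one
    intro ψ ψ' h
    apply hS
    intro τ
    apply hF
    intro x hx
    have h2 := RingHom.congr_fun h ⟨x, hx⟩
    change τ (ψ x) = τ (ψ' x)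
    exact congrArg τ h2
  have h5 : 0 < Module.finrank F K' := Module.finrank_pos
  rw [← IntermediateField.finrank_eq_one_iff_eq_top]
  omega

end IND_

theorem p_IND : T_IND := by
  refine ⟨fun K' _ _ Φ => ⟨IND_.separating_of_notInduced, IND_.notInduced_of_separating⟩, ?_⟩
  intro K K' _ _ _ _ _ Φ h2 hS
  by_contra hN
  have h1 : finrank K K' ≤ 1 := by
    apply IND_.finrank_le_one
    intro ψ ψ' h
    have key : ∀ a b : K' →+* QBar, a.comp (algebraMap K K') = b.comp (algebraMap K K') →
        a ∈ Φ → b ∈ Φ := by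
      intro a b hab ha
      by_contra hb
      exact hN ⟨a, b, hab, ha, hb⟩
    apply hS
    intro τ
    have h3 : ((τ : QBar →+* QBar).comp ψ).comp (algebraMap K K') =
        ((τ : QBar →+* QBar).comp ψ').comp (algebraMap K K') := by
      rw [RingHom.comp_assoc, h, RingHom.comp_assoc]
    exact ⟨key _ _ h3, key _ _ h3.symm⟩
  omega

end Pool.Agent.MBK
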