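import Mathlib
import Pool.Agent.MBK.Targets

set_option autoImplicit false
set_option linter.unusedSectionVars false
set_option linter.unusedVariables false

/-!
# The main theorem from the targets
-/

namespace Pool.Agent.MBK

open NumberField Finset Module Polynomial
open Pool.Agent.CMT (QBar IsCMType TateWeight Divisorial TateByDivisors cc)
open Pool.Agent.CMTP (NotInduced)
open Pool.Agent.AWP (poly)
open scoped BigOperators

namespace MAIN_

theorem poly_monic {R : Type} [CommRing R] {g : ℕ} (b : Fin g → R) : (poly b).Monic := by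
  nontriviality R
  unfold poly
  rcases Nat.eq_zero_or_pos g with h | h
  · subst h
    simp
  apply monic_X_pow_add
  refine mem_degreeLT.1 (Submodule.sum_mem _ fun i _ => mem_degreeLT.2 ?_)
  refine lt_of_le_of_lt (degree_C_mul_X_pow_le _ _) ?_
  have : g - 1 - i.val < g := by omega
  exact_mod_cast this

theorem poly_natDegree {R : Type} [CommRing R] [Nontrivial R] {g : ℕ} (b : Fin g → R) :
    (poly b).natDegree = g := by
  unfold poly
  rcases Nat.eq_zero_or_pos g with h | h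
  · subst h
    simp
  apply natDegree_eq_of_degree_eq_some
  rw [degree_add_eq_left_of_degree_lt, degree_X_pow]
  rw [degree_X_pow]
  refine mem_degreeLT.1 (Submodule.sum_mem _ fun i _ => mem_degreeLT.2 ?_)
  refine lt_of_le_of_lt (degree_C_mul_X_pow_le _ _) ?_
  have : g - 1 - i.val < g := by omega
  exact_mod_cast this

/-- a polynomial with all interchanges of roots is good -/
theorem good_of_swaps (hCMF : T_CMF) (hDEG : T_DEG) (hHSW : T_HSW) (hWEIL : T_WEIL)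
    (hFULL : T_FULL) (hCONV : T_CONV) (hIND : T_IND) (hCNT : T_CNT) {F K : Type} [Field F]
    [NumberField F] [IsTotallyReal F] [Field K] [NumberField K] [IsCMField K] [Algebra F K]
    (h2 : finrank F K = 2) {N : ℕ} (hN : 2 ≤ N) (h : (𝓞 F)[X]) (hm : h.Monic)
    (hd : h.natDegree = N) (hr : TotReal h) (hs : RootSwaps F K N h) : Good F K N h := by
  classical
  intro K' _ _ _ θ hθ hθ'
  have hdeg : finrank K K' = N := hDEG F K K' N h hm hd hs θ hθ hθ'
  obtain ⟨hCM, hcc, hcompat⟩ := hCMF F K K' h2 h hm hr θ hθ hθ'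
  have hsw : HasSwaps K K' := hHSW F K K' h2 hcompat N h hs θ hθ hθ' hcc
  have hiff : ∀ Φ : Finset (K' →+* QBar), IsCMType K' Φ →
      ((NotInduced Φ ∧ TateByDivisors Φ) ↔ (NotFrom K Φ ∧ FullSig K Φ)) := by
    intro Φ hΦ
    constructor
    · rintro ⟨h3, h4⟩
      have h5 := (hIND.1 K' Φ).1 h3
      exact ⟨hIND.2 K K' Φ (by rw [hdeg]; exact hN) h5, hCONV K K' hcompat Φ hΦ h5 h4⟩
    · rintro ⟨h3, h4⟩
      obtain ⟨h5, h6⟩ := hFULL K K' hcompat hsw Φ hΦ h3 h4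
      exact ⟨(hIND.1 K' Φ).2 h5, h6⟩
  have hQ : finrank ℚ K = 2 * finrank ℚ F := by
    rw [← Module.finrank_mul_finrank ℚ F K, h2, mul_comm]
  obtain ⟨hc1, hc2, hc3⟩ := hCNT K K' N (finrank ℚ F) hcompat hQ hdeg
  refine ⟨hdeg, hCM, fun Φ hΦ => ⟨fun h3 => hWEIL K K' hcompat hsw Φ hΦ h3, hiff Φ hΦ⟩, hc1, ?_⟩
  let f : {Φ : Finset (K' →+* QBar) // IsCMType K' Φ ∧ ¬ (NotInduced Φ ∧ TateByDivisors Φ)} →
      {Φ : Finset (K' →+* QBar) // IsCMType K' Φ ∧ ¬ FullSig K Φ} ⊕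
      {Φ : Finset (K' →+* QBar) // IsCMType K' Φ ∧ ¬ NotFrom K Φ} := fun Φ =>
    if h3 : FullSig K Φ.1 then
      Sum.inr ⟨Φ.1, Φ.2.1, fun h4 => Φ.2.2 ((hiff Φ.1 Φ.2.1).2 ⟨h4, h3⟩)⟩
    else Sum.inl ⟨Φ.1, Φ.2.1, h3⟩
  have hf : Function.Injective f := by
    intro Φ Ψ hfe
    simp only [f] at hfe
    split_ifs at hfe with h3 h4 h4
    · have h5 := Sum.inr_injective hfe
      exact Subtype.ext (congrArg (fun x : {Φ : Finset (K' →+* QBar) // IsCMType K' Φ ∧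
        ¬ NotFrom K Φ} => x.1) h5)
    · have h5 := Sum.inl_injective hfe
      exact Subtype.ext (congrArg (fun x : {Φ : Finset (K' →+* QBar) // IsCMType K' Φ ∧
        ¬ FullSig K Φ} => x.1) h5)
  calc _ ≤ Nat.card ({Φ : Finset (K' →+* QBar) // IsCMType K' Φ ∧ ¬ FullSig K Φ} ⊕
        {Φ : Finset (K' →+* QBar) // IsCMType K' Φ ∧ ¬ NotFrom K Φ}) :=
        Nat.card_le_card_of_injective f hf
    _ = Nat.card {Φ : Finset (K' →+* QBar) // IsCMType K' Φ ∧ ¬ FullSig K Φ} +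
        Nat.card {Φ : Finset (K' →+* QBar) // IsCMType K' Φ ∧ ¬ NotFrom K Φ} := Nat.card_sum
    _ ≤ _ := Nat.add_le_add hc2 hc3

end MAIN_

open MAIN_ in
theorem p_MAIN (hALM : T_ALM) (hREAL : T_REAL) (hCMF : T_CMF) (hDEG : T_DEG) (hHSW : T_HSW)
    (hWEIL : T_WEIL) (hFULL : T_FULL) (hCONV : T_CONV) (hIND : T_IND) (hCNT : T_CNT) :
    T_MAIN := by
  classical
  intro F K ι _ _ _ _ _ _ _ _ b h2 N hN ε hε
  obtain ⟨c, hc, H₁, h1⟩ := hREAL F ι b N hN
  obtain ⟨H₂, h3⟩ := hALM F K ι b N hN (ε * c) (mul_pos hε hc)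
  refine ⟨H₁ + H₂, fun H hH => ?_⟩
  have hfin : {x : Fin N × ι → ℤ | ∀ i, |x i| ≤ H}.Finite := by
    refine (Set.finite_Icc (fun _ => -(H : ℤ)) (fun _ => (H : ℤ))).subset fun x hx => ?_
    rw [Set.mem_Icc]
    exact ⟨fun i => (abs_le.1 (hx i)).1, fun i => (abs_le.1 (hx i)).2⟩
  have hfB : (Box b N H).Finite := hfin.subset fun x hx => hx.1
  have h4 : c * (2 * H + 1 : ℝ) ^ (N * Fintype.card ι) ≤ ((Box b N H).ncard : ℕ) :=
    h1 H (by omega)
  refine ⟨hfB, ?_, ?_⟩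
  · have h5 : (0 : ℝ) < ((Box b N H).ncard : ℕ) := lt_of_lt_of_le (by positivity) h4
    exact_mod_cast h5
  · have h5 : (({x ∈ Box b N H | ¬ Good F K N (hpoly b x)}.ncard : ℕ) : ℝ) ≤
        (({x : Fin N × ι → ℤ | (∀ i, |x i| ≤ H) ∧ ¬ RootSwaps F K N (hpoly b x)}.ncard : ℕ) :
          ℝ) := by
      refine Nat.cast_le.2 (Set.ncard_le_ncard ?_ (hfin.subset fun x hx => hx.1))
      rintro x ⟨hx1, hx2⟩
      exact ⟨hx1.1, fun h6 => hx2 (good_of_swaps hCMF hDEG hHSW hWEIL hFULL hCONV hIND hCNT h2 hN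
        _ (poly_monic _) (poly_natDegree _) hx1.2 h6)⟩
    calc _ ≤ _ := h5
      _ ≤ ε * c * (2 * H + 1 : ℝ) ^ (N * Fintype.card ι) := h3 H (by omega)
      _ = ε * (c * (2 * H + 1 : ℝ) ^ (N * Fintype.card ι)) := by ring
      _ ≤ ε * ((Box b N H).ncard : ℕ) := mul_le_mul_of_nonneg_left h4 hε.le

end Pool.Agent.MBK
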