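import Mathlib
import Pool.Agent.MBK.DefsUp
import Pool.Agent.MBK.CONST
import Pool.Agent.FFT.NORM

set_option autoImplicit false
set_option linter.unusedSectionVars false

/-!
# Multiplication by a CM field: relations between the conjugates of a Weil number
-/

namespace Pool.Agent.MBK

open NumberField Finset Module Polynomial
open Pool.Agent.CMT (QBar IsCMType cc cc_cc comp_cc)
open Pool.Agent.CMTP (cc_ne)
open Pool.Agent.FFT (IsWeil)
open Pool.Agent.OneRed (Rep Coh NoRelation)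
open scoped BigOperators

namespace WNUM_

open FULL_ CONST_

variable {K K' : Type} [Field K] [NumberField K] [IsCMField K] [Field K'] [NumberField K']
  [IsCMField K'] [Algebra K K']

theorem pi_ne_zero {π : K'} (hNP : NoPower K π) : π ≠ 0 := by
  rintro rfl
  exact hNP 1 one_pos ⟨0, by simp⟩

theorem mul_cc {q : ℕ} {π : K'} (hW : IsWeil q π) (ψ : K' →+* QBar) :
    ψ π * (cc ψ) π = (q : QBar) := by
  show ψ π * ψ (IsCMField.complexConj K' π) = q
  rw [← map_mul, hW.2, map_natCast]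

theorem pow_of_zpow {x y : QBar} (hx : x ≠ 0) {n : ℤ} (hn : n ≠ 0)
    (h : (y / x) ^ n = 1) : ∃ L : ℕ, 0 < L ∧ x ^ L = y ^ L := by
  refine ⟨n.natAbs, Int.natAbs_pos.2 hn, ?_⟩
  have h1 : (y / x) ^ n.natAbs = 1 := by
    rcases Int.natAbs_eq n with h2 | h2
    · rw [h2, zpow_natCast] at h
      exact h
    · rw [h2, zpow_neg, zpow_natCast, inv_eq_one] at h
      exact h
  rw [div_pow, div_eq_one_iff_eq (pow_ne_zero _ hx)] at h1
  exact h1.symm

/-- the interchange of two embeddings applied to an odd relation -/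
theorem swap_rel {q : ℕ} {π : K'} (hπ : π ≠ 0) (hW : IsWeil q π) (hcc : CCompat K K')
    (hsw : HasSwaps K K') (f : (K' →+* QBar) → ℤ) (hodd : ∀ ψ, f (cc ψ) = - f ψ)
    (hprod : ∏ ψ : K' →+* QBar, (ψ π) ^ f ψ = 1) (ψ₁ ψ₂ : K' →+* QBar)
    (hr : ψ₁.comp (algebraMap K K') = ψ₂.comp (algebraMap K K')) (hne12 : f ψ₁ ≠ f ψ₂) :
    ∃ L : ℕ, 0 < L ∧ (ψ₁ π) ^ L = (ψ₂ π) ^ L := by
  classical
  have h12 : ψ₁ ≠ ψ₂ := by
    rintro rfl
    exact hne12 rfl
  obtain ⟨t, ht1, ht2, ht3⟩ := hsw ψ₁ ψ₂ h12 hr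
  have h0 : ∀ ψ : K' →+* QBar, ψ π ≠ 0 := fun ψ => (map_ne_zero ψ).2 hπ
  have hτ : ∏ ψ : K' →+* QBar, (t (ψ π)) ^ f ψ = 1 := by
    have h1 := congrArg t hprod
    rw [map_one, map_prod] at h1
    rw [← h1]
    exact Finset.prod_congr rfl fun ψ _ => (map_zpow₀ t _ _).symm
  set d : (K' →+* QBar) → QBar := fun ψ => t (ψ π) / ψ π with hd
  have hdprod : ∏ ψ : K' →+* QBar, d ψ ^ f ψ = 1 := by
    have h1 : ∏ ψ : K' →+* QBar, d ψ ^ f ψ =
        (∏ ψ : K' →+* QBar, (t (ψ π)) ^ f ψ) / ∏ ψ : K' →+* QBar, (ψ π) ^ f ψ := by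
      rw [← Finset.prod_div_distrib]
      exact Finset.prod_congr rfl fun ψ _ => div_zpow _ _ _
    rw [h1, hτ, hprod, div_one]
  have hne : ∀ ψ ψ' : K' →+* QBar, ψ.comp (algebraMap K K') = ψ'.comp (algebraMap K K') →
      ψ' ≠ cc ψ := by
    intro ψ ψ' h h4
    have h5 := hcc ψ
    rw [← h4, h] at h5
    exact cc_ne _ h5.symm
  have e1 : ψ₁ ≠ cc ψ₁ := hne _ _ rfl
  have e2 : ψ₁ ≠ cc ψ₂ := hne _ _ hr.symm
  have e3 : ψ₂ ≠ cc ψ₁ := hne _ _ hr
  have e4 : ψ₂ ≠ cc ψ₂ := hne _ _ rfl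
  have e5 : cc ψ₁ ≠ cc ψ₂ := by
    intro h
    apply h12
    rw [← cc_cc ψ₁, h, cc_cc]
  have hap : ∀ {ψ ψ' : K' →+* QBar}, (t : QBar →+* QBar).comp ψ = ψ' → t (ψ π) = ψ' π :=
    fun h => RingHom.congr_fun h π
  have hd1 : d ψ₁ = ψ₂ π / ψ₁ π := by
    rw [hd]
    simp only
    rw [hap ht1]
  have hd2 : d ψ₂ = ψ₁ π / ψ₂ π := by
    rw [hd]
    simp only
    rw [hap ht2]
  have hq : (q : QBar) ≠ 0 := by
    rw [← mul_cc hW ψ₁]
    exact mul_ne_zero (h0 _) (h0 _)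
  have hccv : ∀ ψ : K' →+* QBar, (cc ψ) π = q / ψ π := by
    intro ψ
    rw [eq_div_iff (h0 ψ), mul_comm]
    exact mul_cc hW ψ
  have ht1' : (t : QBar →+* QBar).comp (cc ψ₁) = cc ψ₂ := by rw [comp_cc, ht1]
  have ht2' : (t : QBar →+* QBar).comp (cc ψ₂) = cc ψ₁ := by rw [comp_cc, ht2]
  have hd3 : d (cc ψ₁) = ψ₁ π / ψ₂ π := by
    rw [hd]
    simp only
    rw [hap ht1', hccv, hccv]
    field_simp [h0 ψ₁, h0 ψ₂]
  have hd4 : d (cc ψ₂) = ψ₂ π / ψ₁ π := by
    rw [hd]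
    simp only
    rw [hap ht2', hccv, hccv]
    field_simp [h0 ψ₁, h0 ψ₂]
  have hd0 : ∀ ψ, ψ ≠ ψ₁ → ψ ≠ ψ₂ → ψ ≠ cc ψ₁ → ψ ≠ cc ψ₂ → d ψ = 1 := by
    intro ψ h1 h2 h3 h4
    rw [hd]
    simp only
    rw [hap (ht3 ψ h1 h2 h3 h4), div_self (h0 ψ)]
  have hfour : ∏ ψ : K' →+* QBar, d ψ ^ f ψ =
      ∏ ψ ∈ ({ψ₁, ψ₂, cc ψ₁, cc ψ₂} : Finset (K' →+* QBar)), d ψ ^ f ψ := by
    symm
    refine Finset.prod_subset (Finset.subset_univ _) ?_
    intro ψ _ hψ
    simp only [Finset.mem_insert, Finset.mem_singleton, not_or] at hψ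
    rw [hd0 ψ hψ.1 hψ.2.1 hψ.2.2.1 hψ.2.2.2, one_zpow]
  rw [hfour, Finset.prod_insert (by simp [h12, e1, e2]), Finset.prod_insert (by simp [e3, e4]),
    Finset.prod_insert (by simp [e5]), Finset.prod_singleton, hd1, hd2, hd3, hd4, hodd, hodd]
    at hdprod
  have hz : ψ₂ π / ψ₁ π ≠ 0 := div_ne_zero (h0 _) (h0 _)
  have hinv : ψ₁ π / ψ₂ π = (ψ₂ π / ψ₁ π)⁻¹ := (inv_div _ _).symm
  have hdp : (ψ₂ π / ψ₁ π) ^ (2 * (f ψ₁ - f ψ₂)) = 1 := by
    rw [← hdprod, hinv, inv_zpow', inv_zpow', ← zpow_add₀ hz, ← zpow_add₀ hz, ← zpow_add₀ hz]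
    congr 1
    ring
  exact pow_of_zpow (h0 _) (by omega) hdp

/-- if all embeddings above the same embedding of `K` agree on `y`, then `y` lies in `K` -/
theorem mem_range_of_agree {y : K'} (h : ∀ ψ ψ' : K' →+* QBar,
    ψ.comp (algebraMap K K') = ψ'.comp (algebraMap K K') → ψ y = ψ' y) :
    y ∈ (algebraMap K K').range := by
  classical
  obtain ⟨ψ₀⟩ : Nonempty (K' →+* QBar) := inferInstance
  let _ := (ψ₀.comp (algebraMap K K')).toAlgebra
  have h0 : IsScalarTower ℚ K K' := IsScalarTower.of_algebraMap_eq' (Subsingleton.elim _ _)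
  have h1 : Algebra.IsAlgebraic K K' := Algebra.IsAlgebraic.tower_top (K := ℚ) K
  have hr := h1.range_eval_eq_rootSet_minpoly QBar y
  have hint : IsIntegral K y := Algebra.IsIntegral.isIntegral y
  have hs : (Set.range fun ψ : K' →ₐ[K] QBar => ψ y) = {ψ₀ y} := by
    ext z
    rw [Set.mem_range, Set.mem_singleton_iff]
    constructor
    · rintro ⟨ψ, rfl⟩
      refine h (ψ : K' →+* QBar) ψ₀ ?_
      ext x
      exact ψ.commutes x
    · intro hz
      refine ⟨{ ψ₀ with commutes' := fun x => rfl }, ?_⟩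
      rw [hz]
      rfl
  rw [hs] at hr
  have hsep : (minpoly K y).Separable := (Algebra.IsSeparable.isSeparable K y)
  have hcard := Polynomial.card_rootSet_eq_natDegree (K := QBar) hsep (IsAlgClosed.splits _)
  have h2 : (minpoly K y).natDegree = 1 := by
    rw [← hcard, ← Nat.card_eq_fintype_card, ← hr]
    simp
  exact minpoly.natDegree_eq_one_iff.1 h2

/-- an odd relation is constant on the fibres over the embeddings of `K` -/
theorem const_w {q : ℕ} {π : K'} (hNP : NoPower K π) (hW : IsWeil q π) (hcc : CCompat K K')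
    (hsw : HasSwaps K K') (f : (K' →+* QBar) → ℤ) (hodd : ∀ ψ, f (cc ψ) = - f ψ)
    (hprod : ∏ ψ : K' →+* QBar, (ψ π) ^ f ψ = 1) (ψ₁ ψ₂ : K' →+* QBar)
    (hr : ψ₁.comp (algebraMap K K') = ψ₂.comp (algebraMap K K')) : f ψ₁ = f ψ₂ := by
  by_contra hne
  have h12 : ψ₁ ≠ ψ₂ := by
    rintro rfl
    exact hne rfl
  obtain ⟨L, hL, h1⟩ := swap_rel (pi_ne_zero hNP) hW hcc hsw f hodd hprod ψ₁ ψ₂ hr hne
  apply hNP L hL
  apply mem_range_of_agree
  intro ψ₁' ψ₂' hr'
  by_cases h12' : ψ₁' = ψ₂'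
  · rw [h12']
  obtain ⟨g, hg1, hg2⟩ := move hcc hsw ψ₁ ψ₂ ψ₁' ψ₂' h12 h12' hr hr'
  have e1 : ψ₁' π = g (ψ₁ π) := (RingHom.congr_fun hg1 π).symm
  have e2 : ψ₂' π = g (ψ₂ π) := (RingHom.congr_fun hg2 π).symm
  have h2 := congrArg g h1
  rw [map_pow, map_pow] at h2
  rw [map_pow, map_pow, e1, e2]
  exact h2

open Classical in
/-- the number of the embeddings above a given one -/
theorem card_fiber (φ : K →+* QBar) :
    (Finset.univ.filter (fun ψ : K' →+* QBar => ψ.comp (algebraMap K K') = φ)).card =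
      finrank K K' := by
  classical
  let _ := φ.toAlgebra
  have h0 : IsScalarTower ℚ K K' := IsScalarTower.of_algebraMap_eq' (Subsingleton.elim _ _)
  have hfin : FiniteDimensional K K' := FiniteDimensional.right ℚ K K'
  have h1 : Fintype.card (K' →ₐ[K] QBar) = finrank K K' := AlgHom.card K K' QBar
  rw [← h1, ← Finset.card_univ]
  symm
  refine Finset.card_bij (fun (f : K' →ₐ[K] QBar) _ => (f : K' →+* QBar)) ?_ ?_ ?_
  · intro f _
    rw [Finset.mem_filter]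
    exact ⟨Finset.mem_univ _, by ext x; exact f.commutes x⟩
  · intro f _ f' _ h
    ext x
    exact RingHom.congr_fun h x
  · intro ψ hψ
    rw [Finset.mem_filter] at hψ
    exact ⟨{ ψ with commutes' := fun x => RingHom.congr_fun hψ.2 x }, Finset.mem_univ _, rfl⟩

open Classical in
/-- the norm as a product over the embeddings above a given one -/
theorem norm_fiber (φ : K →+* QBar) (y : K') : φ (Algebra.norm K y) =
    ∏ ψ ∈ Finset.univ.filter (fun ψ : K' →+* QBar => ψ.comp (algebraMap K K') = φ), ψ y := by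
  classical
  let _ := φ.toAlgebra
  have h0 : IsScalarTower ℚ K K' := IsScalarTower.of_algebraMap_eq' (Subsingleton.elim _ _)
  have hfin : FiniteDimensional K K' := FiniteDimensional.right ℚ K K'
  have h1 := Algebra.norm_eq_prod_embeddings (K := K) (L := K') QBar y
  have h2 : algebraMap K QBar (Algebra.norm K y) = φ (Algebra.norm K y) := rfl
  rw [← h2, h1]
  refine Finset.prod_bij (fun (f : K' →ₐ[K] QBar) _ => (f : K' →+* QBar)) ?_ ?_ ?_ ?_
  · intro f _
    rw [Finset.mem_filter]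
    exact ⟨Finset.mem_univ _, by ext x; exact f.commutes x⟩
  · intro f _ f' _ h
    ext x
    exact RingHom.congr_fun h x
  · intro ψ hψ
    rw [Finset.mem_filter] at hψ
    exact ⟨{ ψ with commutes' := fun x => RingHom.congr_fun hψ.2 x }, Finset.mem_univ _, rfl⟩
  · intro f _
    rfl

/-- small relations vanish -/
theorem zero_of_small {q : ℕ} {π : K'} (hNP : NoPower K π) (hW : IsWeil q π) (hcc : CCompat K K')
    (hsw : HasSwaps K K') {i : ℕ} (hi : 2 * i < finrank K K') (f : (K' →+* QBar) → ℤ)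
    (hodd : ∀ ψ, f (cc ψ) = - f ψ) (hsmall : ∑ ψ, (f ψ).natAbs ≤ 4 * i) (M : ℤ) (hM : M ≠ 0)
    (hprod : ∏ ψ : K' →+* QBar, (ψ π) ^ (M * f ψ) = 1) : f = 0 := by
  classical
  have hconst : ∀ ψ₁ ψ₂ : K' →+* QBar,
      ψ₁.comp (algebraMap K K') = ψ₂.comp (algebraMap K K') → f ψ₁ = f ψ₂ := by
    intro ψ₁ ψ₂ hr
    have h1 := const_w hNP hW hcc hsw (fun ψ => M * f ψ) (fun ψ => by
      show M * f (cc ψ) = -(M * f ψ)
      rw [hodd]
      ring)
      hprod ψ₁ ψ₂ hr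
    exact mul_left_cancel₀ hM h1
  funext ψ
  show f ψ = 0
  by_contra hne
  set φ := ψ.comp (algebraMap K K') with hφ
  set S := Finset.univ.filter (fun ψ' : K' →+* QBar => ψ'.comp (algebraMap K K') = φ) with hS
  set T := Finset.univ.filter (fun ψ' : K' →+* QBar => ψ'.comp (algebraMap K K') = cc φ) with hT
  have hdisj : Disjoint S T := by
    rw [Finset.disjoint_left]
    intro ψ' h1 h2
    rw [hS, Finset.mem_filter] at h1
    rw [hT, Finset.mem_filter] at h2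
    exact cc_ne φ (h2.2.symm.trans h1.2)
  have h1 : ∀ ψ' ∈ S ∪ T, 1 ≤ (f ψ').natAbs := by
    intro ψ' hψ'
    rw [Finset.mem_union] at hψ'
    rcases hψ' with h | h
    · rw [hS, Finset.mem_filter] at h
      rw [hconst ψ' ψ h.2]
      exact Nat.one_le_iff_ne_zero.2 (Int.natAbs_ne_zero.2 hne)
    · rw [hT, Finset.mem_filter] at h
      have h2 : (cc ψ).comp (algebraMap K K') = cc φ := hcc ψ
      rw [hconst ψ' (cc ψ) (h.2.trans h2.symm), hodd, Int.natAbs_neg]
      exact Nat.one_le_iff_ne_zero.2 (Int.natAbs_ne_zero.2 hne)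
  have h2 : (S ∪ T).card ≤ ∑ ψ', (f ψ').natAbs := by
    calc (S ∪ T).card = ∑ _ψ' ∈ S ∪ T, 1 := by simp
      _ ≤ ∑ ψ' ∈ S ∪ T, (f ψ').natAbs := Finset.sum_le_sum h1
      _ ≤ _ := Finset.sum_le_sum_of_subset (Finset.subset_univ _)
  have h9 := h2.trans hsmall
  rw [Finset.card_union_of_disjoint hdisj, hS, hT, card_fiber, card_fiber] at h9
  omega

/-- all relations vanish if the conjugates of the norm have no relation -/
theorem zero_of_normFree {q : ℕ} {π : K'} (hNP : NoPower K π) (hW : IsWeil q π)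
    (hcc : CCompat K K') (hsw : HasSwaps K K') (hNF : NormFree K π) (f : (K' →+* QBar) → ℤ)
    (hodd : ∀ ψ, f (cc ψ) = - f ψ) (M : ℤ) (hM : M ≠ 0)
    (hprod : ∏ ψ : K' →+* QBar, (ψ π) ^ (M * f ψ) = 1) : f = 0 := by
  classical
  have hconst : ∀ ψ₁ ψ₂ : K' →+* QBar,
      ψ₁.comp (algebraMap K K') = ψ₂.comp (algebraMap K K') → f ψ₁ = f ψ₂ := by
    intro ψ₁ ψ₂ hr
    have h1 := const_w hNP hW hcc hsw (fun ψ => M * f ψ) (fun ψ => by
      show M * f (cc ψ) = -(M * f ψ)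
      rw [hodd]
      ring)
      hprod ψ₁ ψ₂ hr
    exact mul_left_cancel₀ hM h1
  choose e he using (fun φ : K →+* QBar => exists_ext (K' := K') φ)
  have hv : (fun φ => M * f (e φ)) = 0 := by
    refine hNF _ ?_ ?_
    · intro φ
      have h1 : f (e (cc φ)) = f (cc (e φ)) := by
        apply hconst
        rw [he, hcc, he]
      show M * f (e (cc φ)) = -(M * f (e φ))
      rw [h1, hodd]
      ring
    · rw [← hprod, ← Finset.prod_fiberwise (s := Finset.univ)
        (g := fun ψ : K' →+* QBar => ψ.comp (algebraMap K K'))]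
      refine Finset.prod_congr rfl fun φ _ => ?_
      rw [norm_fiber, ← Finset.prod_zpow]
      refine Finset.prod_congr rfl fun ψ hψ => ?_
      rw [Finset.mem_filter] at hψ
      rw [hconst (e φ) ψ ((he φ).trans hψ.2.symm)]
  funext ψ
  have h3 := congrFun hv (ψ.comp (algebraMap K K'))
  have h4 : M * f (e (ψ.comp (algebraMap K K'))) = 0 := h3
  have h5 := (mul_eq_zero.1 h4).resolve_left hM
  rw [hconst (e (ψ.comp (algebraMap K K'))) ψ (he _)] at h5
  exact h5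

/-- from odd relations to relations between Frobenius eigenvalues -/
theorem noRelation {E : Type} [Field E] (e : QBar →+* E) {q : ℕ} {π : K'} (hπ : π ≠ 0)
    (hW : IsWeil q π) {i : ℕ} (hi : 1 ≤ i)
    (hlow : ∀ f : (K' →+* QBar) → ℤ, (∀ ψ, f (cc ψ) = - f ψ) → ∑ ψ, (f ψ).natAbs ≤ 4 * i →
      ∀ M : ℤ, M ≠ 0 → ∏ ψ : K' →+* QBar, (ψ π) ^ (M * f ψ) = 1 → f = 0)
    (inst : DecidableEq (K' →+* QBar)) :
    NoRelation (fun ψ : K' →+* QBar => e (ψ π)) (q : E) i := by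
  have h0 : ∀ ψ : K' →+* QBar, ψ π ≠ 0 := fun ψ => (map_ne_zero ψ).2 hπ
  have hq : (q : QBar) ≠ 0 := by
    obtain ⟨ψ₀⟩ : Nonempty (K' →+* QBar) := inferInstance
    rw [← mul_cc hW ψ₀]
    exact mul_ne_zero (h0 _) (h0 _)
  have hccv : ∀ ψ : K' →+* QBar, (cc ψ) π = q / ψ π := by
    intro ψ
    rw [eq_div_iff (h0 ψ), mul_comm]
    exact mul_cc hW ψ
  have hinv : Function.Involutive (cc (K := K')) := cc_cc
  -- a relation given by multiplicities
  have key : ∀ (m : (K' →+* QBar) → ℕ) (j M : ℕ), j ≤ i → 0 < M → ∑ ψ, m ψ = 2 * j →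
      (∏ ψ : K' →+* QBar, (ψ π) ^ m ψ) ^ M = (q : QBar) ^ (j * M) → ∀ ψ, m ψ = m (cc ψ) := by
    intro m j M hj hM hsum hrel ψ
    have h1 := hlow (fun ψ => (m ψ : ℤ) - m (cc ψ)) ?_ ?_ M (by exact_mod_cast hM.ne') ?_
    · have h2 := congrFun h1 ψ
      simp only [Pi.zero_apply] at h2
      omega
    · intro ψ
      rw [cc_cc]
      ring
    · have h2 : ∀ ψ : K' →+* QBar, ((m ψ : ℤ) - m (cc ψ)).natAbs ≤ m ψ + m (cc ψ) := by
        intro ψ
        omega
      refine le_trans (Finset.sum_le_sum fun ψ _ => h2 ψ) ?_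
      rw [Finset.sum_add_distrib]
      have h3 : ∑ ψ, m (cc ψ) = ∑ ψ, m ψ :=
        Fintype.sum_equiv hinv.toPerm _ _ fun x => rfl
      rw [h3, hsum]
      omega
    · have h2 : ∏ ψ : K' →+* QBar, (ψ π) ^ ((M : ℤ) * ((m ψ : ℤ) - m (cc ψ))) =
          (∏ ψ : K' →+* QBar, (ψ π) ^ m ψ) ^ M / (∏ ψ : K' →+* QBar, (ψ π) ^ m (cc ψ)) ^ M := by
        rw [← Finset.prod_pow, ← Finset.prod_pow, ← Finset.prod_div_distrib]
        refine Finset.prod_congr rfl fun ψ _ => ?_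
        rw [mul_sub, zpow_sub₀ (h0 ψ), ← pow_mul, ← pow_mul, mul_comm (m ψ), mul_comm (m (cc ψ))]
        norm_cast
      have h3 : ∏ ψ : K' →+* QBar, (ψ π) ^ m (cc ψ) = ∏ ψ : K' →+* QBar, ((cc ψ) π) ^ m ψ := by
        refine Fintype.prod_equiv hinv.toPerm _ _ fun ψ => ?_
        show (ψ π) ^ m (cc ψ) = ((cc (cc ψ)) π) ^ m (cc ψ)
        rw [cc_cc]
      have h4 : (∏ ψ : K' →+* QBar, (ψ π) ^ m ψ) * ∏ ψ : K' →+* QBar, ((cc ψ) π) ^ m ψ =
          (q : QBar) ^ (2 * j) := by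
        rw [← Finset.prod_mul_distrib, ← hsum, ← Finset.prod_pow_eq_pow_sum]
        refine Finset.prod_congr rfl fun ψ _ => ?_
        rw [← mul_pow, mul_cc hW]
      set P := ∏ ψ : K' →+* QBar, (ψ π) ^ m ψ with hP
      set Q := ∏ ψ : K' →+* QBar, ((cc ψ) π) ^ m ψ with hQ
      rw [h2, h3]
      have h5 : (P * Q) ^ M = ((q : QBar) ^ (2 * j)) ^ M := by rw [h4]
      rw [mul_pow, hrel, ← pow_mul] at h5
      have h6 : Q ^ M = (q : QBar) ^ (j * M) := by
        have h7 : (q : QBar) ^ (2 * j * M) = (q : QBar) ^ (j * M) * (q : QBar) ^ (j * M) := by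
          rw [← pow_add]
          congr 1
          ring
        rw [h7] at h5
        exact mul_left_cancel₀ (pow_ne_zero _ hq) h5
      rw [hrel, h6, div_self (pow_ne_zero _ hq)]
  intro j hj w hrel s s' hss
  have hs' : s' = cc s := by
    by_contra hne
    -- the relation `s' = cc s`
    have h1 := key (fun ψ => (if ψ = s then 1 else 0) + (if ψ = s' then 1 else 0)) 1 1 hi one_pos
      (by
        rw [Finset.sum_add_distrib, Finset.sum_ite_eq' Finset.univ s,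
          Finset.sum_ite_eq' Finset.univ s', if_pos (Finset.mem_univ _),
          if_pos (Finset.mem_univ _)]) ?_ s
    · simp only [if_true] at h1
      have h2 : cc s ≠ s := fun h => cc_ne s h
      have h3 : cc s ≠ s' := fun h => hne h.symm
      rw [if_neg h2, if_neg h3] at h1
      split_ifs at h1 <;> omega
    · have h2 : ∏ ψ : K' →+* QBar, (ψ π) ^ ((if ψ = s then 1 else 0) +
          (if ψ = s' then 1 else 0)) = s π * s' π := by
        have h3 : ∀ ψ : K' →+* QBar, (ψ π) ^ ((if ψ = s then 1 else 0) +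
            (if ψ = s' then 1 else 0)) = (if ψ = s then ψ π else 1) * (if ψ = s' then ψ π else 1) := by
          intro ψ
          rw [pow_add]
          congr 1
          · split_ifs <;> simp
          · split_ifs <;> simp
        rw [Finset.prod_congr rfl fun ψ _ => h3 ψ, Finset.prod_mul_distrib,
          Finset.prod_ite_eq' Finset.univ s, Finset.prod_ite_eq' Finset.univ s',
          if_pos (Finset.mem_univ _), if_pos (Finset.mem_univ _)]
      rw [h2]
      have h4 : s π * s' π = (q : QBar) := by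
        apply e.injective
        rw [map_mul, map_natCast]
        exact hss
      rw [h4]
  obtain ⟨M, hM, hrel⟩ := hrel
  have h1 := key (fun ψ => (Finset.univ.filter (fun k => w k = ψ)).card) j M hj hM ?_ ?_ s
  · rw [hs']
    exact h1
  · rw [← Finset.card_eq_sum_card_fiberwise (fun k _ => Finset.mem_univ (w k)), Finset.card_univ,
      Fintype.card_fin]
  · have h2 : ∏ ψ : K' →+* QBar, (ψ π) ^ (Finset.univ.filter (fun k => w k = ψ)).card =
        ∏ k, (w k) π := by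
      rw [← Finset.prod_fiberwise (s := Finset.univ) (g := w)]
      refine Finset.prod_congr rfl fun ψ _ => ?_
      rw [← Finset.prod_const]
      refine Finset.prod_congr rfl fun k hk => ?_
      rw [Finset.mem_filter] at hk
      rw [hk.2]
    rw [h2]
    apply e.injective
    rw [map_pow, map_prod, map_pow, map_natCast]
    exact hrel

/-! ### Ordinary Weil numbers -/

open Pool.Agent.CMV (IsOrdinary HasType) in
theorem norm_of_type {p : ℕ} [Fact p.Prime] {q : ℕ} {π : K'} (ι : QBar →+* PadicAlgCl p)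
    {Φ : Finset (K' →+* QBar)} (hπ : IsOrdinary p q π) (hΦ : HasType ι π Φ) (ψ : K' →+* QBar) :
    (ψ ∈ Φ → ‖ι (ψ π)‖ = ‖(q : PadicAlgCl p)‖) ∧ (ψ ∉ Φ → ‖ι (ψ π)‖ = 1) := by
  obtain ⟨⟨a, ha, hq⟩, hW, ho⟩ := hπ
  have hlt := Pool.Agent.FFT.NORM_.norm_q_lt p a q ha hq
  constructor
  · intro h
    rcases ho (ι.comp ψ) with h1 | h1
    · exfalso
      have h2 := (hΦ ψ).1 h
      have h3 : ‖ι (ψ π)‖ = 1 := h1
      rw [h3] at h2
      exact lt_irrefl _ h2
    · exact h1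
  · intro h
    rcases ho (ι.comp ψ) with h1 | h1
    · exact h1
    · exfalso
      apply h
      rw [hΦ ψ]
      have h3 : ‖ι (ψ π)‖ = ‖(q : PadicAlgCl p)‖ := h1
      rw [h3]
      exact hlt

open Pool.Agent.CMV (IsOrdinary HasType) in
theorem noPower_of_notFrom {p : ℕ} [Fact p.Prime] {q : ℕ} {π : K'} (ι : QBar →+* PadicAlgCl p)
    {Φ : Finset (K' →+* QBar)} (hπ : IsOrdinary p q π) (hΦ : HasType ι π Φ)
    (hNF : NotFrom K Φ) : NoPower K π := by
  rintro m hm ⟨y, hy⟩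
  obtain ⟨ψ, ψ', hr, h1, h2⟩ := hNF
  have h3 : ψ π ^ m = ψ' π ^ m := by
    rw [← map_pow, ← map_pow, ← hy]
    exact RingHom.congr_fun hr y
  have h4 : ‖ι (ψ π)‖ ^ m = ‖ι (ψ' π)‖ ^ m := by
    have h5 := congrArg (fun z => ‖ι z‖) h3
    simp only [map_pow, norm_pow] at h5
    exact h5
  rw [(norm_of_type ι hπ hΦ ψ').2 h2, one_pow] at h4
  have h5 := (hΦ ψ).1 h1
  exact (pow_lt_one₀ (norm_nonneg _) h5 hm.ne').ne h4

open Pool.Agent.CMV (IsOrdinary HasType) in
theorem normFree_of_full {p : ℕ} [Fact p.Prime] {q : ℕ} {π : K'} (ι : QBar →+* PadicAlgCl p)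
    {Φ : Finset (K' →+* QBar)} (hπ : IsOrdinary p q π) (hΦ : HasType ι π Φ)
    (hfull : FullSig K Φ) : NormFree K π := by
  classical
  intro v hv hprod
  apply hfull v hv
  intro τ
  obtain ⟨a, ha, hq⟩ := hπ.1
  have hlt := Pool.Agent.FFT.NORM_.norm_q_lt p a q ha hq
  have hN0 : 0 < ‖(q : PadicAlgCl p)‖ := by
    rw [norm_pos_iff]
    rw [hq]
    exact_mod_cast pow_ne_zero a (Fact.out : p.Prime).ne_zero
  -- the norm of a conjugate of the norm
  have h1 : ∀ φ : K →+* QBar, ‖ι (φ (Algebra.norm K π))‖ = ‖(q : PadicAlgCl p)‖ ^ sig Φ φ := by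
    intro φ
    rw [norm_fiber, map_prod, norm_prod]
    have h2 : ∀ ψ : K' →+* QBar, ‖ι (ψ π)‖ = if ψ ∈ Φ then ‖(q : PadicAlgCl p)‖ else 1 := by
      intro ψ
      split_ifs with h
      · exact (norm_of_type ι hπ hΦ ψ).1 h
      · exact (norm_of_type ι hπ hΦ ψ).2 h
    rw [Finset.prod_congr rfl fun ψ _ => h2 ψ, ← Finset.prod_filter, Finset.prod_const]
    congr 1
    unfold sig
    rw [← Set.ncard_coe_finset]
    congr 1
    ext ψ
    simp [and_comm]
  have h2 := congrArg (fun z => ‖ι (τ z)‖) hprod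
  simp only [map_prod, map_one, norm_one, norm_prod] at h2
  have h3 : ∏ φ : K →+* QBar, ‖ι (τ (φ (Algebra.norm K π) ^ v φ))‖ =
      ‖(q : PadicAlgCl p)‖ ^ (∑ φ, v φ * (sig Φ ((τ : QBar →+* QBar).comp φ) : ℤ)) := by
    have h6 : ∀ (s : Finset (K →+* QBar)) (u : (K →+* QBar) → ℤ),
        ‖(q : PadicAlgCl p)‖ ^ (∑ φ ∈ s, u φ) = ∏ φ ∈ s, ‖(q : PadicAlgCl p)‖ ^ u φ := by
      intro s u
      induction s using Finset.induction_on with
      | empty => simp
      | insert x s hx ih => rw [Finset.sum_insert hx, Finset.prod_insert hx, zpow_add₀ hN0.ne', ih]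
    rw [h6]
    refine Finset.prod_congr rfl fun φ _ => ?_
    rw [map_zpow₀, map_zpow₀, norm_zpow]
    have h4 := h1 ((τ : QBar →+* QBar).comp φ)
    have h5 : ι (((τ : QBar →+* QBar).comp φ) (Algebra.norm K π)) =
        ι (τ (φ (Algebra.norm K π))) := rfl
    rw [h5] at h4
    rw [h4, ← zpow_natCast, ← zpow_mul, mul_comm]
  rw [h3] at h2
  exact zpow_right_injective₀ hN0 hlt.ne (h2.trans (zpow_zero _).symm)

end WNUM_

end Pool.Agent.MBK
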