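import Mathlib
import Pool.Agent.MBK.DefsUp
import Pool.Agent.MBK.MAIN
import Pool.Agent.MBK.WNUM
import Pool.Agent.OneRed.Main

set_option autoImplicit false
set_option linter.unusedSectionVars false
set_option linter.unusedVariables false

/-!
# The main theorem for abelian varieties with one ordinary reduction
-/

namespace Pool.Agent.MBK

open NumberField Finset Module Polynomial
open Pool.Agent.CMT (QBar IsCMType TateWeight Divisorial TateByDivisors cc)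
open Pool.Agent.CMTP (NotInduced)
open Pool.Agent.FFT (IsWeil)
open Pool.Agent.OneRed (Rep Coh NoRelation main_A main_B tateClass_iff byDivisors_iff)
open scoped BigOperators

namespace MAIN_

open WNUM_ in
theorem frobDivisorial {K K' : Type} [Field K] [NumberField K] [IsCMField K] [Field K']
    [NumberField K'] [IsCMField K'] [Algebra K K'] (hcc : CCompat K K') (hsw : HasSwaps K K')
    {q : ℕ} {π : K'} (hW : IsWeil q π) (hNP : NoPower K π) :
    FrobDivisorial K (finrank K K') q π := by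
  classical
  intro E V Γ _ _ _ _ _ D hD r j x hx hor
  rw [tateClass_iff] at hx
  rw [byDivisors_iff]
  obtain ⟨e, b, φ, h1, h2⟩ := hD
  have hπ := pi_ne_zero hNP
  have hrel : ∀ i : ℕ, 1 ≤ i → (2 * i < finrank K K' ∨ NormFree K π) →
      NoRelation (fun ψ : K' →+* QBar => e (ψ π)) (D.χ φ : E) i := by
    intro i hi h
    rw [h2]
    refine noRelation e hπ hW hi (fun f hodd hsmall M hM hprod => ?_) _
    rcases h with h | h
    · exact zero_of_small hNP hW hcc hsw h f hodd hsmall M hM hprod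
    · exact zero_of_normFree hNP hW hcc hsw h f hodd M hM hprod
  rcases Nat.eq_zero_or_pos j with hj | hj
  · subst hj
    exact Pool.Agent.OneRed.divisorial_zero D hx
  rcases hor with h3 | h3 | ⟨h3, h4⟩
  · exact main_B D b _ φ h1 (hrel j hj (Or.inl h3)) le_rfl hx
  · exact main_B D b _ φ h1 (hrel j hj (Or.inr h3)) le_rfl hx
  · exact main_A D b _ φ h1 (hrel 2 one_le_two (Or.inl (by omega))) h4 hx

/-- a polynomial with all interchanges of roots is good -/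
theorem good₁_of_swaps (hCMF : T_CMF) (hDEG : T_DEG) (hHSW : T_HSW) (hWEIL : T_WEIL)
    (hFULL : T_FULL) (hCONV : T_CONV) (hIND : T_IND) (hCNT : T_CNT) {F K : Type} [Field F]
    [NumberField F] [IsTotallyReal F] [Field K] [NumberField K] [IsCMField K] [Algebra F K]
    (h2 : finrank F K = 2) {N : ℕ} (hN : 2 ≤ N) (h : (𝓞 F)[X]) (hm : h.Monic)
    (hd : h.natDegree = N) (hr : TotReal h) (hs : RootSwaps F K N h) : Good₁ F K N h := by
  classical
  intro K' _ _ _ θ hθ hθ'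
  have hdeg : finrank K K' = N := hDEG F K K' N h hm hd hs θ hθ hθ'
  obtain ⟨hCM, hcc, hcompat⟩ := hCMF F K K' h2 h hm hr θ hθ hθ'
  have hsw : HasSwaps K K' := hHSW F K K' h2 hcompat N h hs θ hθ hθ' hcc
  have hiff : ∀ Φ : Finset (K' →+* QBar), IsCMType K' Φ →
      ((NotInduced Φ ∧ TateByDivisors Φ) ↔ (NotFrom K Φ ∧ FullSig K Φ)) := by
    intro Φ hΦ
    constructor
    · rintro ⟨h3, h4⟩
      have h5 := (hIND.1 K' Φ).1 h3
      exact ⟨hIND.2 K K' Φ (by rw [hdeg]; exact hN) h5, hCONV K K' hcompat Φ hΦ h5 h4⟩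
    · rintro ⟨h3, h4⟩
      obtain ⟨h5, h6⟩ := hFULL K K' hcompat hsw Φ hΦ h3 h4
      exact ⟨(hIND.1 K' Φ).2 h5, h6⟩
  have hQ : finrank ℚ K = 2 * finrank ℚ F := by
    rw [← Module.finrank_mul_finrank ℚ F K, h2, mul_comm]
  obtain ⟨hc1, hc2, hc3⟩ := hCNT K K' N (finrank ℚ F) hcompat hQ hdeg
  refine ⟨hdeg, hCM, fun q π hW hNP => ?_, fun Φ hΦ => ⟨fun h3 => hWEIL K K' hcompat hsw Φ hΦ h3,
    hiff Φ hΦ, fun p hp q π ι hπ hT => ⟨fun h3 => WNUM_.noPower_of_notFrom ι hπ hT h3,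
      fun h3 => WNUM_.normFree_of_full ι hπ hT h3⟩⟩, hc1, hc3, ?_⟩
  · rw [← hdeg]
    exact frobDivisorial hcompat hsw hW hNP
  let f : {Φ : Finset (K' →+* QBar) // IsCMType K' Φ ∧ ¬ (NotFrom K Φ ∧ FullSig K Φ)} →
      {Φ : Finset (K' →+* QBar) // IsCMType K' Φ ∧ ¬ FullSig K Φ} ⊕
      {Φ : Finset (K' →+* QBar) // IsCMType K' Φ ∧ ¬ NotFrom K Φ} := fun Φ =>
    if h3 : FullSig K Φ.1 then
      Sum.inr ⟨Φ.1, Φ.2.1, fun h4 => Φ.2.2 ⟨h4, h3⟩⟩
    else Sum.inl ⟨Φ.1, Φ.2.1, h3⟩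
  have hf : Function.Injective f := by
    intro Φ Ψ hfe
    simp only [f] at hfe
    split_ifs at hfe with h3 h4 h4
    · have h5 := Sum.inr_injective hfe
      exact Subtype.ext (congrArg (fun x : {Φ : Finset (K' →+* QBar) // IsCMType K' Φ ∧
        ¬ NotFrom K Φ} => x.1) h5)
    · have h5 := Sum.inl_injective hfe
      exact Subtype.ext (congrArg (fun x : {Φ : Finset (K' →+* QBar) // IsCMType K' Φ ∧
        ¬ FullSig K Φ} => x.1) h5)
  calc _ ≤ Nat.card ({Φ : Finset (K' →+* QBar) // IsCMType K' Φ ∧ ¬ FullSig K Φ} ⊕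
        {Φ : Finset (K' →+* QBar) // IsCMType K' Φ ∧ ¬ NotFrom K Φ}) :=
        Nat.card_le_card_of_injective f hf
    _ = Nat.card {Φ : Finset (K' →+* QBar) // IsCMType K' Φ ∧ ¬ FullSig K Φ} +
        Nat.card {Φ : Finset (K' →+* QBar) // IsCMType K' Φ ∧ ¬ NotFrom K Φ} := Nat.card_sum
    _ ≤ _ := Nat.add_le_add hc2 hc3

end MAIN_

/-- the main theorem -/
def T_MAIN₁ : Prop := ∀ (F K ι : Type) [Field F] [NumberField F] [IsTotallyReal F] [Field K]
    [NumberField K] [IsCMField K] [Algebra F K] [Fintype ι] (b : Basis ι ℤ (𝓞 F)),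
    finrank F K = 2 → ∀ N : ℕ, 2 ≤ N → ∀ ε : ℝ, 0 < ε → ∃ H₀ : ℕ, ∀ H : ℕ, H₀ ≤ H →
      (Box b N H).Finite ∧ 0 < (Box b N H).ncard ∧
      (({x ∈ Box b N H | ¬ Good₁ F K N (hpoly b x)}.ncard : ℕ) : ℝ) ≤
        ε * ((Box b N H).ncard : ℕ)

open MAIN_ in
theorem p_MAIN₁ (hALM : T_ALM) (hREAL : T_REAL) (hCMF : T_CMF) (hDEG : T_DEG) (hHSW : T_HSW)
    (hWEIL : T_WEIL) (hFULL : T_FULL) (hCONV : T_CONV) (hIND : T_IND) (hCNT : T_CNT) :
    T_MAIN₁ := by
  classical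
  intro F K ι _ _ _ _ _ _ _ _ b h2 N hN ε hε
  obtain ⟨c, hc, H₁, h1⟩ := hREAL F ι b N hN
  obtain ⟨H₂, h3⟩ := hALM F K ι b N hN (ε * c) (mul_pos hε hc)
  refine ⟨H₁ + H₂, fun H hH => ?_⟩
  have hfin : {x : Fin N × ι → ℤ | ∀ i, |x i| ≤ H}.Finite := by
    refine (Set.finite_Icc (fun _ => -(H : ℤ)) (fun _ => (H : ℤ))).subset fun x hx => ?_
    rw [Set.mem_Icc]
    exact ⟨fun i => (abs_le.1 (hx i)).1, fun i => (abs_le.1 (hx i)).2⟩
  have hfB : (Box b N H).Finite := hfin.subset fun x hx => hx.1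
  have h4 : c * (2 * H + 1 : ℝ) ^ (N * Fintype.card ι) ≤ ((Box b N H).ncard : ℕ) :=
    h1 H (by omega)
  refine ⟨hfB, ?_, ?_⟩
  · have h5 : (0 : ℝ) < ((Box b N H).ncard : ℕ) := lt_of_lt_of_le (by positivity) h4
    exact_mod_cast h5
  · have h5 : (({x ∈ Box b N H | ¬ Good₁ F K N (hpoly b x)}.ncard : ℕ) : ℝ) ≤
        (({x : Fin N × ι → ℤ | (∀ i, |x i| ≤ H) ∧ ¬ RootSwaps F K N (hpoly b x)}.ncard : ℕ) :
          ℝ) := by
      refine Nat.cast_le.2 (Set.ncard_le_ncard ?_ (hfin.subset fun x hx => hx.1))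
      rintro x ⟨hx1, hx2⟩
      exact ⟨hx1.1, fun h6 => hx2 (good₁_of_swaps hCMF hDEG hHSW hWEIL hFULL hCONV hIND hCNT h2 hN
        _ (poly_monic _) (poly_natDegree _) hx1.2 h6)⟩
    calc _ ≤ _ := h5
      _ ≤ ε * c * (2 * H + 1 : ℝ) ^ (N * Fintype.card ι) := h3 H (by omega)
      _ = ε * (c * (2 * H + 1 : ℝ) ^ (N * Fintype.card ι)) := by ring
      _ ≤ ε * ((Box b N H).ncard : ℕ) := mul_le_mul_of_nonneg_left h4 hε.le

end Pool.Agent.MBK
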