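import Mathlib
import Pool.Agent.MBK.Targets

set_option autoImplicit false

/-!
# REAL: a positive proportion of the polynomials is totally real
-/

namespace Pool.Agent.MBK.REAL_

open NumberField Finset Module Polynomial
open Pool.Agent.AWP (poly)
open scoped BigOperators

/-- a function with sign changes at `N + 1` points has `N` different zeros -/
lemma ivt (f : ℝ → ℝ) (hf : Continuous f) (N : ℕ) (p : ℕ → ℝ) (hp : StrictMono p)
    (hs : ∀ i ≤ N, 0 < (-1) ^ (N - i) * f (p i)) :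
    ∃ r : Fin N → ℝ, Function.Injective r ∧ ∀ i, f (r i) = 0 := by
  have h : ∀ i : Fin N, ∃ x, p i < x ∧ x < p (i + 1) ∧ f x = 0 := by
    intro i
    have hi := i.2
    have h1 := hs i (by omega)
    have h2 := hs (i + 1) (by omega)
    set s : ℝ := (-1) ^ (N - (i + 1)) with hsd
    have h3 : (-1 : ℝ) ^ (N - (i : ℕ)) = - s := by
      rw [show N - (i : ℕ) = (N - (i + 1)) + 1 from by omega, pow_succ]
      ring
    rw [h3] at h1
    have hg : ContinuousOn (fun x => s * f x) (Set.Icc (p i) (p (i + 1))) :=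
      (continuous_const.mul hf).continuousOn
    have h4 := intermediate_value_Ioo (hp (Nat.lt_succ_self i)).le hg
    obtain ⟨x, hx, hx0⟩ := h4 (show (0 : ℝ) ∈ _ from ⟨by linarith, h2⟩)
    refine ⟨x, hx.1, hx.2, ?_⟩
    have hs0 : s ≠ 0 := by
      rw [hsd]
      exact pow_ne_zero _ (by norm_num)
    exact (mul_eq_zero.1 hx0).resolve_left hs0
  choose r hr1 hr2 hr3 using h
  refine ⟨r, ?_, hr3⟩
  have hmono : StrictMono r := by
    intro i j hij
    have h5 : (i : ℕ) + 1 ≤ j := hij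
    exact ((hr2 i).trans_le (hp.monotone h5)).trans (hr1 j)
  exact hmono.injective

lemma poly_eval {R S : Type} [CommRing R] [CommRing S] (φ : R →+* S) {N : ℕ} (c : Fin N → R)
    (z : S) : (poly c).eval₂ φ z = z ^ N + ∑ k : Fin N, φ (c k) * z ^ (N - 1 - k.val) := by
  unfold poly
  simp [eval₂_finsetSum]

lemma poly_deg {N : ℕ} (c : Fin N → ℂ) : (poly c).Monic ∧ (poly c).natDegree = N := by
  have h : (∑ i : Fin N, C (c i) * X ^ (N - 1 - i.val) : ℂ[X]).degree < N := by
    refine mem_degreeLT.1 (Submodule.sum_mem _ fun i _ => mem_degreeLT.2 ?_)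
    refine (degree_C_mul_X_pow_le _ _).trans_lt ?_
    have := i.2
    exact_mod_cast (by omega : N - 1 - i.val < N)
  constructor
  · exact monic_X_pow_add h
  · unfold poly
    rw [natDegree_add_eq_left_of_degree_lt]
    · simp
    · rwa [degree_X_pow]

/-- a polynomial with `N` different real roots has only real roots -/
lemma real_roots {N : ℕ} (c : Fin N → ℝ) (r : Fin N → ℝ) (hr : Function.Injective r)
    (h0 : ∀ i, r i ^ N + ∑ k : Fin N, c k * r i ^ (N - 1 - k.val) = 0) (z : ℂ)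
    (hz : z ^ N + ∑ k : Fin N, (c k : ℂ) * z ^ (N - 1 - k.val) = 0) : z.im = 0 := by
  classical
  obtain ⟨hm, hd⟩ := poly_deg (fun k => (c k : ℂ))
  set P : ℂ[X] := poly (fun k => (c k : ℂ)) with hP
  have hmem : ∀ w : ℂ, w ^ N + ∑ k : Fin N, (c k : ℂ) * w ^ (N - 1 - k.val) = 0 →
      w ∈ P.roots.toFinset := by
    intro w hw
    rw [Multiset.mem_toFinset, mem_roots hm.ne_zero, IsRoot.def, eval, hP, poly_eval]
    simpa using hw
  have hsub : (Finset.univ.image (fun i => (r i : ℂ))) ⊆ P.roots.toFinset := by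
    intro w hw
    rw [Finset.mem_image] at hw
    obtain ⟨i, _, rfl⟩ := hw
    apply hmem
    exact_mod_cast congrArg (fun x : ℝ => (x : ℂ)) (h0 i)
  have hcard : (Finset.univ.image (fun i => (r i : ℂ))).card = N := by
    have hinj : Function.Injective (fun i => (r i : ℂ)) := Complex.ofReal_injective.comp hr
    rw [Finset.card_image_of_injective _ hinj]
    simp
  have hle : P.roots.toFinset.card ≤ N := by
    refine (Multiset.toFinset_card_le _).trans ?_
    rw [← hd]
    exact card_roots' P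
  have heq := Finset.eq_of_subset_of_card_le hsub (by rw [hcard]; exact hle)
  have h1 := hmem z hz
  rw [← heq, Finset.mem_image] at h1
  obtain ⟨i, _, rfl⟩ := h1
  exact Complex.ofReal_im _

/-- sign changes at the points `i + 1/2` are enough -/
lemma real_of_signs {N : ℕ} (hN : 1 ≤ N) (c : Fin N → ℝ)
    (hs : ∀ i < N, 0 < (-1 : ℝ) ^ (N - 1 - i) * (((i : ℝ) + 1 / 2) ^ N +
      ∑ k : Fin N, c k * ((i : ℝ) + 1 / 2) ^ (N - 1 - k.val))) (z : ℂ)
    (hz : z ^ N + ∑ k : Fin N, (c k : ℂ) * z ^ (N - 1 - k.val) = 0) : z.im = 0 := by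
  set f : ℝ → ℝ := fun x => x ^ N + ∑ k : Fin N, c k * x ^ (N - 1 - k.val) with hf
  have hfc : Continuous f := by
    rw [hf]
    fun_prop
  set R : ℝ := 1 + ∑ k : Fin N, |c k| with hR
  have hR1 : 1 ≤ R := by
    rw [hR]
    have : 0 ≤ ∑ k : Fin N, |c k| := Finset.sum_nonneg fun _ _ => abs_nonneg _
    linarith
  set p : ℕ → ℝ := fun i => if i = 0 then -R else (i : ℝ) - 1 / 2 with hp
  have hpm : StrictMono p := by
    apply strictMono_nat_of_lt_succ
    intro n
    rcases n with _ | n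
    · simp only [hp, if_pos, if_neg (Nat.succ_ne_zero 0)]
      norm_num
      linarith
    · simp only [hp, if_neg (Nat.succ_ne_zero n), if_neg (Nat.succ_ne_zero (n + 1))]
      push_cast
      linarith
  obtain ⟨r, hr1, hr2⟩ := ivt f hfc N p hpm (by
    intro i hi
    rcases i with _ | i
    · simp only [hp, if_pos, Nat.sub_zero, hf]
      have h1 : ∑ k : Fin N, |c k * (-R) ^ (N - 1 - k.val)| ≤
          (∑ k : Fin N, |c k|) * R ^ (N - 1) := by
        rw [Finset.sum_mul]
        refine Finset.sum_le_sum fun k _ => ?_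
        rw [abs_mul, abs_pow, abs_neg, abs_of_nonneg (by linarith : (0 : ℝ) ≤ R)]
        refine mul_le_mul_of_nonneg_left ?_ (abs_nonneg _)
        exact pow_le_pow_right₀ hR1 (by omega)
      have h2 : |(-1 : ℝ) ^ N * ∑ k : Fin N, c k * (-R) ^ (N - 1 - k.val)| ≤
          (∑ k : Fin N, |c k|) * R ^ (N - 1) := by
        rw [abs_mul, abs_pow, abs_neg, abs_one, one_pow, one_mul]
        exact (Finset.abs_sum_le_sum_abs _ _).trans h1
      have h3 : (-1 : ℝ) ^ N * (-R) ^ N = R ^ (N - 1) * R := by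
        rw [← mul_pow, ← pow_succ, Nat.sub_add_cancel hN]
        congr 1
        ring
      have h4 := (abs_le.1 h2).1
      have h5 : 0 < R ^ (N - 1) := by positivity
      rw [mul_add, h3]
      have h6 : R ^ (N - 1) * R = R ^ (N - 1) + (∑ k : Fin N, |c k|) * R ^ (N - 1) := by
        rw [hR]
        ring
      linarith
    · have h1 := hs i (by omega)
      simp only [hp, if_neg (Nat.succ_ne_zero i), hf]
      have h2 : ((i + 1 : ℕ) : ℝ) - 1 / 2 = (i : ℝ) + 1 / 2 := by
        push_cast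
        ring
      rw [h2, show N - (i + 1) = N - 1 - i from by omega]
      exact h1)
  exact real_roots c r hr1 hr2 z hz

/-- the sign of the product -/
lemma prod_sign (M i : ℕ) :
    (1 / 2 : ℝ) ^ M ≤ (-1) ^ (M - i) * ∏ j ∈ Finset.range M, ((i : ℝ) + 1 / 2 - (j + 1)) := by
  induction M with
  | zero => simp
  | succ M ih =>
    rw [Finset.prod_range_succ]
    have hpos : (0 : ℝ) < (1 / 2) ^ M := by positivity
    by_cases h : M < i
    · have h1 : M + 1 - i = 0 := by omega
      have h2 : M - i = 0 := by omega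
      rw [h2] at ih
      rw [h1]
      rw [pow_zero, one_mul] at ih ⊢
      have h3 : (1 / 2 : ℝ) ≤ (i : ℝ) + 1 / 2 - (M + 1) := by
        have : (M : ℝ) + 1 ≤ i := by exact_mod_cast h
        linarith
      rw [pow_succ]
      exact mul_le_mul ih h3 (by norm_num) (hpos.le.trans ih)
    · push Not at h
      have h1 : M + 1 - i = (M - i) + 1 := by omega
      rw [h1, pow_succ, pow_succ]
      have h3 : (1 / 2 : ℝ) ≤ -((i : ℝ) + 1 / 2 - (M + 1)) := by
        have : (i : ℝ) ≤ M := by exact_mod_cast h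
        linarith
      calc (1 / 2 : ℝ) ^ M * (1 / 2) ≤ ((-1) ^ (M - i) *
            ∏ j ∈ Finset.range M, ((i : ℝ) + 1 / 2 - (j + 1))) *
            (-((i : ℝ) + 1 / 2 - (M + 1))) :=
            mul_le_mul ih h3 (by norm_num) (hpos.le.trans ih)
        _ = _ := by ring

/-- the polynomial with the roots `1, ..., N - 1` -/
noncomputable def Qp (N : ℕ) : ℤ[X] := ∏ j ∈ Finset.range (N - 1), (X - C ((j : ℤ) + 1))

lemma Qp_deg (N : ℕ) : (Qp N).natDegree = N - 1 := by
  unfold Qp
  rw [natDegree_prod_of_monic _ _ (fun j _ => monic_X_sub_C _)]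
  simp only [natDegree_X_sub_C]
  simp

lemma Qp_eval (N : ℕ) (hN : 1 ≤ N) (x : ℝ) :
    ∑ k : Fin N, ((Qp N).coeff (N - 1 - k.val) : ℝ) * x ^ (N - 1 - k.val) =
      ∏ j ∈ Finset.range (N - 1), (x - (j + 1)) := by
  have h1 : (Qp N).eval₂ (Int.castRingHom ℝ) x =
      ∏ j ∈ Finset.range (N - 1), (x - (j + 1)) := by
    unfold Qp
    rw [eval₂_finsetProd]
    refine Finset.prod_congr rfl fun j _ => ?_
    simp
  rw [← h1, eval₂_eq_sum_range' (Int.castRingHom ℝ)
    (show (Qp N).natDegree < N by rw [Qp_deg]; omega) x,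
    Fin.sum_univ_eq_sum_range (fun k => ((Qp N).coeff (N - 1 - k) : ℝ) * x ^ (N - 1 - k)) N,
    Finset.sum_range_reflect (fun i => ((Qp N).coeff i : ℝ) * x ^ i) N]
  simp

/-- the perturbed polynomial has only real roots -/
lemma real_pert {N : ℕ} (hN : 1 ≤ N) (B m : ℕ) (e : Fin N → ℝ) (he : ∀ k, |e k| ≤ m * B)
    (c : Fin N → ℝ) (hc : ∀ k, c k = (2 ^ N * (N : ℝ) ^ (N + 1) * (B * m + 1)) *
      ((Qp N).coeff (N - 1 - k.val) : ℝ) + e k) (z : ℂ)
    (hz : z ^ N + ∑ k : Fin N, (c k : ℂ) * z ^ (N - 1 - k.val) = 0) : z.im = 0 := by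
  refine real_of_signs hN c ?_ z hz
  intro i hi
  set x : ℝ := (i : ℝ) + 1 / 2 with hx
  set t : ℝ := 2 ^ N * (N : ℝ) ^ (N + 1) * (B * m + 1) with ht
  have hN1 : (1 : ℝ) ≤ N := by exact_mod_cast hN
  have hx0 : 0 ≤ x := by positivity
  have hxN : x ≤ N := by
    have : (i : ℝ) + 1 ≤ N := by exact_mod_cast hi
    rw [hx]
    linarith
  have hB0 : (0 : ℝ) ≤ B := Nat.cast_nonneg _
  have hm0 : (0 : ℝ) ≤ m := Nat.cast_nonneg _
  have h1 : ∑ k : Fin N, c k * x ^ (N - 1 - k.val) =
      t * ∏ j ∈ Finset.range (N - 1), (x - (j + 1)) +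
        ∑ k : Fin N, e k * x ^ (N - 1 - k.val) := by
    rw [← Qp_eval N hN x, Finset.mul_sum, ← Finset.sum_add_distrib]
    refine Finset.sum_congr rfl fun k _ => ?_
    rw [hc k]
    ring
  have h2 : |∑ k : Fin N, e k * x ^ (N - 1 - k.val)| ≤ N * (m * B * N ^ N) := by
    refine (Finset.abs_sum_le_sum_abs _ _).trans ?_
    calc _ ≤ ∑ k : Fin N, (m * B * (N : ℝ) ^ N) := by
          refine Finset.sum_le_sum fun k _ => ?_
          rw [abs_mul, abs_pow, abs_of_nonneg hx0]
          apply mul_le_mul (he k) _ (by positivity) (by positivity)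
          calc x ^ (N - 1 - k.val) ≤ (N : ℝ) ^ (N - 1 - k.val) := pow_le_pow_left₀ hx0 hxN _
            _ ≤ (N : ℝ) ^ N := pow_le_pow_right₀ hN1 (by omega)
      _ = N * (m * B * N ^ N) := by simp
  have h3 := prod_sign (N - 1) i
  rw [← hx] at h3
  set s : ℝ := (-1) ^ (N - 1 - i) with hs
  have hs1 : |s| = 1 := by
    rw [hs, abs_pow, abs_neg, abs_one, one_pow]
  have h4 : |s * (x ^ N + ∑ k : Fin N, e k * x ^ (N - 1 - k.val))| ≤
      N ^ N + N * (m * B * N ^ N) := by
    rw [abs_mul, hs1, one_mul]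
    refine (abs_add_le _ _).trans (add_le_add ?_ h2)
    rw [abs_pow, abs_of_nonneg hx0]
    exact pow_le_pow_left₀ hx0 hxN _
  have h5 : t * (1 / 2 : ℝ) ^ (N - 1) = 2 * (N : ℝ) ^ (N + 1) * (B * m + 1) := by
    rw [ht]
    have : (2 : ℝ) ^ N * (1 / 2) ^ (N - 1) = 2 := by
      have h6 : (2 : ℝ) ^ N = 2 ^ (N - 1) * 2 := by
        rw [← pow_succ, Nat.sub_add_cancel hN]
      rw [h6, one_div, inv_pow]
      field_simp
    calc 2 ^ N * (N : ℝ) ^ (N + 1) * (B * m + 1) * (1 / 2) ^ (N - 1)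
        = (2 ^ N * (1 / 2) ^ (N - 1)) * (N : ℝ) ^ (N + 1) * (B * m + 1) := by ring
      _ = _ := by rw [this]
  have ht0 : 0 ≤ t := by positivity
  have h6 := mul_le_mul_of_nonneg_left h3 ht0
  rw [h5] at h6
  have h7 := (abs_le.1 h4).1
  have h8 : (N : ℝ) ^ N ≤ (N : ℝ) ^ (N + 1) := pow_le_pow_right₀ hN1 (by omega)
  have h9 : (N : ℝ) * (m * B * N ^ N) = (N : ℝ) ^ (N + 1) * (B * m) := by ring
  have h10 : (0 : ℝ) < (N : ℝ) ^ (N + 1) := by positivity
  have h11 : 0 ≤ (N : ℝ) ^ (N + 1) * (B * m) := by positivity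
  rw [h1]
  have h12 : s * (x ^ N + (t * ∏ j ∈ Finset.range (N - 1), (x - (j + 1)) +
        ∑ k : Fin N, e k * x ^ (N - 1 - k.val))) =
      t * (s * ∏ j ∈ Finset.range (N - 1), (x - (j + 1))) +
        s * (x ^ N + ∑ k : Fin N, e k * x ^ (N - 1 - k.val)) := by ring
  rw [h12]
  rw [h9] at h7
  have h13 : 2 * (N : ℝ) ^ (N + 1) * (B * m + 1) =
      2 * (N : ℝ) ^ (N + 1) + 2 * ((N : ℝ) ^ (N + 1) * (B * m)) := by ring
  linarith

/-- the conjugate of `h` with the given coordinates -/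
lemma hpoly_eval {F ι : Type} [Field F] [Fintype ι] (b : Basis ι ℤ (𝓞 F)) {N : ℕ}
    (x : Fin N × ι → ℤ) (σ : F →+* ℝ) (τ : F →+* ℂ) (hτ : ∀ a, τ a = σ a) (z : ℂ)
    (hz : IsRt (hpoly b x) τ z) :
    z ^ N + ∑ k : Fin N, ((∑ i, (x (k, i) : ℝ) * σ (b i : F) : ℝ) : ℂ) *
      z ^ (N - 1 - k.val) = 0 := by
  unfold IsRt hpoly at hz
  rw [poly_eval] at hz
  rw [← hz]
  congr 1
  refine Finset.sum_congr rfl fun k _ => ?_
  congr 1
  rw [RingHom.comp_apply, map_sum, map_sum]
  push_cast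
  refine Finset.sum_congr rfl fun i _ => ?_
  rw [zsmul_eq_mul, map_mul, map_intCast, hτ]

theorem main : T_REAL := by
  classical
  intro F ι _ _ _ _ b N hN2
  have hN : 1 ≤ N := by omega
  have hfin : Finite (F →+* ℝ) :=
    Finite.of_injective (fun σ : F →+* ℝ => (Complex.ofRealHom.comp σ : F →+* ℂ)) (by
      intro σ τ h
      ext x
      have := congrArg (fun f : F →+* ℂ => f x) h
      exact Complex.ofReal_injective this)
  -- the bound `B`
  obtain ⟨B, hB⟩ : ∃ B : ℕ, ∀ σ : F →+* ℝ, ∑ i, |σ (b i : F)| ≤ B := by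
    obtain ⟨M, hM⟩ := (Set.finite_range
      (fun s : F →+* ℝ => ∑ i, |s (b i : F)|)).bddAbove
    refine ⟨⌈M⌉₊, fun σ => ?_⟩
    exact (hM ⟨σ, rfl⟩).trans (Nat.le_ceil M)
  -- the coordinates of the model
  let x0 : Fin N × ι → ℤ := fun s => b.repr (((Qp N).coeff (N - 1 - s.1.val) : ℤ) : 𝓞 F) s.2
  obtain ⟨M, hM⟩ : ∃ M : ℕ, ∀ i, |x0 i| ≤ M := by
    refine ⟨∑ i, (x0 i).natAbs, fun i => ?_⟩
    rw [Int.abs_eq_natAbs]
    exact_mod_cast Finset.single_le_sum (f := fun i => (x0 i).natAbs) (fun _ _ => Nat.zero_le _)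
      (Finset.mem_univ i)
  have hx0 : ∀ (k : Fin N) (σ : F →+* ℝ), ∑ i, (x0 (k, i) : ℝ) * σ (b i : F) =
      ((Qp N).coeff (N - 1 - k.val) : ℝ) := by
    intro k σ
    have h := b.sum_repr (((Qp N).coeff (N - 1 - k.val) : ℤ) : 𝓞 F)
    have h1 := congrArg (fun a : 𝓞 F => σ (a : F)) h
    simp only [map_sum] at h1
    rw [← show σ ((((Qp N).coeff (N - 1 - k.val) : ℤ) : 𝓞 F) : F) =
      ((Qp N).coeff (N - 1 - k.val) : ℝ) from by simp, ← h1]
    refine Finset.sum_congr rfl fun i _ => ?_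
    simp [x0]
  set n := N * Fintype.card ι with hn
  set C : ℕ := 2 ^ N * N ^ (N + 1) with hC
  refine ⟨(1 / (6 * (C * B * M + 1 : ℝ))) ^ n, by positivity, 2 * (C * M) + 1,
    fun H hH => ?_⟩
  set m : ℕ := (H - C * M) / (C * B * M + 1) with hm
  set t : ℤ := C * (B * m + 1) with ht
  have hm1 : m * (C * B * M + 1) ≤ H - C * M := Nat.div_mul_le_self _ _
  have hm2 : H - C * M < (m + 1) * (C * B * M + 1) := by
    have := Nat.lt_div_mul_add (a := H - C * M) (b := C * B * M + 1) (by omega)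
    rw [← hm] at this
    nlinarith
  -- the box of the `y`
  let Y : Finset (Fin N × ι → ℤ) := Fintype.piFinset fun _ => Finset.Icc (-(m : ℤ)) m
  have hY : Y.card = (2 * m + 1) ^ n := by
    simp only [Y, Fintype.card_piFinset, Int.card_Icc, Finset.prod_const, Finset.card_univ,
      Fintype.card_prod, Fintype.card_fin]
    congr 1
    omega
  have hsub : ((Y.image fun y s => t * x0 s + y s : Finset (Fin N × ι → ℤ)) :
      Set (Fin N × ι → ℤ)) ⊆ Box b N H := by
    intro x hx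
    rw [Finset.coe_image] at hx
    obtain ⟨y, hy, rfl⟩ := hx
    have hy' : ∀ s, |y s| ≤ m := by
      intro s
      have := Fintype.mem_piFinset.1 (Finset.mem_coe.1 hy) s
      rw [Finset.mem_Icc] at this
      exact abs_le.2 this
    refine ⟨fun s => ?_, fun τ z hz => ?_⟩
    · have h1 : |t * x0 s + y s| ≤ t * M + m := by
        have ht0 : 0 ≤ t := by positivity
        calc |t * x0 s + y s| ≤ |t * x0 s| + |y s| := abs_add_le _ _
          _ = t * |x0 s| + |y s| := by rw [abs_mul, abs_of_nonneg ht0]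
          _ ≤ t * M + m := by gcongr; exacts [hM s, hy' s]
      have h2 : t * M + m ≤ H := by
        have h3 : m * (C * B * M + 1) + C * M ≤ H := by omega
        have h4 : ((m * (C * B * M + 1) + C * M : ℕ) : ℤ) ≤ (H : ℤ) := by exact_mod_cast h3
        push_cast at h4
        rw [ht]
        linarith
      exact h1.trans h2
    · have hreal := IsTotallyReal.complexEmbedding_isReal (K := F) τ
      set σ : F →+* ℝ := hreal.embedding with hσ
      have hτ : ∀ a, τ a = σ a := fun a => (hreal.coe_embedding_apply a).symm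
      have h1 := hpoly_eval b _ σ τ hτ z hz
      refine real_pert hN B m (fun k => ∑ i, (y (k, i) : ℝ) * σ (b i : F)) ?_ _ ?_ z h1
      · intro k
        calc _ ≤ ∑ i, |(y (k, i) : ℝ) * σ (b i : F)| := Finset.abs_sum_le_sum_abs _ _
          _ ≤ ∑ i, m * |σ (b i : F)| := by
              refine Finset.sum_le_sum fun i _ => ?_
              rw [abs_mul]
              refine mul_le_mul_of_nonneg_right ?_ (abs_nonneg _)
              exact_mod_cast hy' (k, i)
          _ = m * ∑ i, |σ (b i : F)| := by rw [Finset.mul_sum]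
          _ ≤ m * B := by gcongr; exact hB σ
      · intro k
        rw [← hx0 k σ, Finset.mul_sum, ← Finset.sum_add_distrib]
        refine Finset.sum_congr rfl fun i _ => ?_
        have h5 : (t : ℝ) = 2 ^ N * (N : ℝ) ^ (N + 1) * (B * m + 1) := by
          rw [ht, hC]; push_cast; ring
        rw [← h5]
        push_cast
        ring
  have hinj : Function.Injective (fun (y : Fin N × ι → ℤ) s => t * x0 s + y s) := by
    intro y z h
    funext s
    have := congrFun h s
    simpa using this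
  have hcard : (Y.image fun y s => t * x0 s + y s : Finset (Fin N × ι → ℤ)).card =
      (2 * m + 1) ^ n := by
    rw [Finset.card_image_of_injective _ hinj, hY]
  have hbox : (Box b N H).Finite := by
    refine (Set.finite_Icc (fun _ => -(H : ℤ)) (fun _ => (H : ℤ))).subset fun x hx => ?_
    rw [Set.mem_Icc]
    exact ⟨fun i => (abs_le.1 (hx.1 i)).1, fun i => (abs_le.1 (hx.1 i)).2⟩
  have h6 := Set.ncard_le_ncard hsub hbox
  rw [Set.ncard_coe_finset, hcard] at h6
  have h7 : (1 / (6 * (C * B * M + 1 : ℝ))) * (2 * H + 1) ≤ 2 * m + 1 := by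
    have h8 : (H : ℝ) - C * M < (m + 1) * (C * B * M + 1) := by
      have h9 : H < (m + 1) * (C * B * M + 1) + C * M := by omega
      have h10 : (H : ℝ) < (((m + 1) * (C * B * M + 1) + C * M : ℕ) : ℝ) := by
        exact_mod_cast h9
      push_cast at h10
      linarith
    have h11 : (2 * (C * M) + 1 : ℝ) ≤ H := by exact_mod_cast hH
    have hpos : (0 : ℝ) < C * B * M + 1 := by positivity
    rw [div_mul_eq_mul_div, one_mul, div_le_iff₀ (by positivity)]
    have hM0 : (0 : ℝ) ≤ M := Nat.cast_nonneg _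
    have hm0 : (0 : ℝ) ≤ m := Nat.cast_nonneg _
    nlinarith [mul_nonneg hm0 hpos.le]
  calc (1 / (6 * (C * B * M + 1 : ℝ))) ^ n * (2 * H + 1 : ℝ) ^ n
      = ((1 / (6 * (C * B * M + 1 : ℝ))) * (2 * H + 1)) ^ n := by rw [mul_pow]
    _ ≤ (2 * m + 1 : ℝ) ^ n := by
        refine pow_le_pow_left₀ (by positivity) h7 n
    _ = (((2 * m + 1) ^ n : ℕ) : ℝ) := by push_cast; ring
    _ ≤ _ := by exact_mod_cast h6

end Pool.Agent.MBK.REAL_

namespace Pool.Agent.MBK

theorem p_REAL : T_REAL := REAL_.main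

end Pool.Agent.MBK
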