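import Mathlib
import Pool.Agent.MBK.Targets
import Pool.Agent.CMX.SPL
import Pool.Agent.CMX.DISTEQUI
import Pool.Agent.CMX.BOX

set_option autoImplicit false

/-!
# RED: almost all polynomials have a reduction in the given sets of positive density
-/

namespace Pool.Agent.MBK

open NumberField Finset Module

namespace RED_

/-- the reductions of the conjugates as functions of the coordinates modulo `p` -/
noncomputable def Psi {F L ι : Type} [Field F] [Field L] [Fintype ι] (b : Basis ι ℤ (𝓞 F))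
    {N p : ℕ} (ρ : 𝓞 L →+* ZMod p) (y : Fin N × ι → ZMod p) : (F →+* L) → Fin N → ZMod p :=
  fun σ k => ∑ i, y (k, i) * (ρ.comp (RingOfIntegers.mapRingHom σ)) (b i)

theorem Psi_cast {F L ι : Type} [Field F] [Field L] [Fintype ι] (b : Basis ι ℤ (𝓞 F))
    {N p : ℕ} (ρ : 𝓞 L →+* ZMod p) (x : Fin N × ι → ℤ) :
    Psi b ρ (fun i => (x i : ZMod p)) = redc ρ (fun k => ∑ i, x (k, i) • b i) := by
  funext σ k
  show ∑ i, (x (k, i) : ZMod p) * (ρ.comp (RingOfIntegers.mapRingHom σ)) (b i) =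
    ρ (RingOfIntegers.mapRingHom σ (∑ i, x (k, i) • b i))
  rw [map_sum, map_sum]
  refine Finset.sum_congr rfl fun i _ => ?_
  rw [zsmul_eq_mul, map_mul, map_mul, map_intCast, map_intCast]
  rfl

end RED_

open RED_ in
theorem p_RED : T_RED := by
  classical
  intro F L ι _ _ _ _ _ b hcardN N δ hδ0 hδ1 p₀ G hG ε hε
  have hD : ∀ σ τ : F →+* L, ∃ N : ℕ, σ ≠ τ → ∀ p : ℕ, p.Prime → N < p →
      ∀ ρ : 𝓞 L →+* ZMod p, ρ.comp (RingOfIntegers.mapRingHom σ) ≠
        ρ.comp (RingOfIntegers.mapRingHom τ) := by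
    intro σ τ
    by_cases hne : σ ≠ τ
    · obtain ⟨N, hN⟩ := CMX.p_DIST F L σ τ hne
      exact ⟨N, fun _ => hN⟩
    · exact ⟨0, fun h => absurd h hne⟩
  choose M hM using hD
  set N0 : ℕ := p₀ + ∑ σ, ∑ τ, M σ τ with hN0
  have hMle : ∀ σ τ, M σ τ ≤ N0 := by
    intro σ τ
    have e1 : M σ τ ≤ ∑ τ, M σ τ := Finset.single_le_sum (f := fun τ => M σ τ)
      (fun _ _ => Nat.zero_le _) (Finset.mem_univ τ)
    have e2 : ∑ τ, M σ τ ≤ ∑ σ, ∑ τ, M σ τ := Finset.single_le_sum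
      (f := fun σ => ∑ τ, M σ τ) (fun _ _ => Nat.zero_le _) (Finset.mem_univ σ)
    omega
  set P : Set ℕ := {p | p.Prime ∧ N0 < p ∧ Nonempty (𝓞 L →+* ZMod p)} with hP
  have hPinf : P.Infinite := by
    apply Set.infinite_of_forall_exists_gt
    intro a
    obtain ⟨p, hp1, hp2, hp3⟩ := CMX.p_SPL L (max a N0)
    exact ⟨p, ⟨hp1, lt_of_le_of_lt (le_max_right _ _) hp2, hp3⟩,
      lt_of_le_of_lt (le_max_left _ _) hp2⟩
  let B : (p : ℕ) → Set (Fin N × ι → ZMod p) := fun p =>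
    if h : p ∈ P then {y | Psi b (Classical.choice h.2.2) y ∉ G p} else ∅
  have hcard1 : Fintype.card (Fin N × ι) = N * Fintype.card ι := by
    rw [Fintype.card_prod, Fintype.card_fin]
  have hcard2 : Fintype.card (F →+* L) = Fintype.card ι := by
    rw [← hcardN, Nat.card_eq_fintype_card]
  have hBcard : ∀ p ∈ P, (((B p).ncard : ℕ) : ℝ) ≤ (1 - δ) * (p : ℝ) ^ Fintype.card (Fin N × ι) := by
    intro p hp
    have : Fact p.Prime := ⟨hp.1⟩
    have : NeZero p := ⟨hp.1.ne_zero⟩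
    have hBp : B p = {y | Psi b (Classical.choice hp.2.2) y ∉ G p} := by
      simp only [B, dif_pos hp]
    rw [hBp, hcard1]
    set ρ : 𝓞 L →+* ZMod p := Classical.choice hp.2.2 with hρdef
    have hrinj : Function.Injective fun σ : F →+* L =>
        ρ.comp (RingOfIntegers.mapRingHom σ) := by
      intro σ τ hst
      by_contra hne
      exact hM σ τ hne p hp.1 (lt_of_le_of_lt (hMle σ τ) hp.2.1) ρ hst
    have hbij : Function.Injective (fun (x : ι → ZMod p) (σ : F →+* L) =>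
        ∑ i, x i * (ρ.comp (RingOfIntegers.mapRingHom σ)) (b i)) :=
      (CMX.p_EQUI F ι (F →+* L) b p (fun σ => ρ.comp (RingOfIntegers.mapRingHom σ)) hrinj
        hcard2).1
    have hΨ : Function.Injective (Psi (N := N) b ρ) := by
      intro y y' hyy
      funext t
      obtain ⟨k, i⟩ := t
      have h := @hbij (fun i => y (k, i)) (fun i => y' (k, i)) (by
        funext σ
        exact congrFun (congrFun hyy σ) k)
      exact congrFun h i
    refine le_trans ?_ (hG p hp.1 (by have := hp.2.1; omega))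
    have hle : {y : Fin N × ι → ZMod p | Psi b ρ y ∉ G p}.ncard ≤ (G p)ᶜ.ncard := by
      apply Set.ncard_le_ncard_of_injOn (Psi (N := N) b ρ)
      · intro y hy
        exact hy
      · exact hΨ.injOn
    exact_mod_cast hle
  obtain ⟨H₀, hH₀⟩ := CMX.p_BOX (Fin N × ι) δ ε hδ0 hδ1 hε P hPinf (fun p hp => hp.1) B hBcard
  rw [hcard1] at hH₀
  refine ⟨H₀, fun H hH => le_trans ?_ (hH₀ H hH)⟩
  have hfin : {x : Fin N × ι → ℤ | (∀ i, |x i| ≤ H) ∧
      ∀ p ∈ P, (fun i => (x i : ZMod p)) ∈ B p}.Finite := by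
    refine (Set.finite_Icc (fun _ => -(H : ℤ)) (fun _ => (H : ℤ))).subset fun x hx => ?_
    rw [Set.mem_Icc]
    exact ⟨fun i => (abs_le.1 (hx.1 i)).1, fun i => (abs_le.1 (hx.1 i)).2⟩
  have hsub : {x : Fin N × ι → ℤ | (∀ i, |x i| ≤ H) ∧ ∀ p : ℕ, p.Prime → p₀ ≤ p →
      ∀ ρ : 𝓞 L →+* ZMod p, redc ρ (fun k => ∑ i, x (k, i) • b i) ∉ G p} ⊆
      {x : Fin N × ι → ℤ | (∀ i, |x i| ≤ H) ∧ ∀ p ∈ P, (fun i => (x i : ZMod p)) ∈ B p} := by
    rintro x ⟨hx, hx2⟩
    refine ⟨hx, fun p hp => ?_⟩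
    have hBp : B p = {y | Psi b (Classical.choice hp.2.2) y ∉ G p} := by
      simp only [B, dif_pos hp]
    rw [hBp]
    show Psi b (Classical.choice hp.2.2) (fun i => (x i : ZMod p)) ∉ G p
    rw [Psi_cast]
    exact hx2 p hp.1 (by have := hp.2.1; omega) _
  exact_mod_cast Set.ncard_le_ncard hsub hfin

end Pool.Agent.MBK
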