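import Mathlib
import Pool.Agent.MBK.Targets

set_option autoImplicit false
set_option linter.unusedSectionVars false

/-!
# Multiplication by a CM field: the structure of the Tate weights
-/

namespace Pool.Agent.MBK

open NumberField Finset Module Polynomial
open Pool.Agent.CMT (QBar IsCMType TateWeight Divisorial TateByDivisors cc cc_cc comp_cc idx
  mem_idx divisorial_of_count)
open Pool.Agent.CMTP (NotInduced card_idx cc_ne)
open Pool.Agent.AWP (poly)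
open scoped BigOperators

namespace WEIL_

variable {K' : Type} [Field K'] [NumberField K'] [IsCMField K']

theorem ncard_idx {n : ℕ} (Δ : Finset ((K' →+* QBar) × Fin n)) (φ : K' →+* QBar) :
    {j : Fin n | (φ, j) ∈ Δ}.ncard = (idx Δ φ).card := by
  rw [← Set.ncard_coe_finset]
  congr 1
  ext j
  rw [Set.mem_ofPred_eq, Finset.mem_coe, mem_idx]

theorem card_eq_sum {n : ℕ} (Δ : Finset ((K' →+* QBar) × Fin n)) :
    Δ.card = ∑ ψ, (idx Δ ψ).card := by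
  rw [← card_idx Δ Finset.univ, ← Set.ncard_coe_finset]
  congr 1
  ext p
  simp

theorem count_eq_sum {n : ℕ} (Δ : Finset ((K' →+* QBar) × Fin n)) (Φ : Finset (K' →+* QBar))
    (τ : QBar ≃+* QBar) (S : Finset (K' →+* QBar))
    (hS : ∀ ψ, ψ ∈ S ↔ (τ : QBar →+* QBar).comp ψ ∈ Φ) :
    {p : (K' →+* QBar) × Fin n | p ∈ Δ ∧ (τ : QBar →+* QBar).comp p.1 ∈ Φ}.ncard =
      ∑ ψ ∈ S, (idx Δ ψ).card := by
  rw [← card_idx Δ S]
  congr 1
  ext p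
  simp [hS]

/-- a function invariant under complex conjugation has half of its sum on each half -/
theorem half_sum {Φ : Finset (K' →+* QBar)} (hΦ : IsCMType K' Φ) (m : (K' →+* QBar) → ℕ)
    (hm : ∀ ψ, m (cc ψ) = m ψ) (τ : QBar ≃+* QBar) (S : Finset (K' →+* QBar))
    (hS : ∀ ψ, ψ ∈ S ↔ (τ : QBar →+* QBar).comp ψ ∈ Φ) :
    ∑ ψ, m ψ = 2 * ∑ ψ ∈ S, m ψ := by
  classical
  have hmem : ∀ ψ : K' →+* QBar, ψ ∈ S ↔ cc ψ ∈ Sᶜ := by
    intro ψ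
    rw [Finset.mem_compl, hS, hS, comp_cc]
    exact hΦ _
  have h3 : ∑ ψ ∈ S, m (cc ψ) = ∑ ψ ∈ Sᶜ, m ψ := by
    refine Finset.sum_nbij' cc cc (fun ψ hψ => (hmem ψ).1 hψ) (fun ψ hψ => ?_)
      (fun ψ _ => cc_cc ψ) (fun ψ _ => cc_cc ψ) (fun ψ _ => rfl)
    rw [hmem, cc_cc]
    exact hψ
  have h5 : ∑ ψ ∈ S, m ψ = ∑ ψ ∈ Sᶜ, m ψ := by
    rw [← h3]
    exact Finset.sum_congr rfl (fun ψ _ => (hm ψ).symm)
  have h4 := Finset.sum_add_sum_compl S m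
  omega

end WEIL_

open WEIL_ in
theorem p_WEIL (h : T_CONST) : T_WEIL := by
  classical
  intro K K' _ _ _ _ _ _ _ hcc hsw Φ hΦ hnf n i Δ hΔ
  have hconst := h K K' hcc hsw Φ hΦ hnf n i Δ hΔ
  obtain ⟨hΔ1, hΔ2⟩ := hΔ
  -- the divisorial part
  have hA : ∀ ψ : K' →+* QBar, ∃ t ⊆ idx Δ ψ,
      t.card = min (idx Δ ψ).card (idx Δ (cc ψ)).card := fun ψ =>
    Finset.exists_subset_card_eq (min_le_left _ _)
  choose A hA1 hA2 using hA
  obtain ⟨Δ₁, hΔ₁⟩ : ∃ D : Finset ((K' →+* QBar) × Fin n), D = Δ.filter (fun p => p.2 ∈ A p.1) :=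
    ⟨_, rfl⟩
  obtain ⟨Δ₂, hΔ₂⟩ : ∃ D : Finset ((K' →+* QBar) × Fin n), D = Δ.filter (fun p => p.2 ∉ A p.1) :=
    ⟨_, rfl⟩
  have hi1 : ∀ ψ, idx Δ₁ ψ = A ψ := by
    intro ψ
    ext j
    rw [mem_idx, hΔ₁, Finset.mem_filter]
    exact ⟨fun h => h.2, fun h => ⟨mem_idx.1 (hA1 ψ h), h⟩⟩
  have hi2 : ∀ ψ, idx Δ₂ ψ = idx Δ ψ \ A ψ := by
    intro ψ
    ext j
    rw [mem_idx, hΔ₂, Finset.mem_filter, Finset.mem_sdiff, mem_idx]
  have hc2 : ∀ ψ, (idx Δ₂ ψ).card + (A ψ).card = (idx Δ ψ).card := by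
    intro ψ
    rw [hi2]
    exact Finset.card_sdiff_add_card_eq_card (hA1 ψ)
  have hm : ∀ ψ, (A (cc ψ)).card = (A ψ).card := by
    intro ψ
    rw [hA2, hA2, cc_cc, min_comm]
  -- the sums
  obtain ⟨M, hM⟩ : ∃ M, ∑ ψ, (A ψ).card = 2 * M := by
    refine ⟨_, half_sum hΦ (fun ψ => (A ψ).card) hm (RingEquiv.refl QBar)
      (Finset.univ.filter (fun ψ : K' →+* QBar =>
        ((RingEquiv.refl QBar : QBar ≃+* QBar) : QBar →+* QBar).comp ψ ∈ Φ))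
      (fun ψ => by simp)⟩
  have hsum : ∑ ψ, (idx Δ₂ ψ).card + ∑ ψ, (A ψ).card = 2 * i := by
    rw [← Finset.sum_add_distrib, Finset.sum_congr rfl (fun ψ _ => hc2 ψ), ← card_eq_sum, hΔ1]
  refine ⟨i - M, Δ₁, Δ₂, ?_, ?_, ?_, ⟨?_, ?_⟩, ?_⟩
  · rw [hΔ₁, hΔ₂]
    exact Finset.disjoint_filter_filter_not _ _ _
  · intro q
    rw [hΔ₁, hΔ₂, Finset.mem_filter, Finset.mem_filter]
    tauto
  · apply divisorial_of_count hΦ
    intro ψ
    rw [hi1, hi1, hm]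
  · rw [card_eq_sum]
    omega
  · intro τ
    have hS : ∀ ψ : K' →+* QBar, ψ ∈ (Finset.univ.filter (fun ψ : K' →+* QBar =>
        (τ : QBar →+* QBar).comp ψ ∈ Φ)) ↔ (τ : QBar →+* QBar).comp ψ ∈ Φ := fun ψ => by simp
    rw [count_eq_sum Δ₂ Φ τ _ hS]
    have h1 := half_sum hΦ (fun ψ => (A ψ).card) hm τ _ hS
    have h2 := hΔ2 τ
    rw [count_eq_sum Δ Φ τ _ hS, ← Finset.sum_congr rfl (fun ψ _ => hc2 ψ),
      Finset.sum_add_distrib] at h2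
    omega
  · intro ψ ψ' hψ
    have h1 := hconst ψ ψ' hψ
    rw [ncard_idx, ncard_idx, ncard_idx, ncard_idx] at h1
    rw [ncard_idx, ncard_idx]
    have h2 := hc2 ψ
    have h3 := hc2 ψ'
    rw [hA2] at h2 h3
    omega

end Pool.Agent.MBK
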